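import Pool.Agent.H59.HR.Stm

set_option linter.all false

namespace HR

namespace CB_aux

theorem card_gt (S : Finset (ℕ × ℕ)) (hS : IsLowerSet (S : Set (ℕ × ℕ))) (a i j : ℕ)
    (h1 : (a, i) ∈ S) (h2 : (0, j) ∈ S) (hij : i ≠ j) : a + 1 < S.card := by
  have hsub : insert ((0, j) : ℕ × ℕ) ((Finset.range (a + 1)).image (fun x => (x, i))) ⊆ S := by
    intro s hs
    rw [Finset.mem_insert, Finset.mem_image] at hs
    rcases hs with h | ⟨x, hx, h⟩
    · rw [h]; exact h2
    · rw [← h]
      rw [Finset.mem_range] at hx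
      have : ((x, i) : ℕ × ℕ) ≤ (a, i) := Prod.mk_le_mk.mpr ⟨by omega, le_rfl⟩
      exact hS this h1
  have hc := Finset.card_le_card hsub
  rw [Finset.card_insert_of_notMem, Finset.card_image_of_injective, Finset.card_range] at hc
  · omega
  · intro x y hxy
    exact congrArg Prod.fst hxy
  · intro h
    rw [Finset.mem_image] at h
    obtain ⟨x, _, hx⟩ := h
    exact hij (congrArg Prod.snd hx)

theorem exists_bound (S : Finset (ℕ × ℕ)) : ∃ B, ∀ s ∈ S, s.1 < B ∧ s.2 < B := by
  refine ⟨S.sup (fun s => s.1 + s.2) + 1, fun s hs => ?_⟩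
  have h : s.1 + s.2 ≤ S.sup (fun s => s.1 + s.2) := Finset.le_sup (f := fun s => s.1 + s.2) hs
  omega

end CB_aux

theorem CB : S_CB := by
  classical
  intro n S hS hcard h01
  have hdown : ∀ {a b : ℕ × ℕ}, a ≤ b → b ∈ S → a ∈ S := by
    intro a b hab hb
    exact hS hab hb
  obtain ⟨B, hB⟩ := CB_aux.exists_bound S
  by_cases hcase : ∃ a i j : ℕ, i < j ∧ (a, j) ∈ S ∧ (a + 1, i) ∉ S
  · obtain ⟨a, i, j, hij, hj, hi⟩ := hcase
    -- i' minimal
    have hexi : ∃ i, (a + 1, i) ∉ S := ⟨i, hi⟩
    set i' := Nat.find hexi with hi'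
    have hi'1 : (a + 1, i') ∉ S := Nat.find_spec hexi
    have hi'2 : ∀ k < i', (a + 1, k) ∈ S := by
      intro k hk
      have := Nat.find_min hexi hk
      exact not_not.mp this
    have hi'3 : i' ≤ i := Nat.find_min' hexi hi
    have hexj : ∃ j, (a, j + 1) ∉ S := ⟨B, fun h => by have := (hB _ h).2; simp at this⟩
    set j' := Nat.find hexj with hj'
    have hj'1 : (a, j' + 1) ∉ S := Nat.find_spec hexj
    have hj'3 : j ≤ j' := by
      by_contra hlt
      push Not at hlt
      apply hj'1
      exact hdown (Prod.mk_le_mk.mpr ⟨le_rfl, by omega⟩ : ((a, j' + 1) : ℕ × ℕ) ≤ (a, j)) hj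
    have hj'2 : (a, j') ∈ S := by
      rcases Nat.eq_zero_or_pos j' with h | h
      · rw [h]
        exact hdown (Prod.mk_le_mk.mpr ⟨le_rfl, Nat.zero_le _⟩ : ((a, 0) : ℕ × ℕ) ≤ (a, j)) hj
      · have := Nat.find_min hexj (m := j' - 1) (by omega)
        rw [not_not, Nat.sub_add_cancel h] at this
        exact this
    have hlt : i' < j' := by omega
    refine ⟨(a + 1, i'), (a, j'), 1 + (j' - i') * n, n, hi'1, hj'2, ?_, ?_, ?_, ?_, ?_, ?_, ?_, ?_⟩
    · intro q hq hne
      obtain ⟨q1, q2⟩ := q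
      obtain ⟨h1, h2⟩ := Prod.mk_le_mk.mp hq
      rcases Nat.lt_or_ge q2 i' with h | h
      · exact hdown (Prod.mk_le_mk.mpr ⟨h1, le_rfl⟩) (hi'2 q2 h)
      · have hq2 : q2 = i' := le_antisymm h2 h
        have hq1 : q1 ≤ a := by
          rcases Nat.lt_or_ge q1 (a + 1) with h' | h'
          · omega
          · exfalso
            apply hne
            rw [hq2, le_antisymm h1 h']
        exact hdown (Prod.mk_le_mk.mpr ⟨hq1, by omega⟩) hj'2
    · intro q hq hne hqS
      obtain ⟨q1, q2⟩ := q
      obtain ⟨h1, h2⟩ := Prod.mk_le_mk.mp hq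
      rcases Nat.lt_or_ge a q1 with h | h
      · apply hi'1
        exact hdown (Prod.mk_le_mk.mpr ⟨h, by omega⟩) hqS
      · have hq1 : q1 = a := le_antisymm h h1
        have hq2 : j' + 1 ≤ q2 := by
          rcases Nat.lt_or_ge j' q2 with h' | h'
          · omega
          · exfalso
            apply hne
            rw [hq1, le_antisymm h' h2]
        apply hj'1
        exact hdown (Prod.mk_le_mk.mpr ⟨h1, hq2⟩) hqS
    · show (1 + (j' - i') * n) * (a + 1) + n * i' = (1 + (j' - i') * n) * a + n * j' + 1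
      obtain ⟨d, hd⟩ := Nat.exists_eq_add_of_le hlt.le
      rw [hd, Nat.add_sub_cancel_left]
      ring
    · intro k hk1 hk2 h
      have h1 : 1 ≤ j' - i' := by omega
      have h2 : n ≤ (j' - i') * n := Nat.le_mul_of_pos_left n h1
      have h3 : 1 + (j' - i') * n ≤ k * (1 + (j' - i') * n) := Nat.le_mul_of_pos_left _ hk1
      omega
    · intro k hk1 hk2
      simp only at hk2
      omega
    · intro h
      have := congrArg Prod.snd h
      simp only at this
      omega
    · intro h
      have := congrArg Prod.fst h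
      simp only at this
      omega
    · show a + 1 < n
      rw [← hcard]
      exact CB_aux.card_gt S hS a i' j'
        (hdown (Prod.mk_le_mk.mpr ⟨le_rfl, by omega⟩) hj'2)
        (hdown (Prod.mk_le_mk.mpr ⟨Nat.zero_le _, le_rfl⟩) hj'2) (by omega)
  · push Not at hcase
    have hexL : ∃ x, (x, 0) ∉ S := ⟨B, fun h => by have := (hB _ h).1; simp at this⟩
    set L := Nat.find hexL with hL
    have hL1 : (L, 0) ∉ S := Nat.find_spec hexL
    have hL2 : ∀ x < L, (x, 0) ∈ S := fun x hx => not_not.mp (Nat.find_min hexL hx)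
    have hexM : ∃ x, (x, 1) ∉ S := ⟨B, fun h => by have := (hB _ h).1; simp at this⟩
    set M := Nat.find hexM with hM
    have hM1 : (M, 1) ∉ S := Nat.find_spec hexM
    have hM2 : ∀ x < M, (x, 1) ∈ S := fun x hx => not_not.mp (Nat.find_min hexM hx)
    have hMpos : 0 < M := by
      rcases Nat.eq_zero_or_pos M with h | h
      · exfalso; rw [h] at hM1; exact hM1 h01
      · exact h
    obtain ⟨M', hM'⟩ : ∃ M', M = M' + 1 := ⟨M - 1, by omega⟩
    have hM'S : (M', 1) ∈ S := hM2 M' (by omega)
    have hML : M < L := by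
      by_contra hge
      push Not at hge
      apply hL1
      have h1 : (M' + 1, 0) ∈ S := hcase M' 0 1 (by norm_num) hM'S
      exact hdown (Prod.mk_le_mk.mpr ⟨by omega, le_rfl⟩) h1
    have hM'2 : (M', 2) ∉ S := by
      intro h
      apply hM1
      rw [hM']
      exact hcase M' 1 2 (by norm_num) h
    refine ⟨(L, 0), (M', 1), 2, 2 * (L - M') - 1, hL1, hM'S, ?_, ?_, ?_, ?_, ?_, ?_, ?_, ?_⟩
    · intro q hq hne
      obtain ⟨q1, q2⟩ := q
      obtain ⟨h1, h2⟩ := Prod.mk_le_mk.mp hq
      have hq2 : q2 = 0 := Nat.le_zero.mp h2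
      rw [hq2]
      apply hL2
      rcases Nat.lt_or_ge q1 L with h | h
      · exact h
      · exfalso
        apply hne
        rw [hq2, le_antisymm h1 h]
    · intro q hq hne hqS
      obtain ⟨q1, q2⟩ := q
      obtain ⟨h1, h2⟩ := Prod.mk_le_mk.mp hq
      rcases Nat.lt_or_ge M' q1 with h | h
      · apply hM1
        exact hdown (Prod.mk_le_mk.mpr ⟨by omega, h2⟩) hqS
      · have hq1 : q1 = M' := le_antisymm h h1
        have hq2 : 2 ≤ q2 := by
          rcases Nat.lt_or_ge 1 q2 with h' | h'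
          · omega
          · exfalso
            apply hne
            rw [hq1, le_antisymm h' h2]
        apply hM'2
        exact hdown (Prod.mk_le_mk.mpr ⟨h1, hq2⟩) hqS
    · show 2 * L + (2 * (L - M') - 1) * 0 = 2 * M' + (2 * (L - M') - 1) * 1 + 1
      omega
    · intro k hk1 hk2 h
      omega
    · intro k hk1 hk2
      simp only at hk2
      omega
    · intro h
      have := congrArg Prod.snd h
      simp only at this
      omega
    · intro h
      have := congrArg Prod.snd h
      simp only at this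
      omega
    · show L < n
      obtain ⟨L', hL'⟩ : ∃ L', L = L' + 1 := ⟨L - 1, by omega⟩
      rw [← hcard, hL']
      exact CB_aux.card_gt S hS L' 0 1 (hL2 L' (by omega)) h01 (by omega)

end HR
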