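import Mathlib

/-!
# Smooth rational curves through monomial ideals in Hilb^n(C^2): definitions

`P2 A = A[x,y]`, `LP = C[t,1/t]`.  All families live over `C[t]`; arcs are polynomials in `x`
with coefficients in `LP`.
-/

set_option linter.all false

open Polynomial

namespace HR

/-- polynomials in two variables `x = X 0`, `y = X 1` over `A` -/
abbrev P2 (A : Type*) [CommRing A] := MvPolynomial (Fin 2) A

/-- Laurent polynomials `C[t,1/t]` -/
abbrev LP := LaurentPolynomial ℂ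

/-- the monomial `x^p.1 * y^p.2` -/
noncomputable def mon (A : Type*) [CommRing A] (p : ℕ × ℕ) : P2 A :=
  MvPolynomial.X 0 ^ p.1 * MvPolynomial.X 1 ^ p.2

/-- exponent vector of `mon p` -/
noncomputable def ex (p : ℕ × ℕ) : Fin 2 →₀ ℕ := Finsupp.single 0 p.1 + Finsupp.single 1 p.2

/-- the monomial ideal whose standard monomials are those of `S` (`S` finite lower set) -/
noncomputable def mIdeal (S : Finset (ℕ × ℕ)) : Ideal (P2 ℂ) :=
  Ideal.span {m | ∃ p : ℕ × ℕ, p ∉ S ∧ m = mon ℂ p}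

/-- constant families: `C[x,y] → C[t][x,y]` -/
noncomputable def emb : P2 ℂ →+* P2 ℂ[X] := MvPolynomial.map Polynomial.C

/-- substitution `x ↦ X`, `y ↦ a(X)` -/
noncomputable def ev {A : Type*} [CommRing A] (a : A[X]) : P2 A →ₐ[A] A[X] :=
  MvPolynomial.aeval ![Polynomial.X, a]

/-- the ideal `(y - a(x), x^n)` as a vanishing ideal -/
noncomputable def curv {A : Type*} [CommRing A] (n : ℕ) (a : A[X]) : Ideal (P2 A) :=
  (Ideal.span {(Polynomial.X : A[X]) ^ n}).comap (ev a)

/-- the family over `C[t]` defined by the arc `a` (coefficients in `C[t,1/t]`) -/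
noncomputable def fam (n : ℕ) (a : LP[X]) : Ideal (P2 ℂ[X]) :=
  (curv n a).comap (MvPolynomial.map (Polynomial.toLaurent : ℂ[X] →+* LP))

/-- the fibre at `t` of a family over `C[t]` -/
noncomputable def fibre (I : Ideal (P2 ℂ[X])) (t : ℂ) : Ideal (P2 ℂ) :=
  I.map (MvPolynomial.map (Polynomial.evalRingHom t))

/-- some element of the family `I` has expansion `f + (t - t0) g + ...` at `t0`, i.e. the tangent
vector at `t0` of the classifying map of `I` sends `f` to the class of `g` -/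
def FirstOrder (I : Ideal (P2 ℂ[X])) (t : ℂ) (f g : P2 ℂ) : Prop :=
  ∃ F ∈ I, ∃ H : P2 ℂ[X], F = emb f + MvPolynomial.C (X - C t) * emb g
    + MvPolynomial.C ((X - C t) ^ 2) * H

/-- the inclusion of the coordinate ring `C[s]` of the chart at infinity, `s = 1/t` -/
noncomputable def toLaurentInv : ℂ[X] →+* LP :=
  ((LaurentPolynomial.invert : LP ≃ₐ[ℂ] LP) : LP →+* LP).comp (Polynomial.toLaurent : ℂ[X] →+* LP)

/-- a morphism `P^1 → Hilb^n(C^2)`: flat families of colength `n` over the charts `Spec C[t]` and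
`Spec C[s]`, which agree over `C[t,1/t]`, `s = 1/t` -/
structure RatCurve (n : ℕ) where
  I0 : Ideal (P2 ℂ[X])
  I1 : Ideal (P2 ℂ[X])
  free0 : Module.Free ℂ[X] (P2 ℂ[X] ⧸ I0)
  finite0 : Module.Finite ℂ[X] (P2 ℂ[X] ⧸ I0)
  rank0 : Module.finrank ℂ[X] (P2 ℂ[X] ⧸ I0) = n
  free1 : Module.Free ℂ[X] (P2 ℂ[X] ⧸ I1)
  finite1 : Module.Finite ℂ[X] (P2 ℂ[X] ⧸ I1)
  rank1 : Module.finrank ℂ[X] (P2 ℂ[X] ⧸ I1) = n
  glue : I0.map (MvPolynomial.map (Polynomial.toLaurent : ℂ[X] →+* LP))
    = I1.map (MvPolynomial.map toLaurentInv)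

/-- the point of `Hilb^n(C^2)` over the point `t ∈ C` resp. `∞` of `P^1` -/
noncomputable def RatCurve.point {n : ℕ} (c : RatCurve n) : Option ℂ → Ideal (P2 ℂ)
  | some t => fibre c.I0 t
  | none => fibre c.I1 0

/-- closed embedding: injective on points and on tangent vectors (`P^1` is proper) -/
def RatCurve.IsClosedEmbedding {n : ℕ} (c : RatCurve n) : Prop :=
  Function.Injective c.point ∧
  (∀ t : ℂ, ∃ f g : P2 ℂ, FirstOrder c.I0 t f g ∧ g ∉ fibre c.I0 t) ∧
  (∃ f g : P2 ℂ, FirstOrder c.I1 0 f g ∧ g ∉ fibre c.I1 0)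

/-- `[I]` and `[J]` are joined by a smooth rational curve in `Hilb^n(C^2)` -/
def Joined (n : ℕ) (I J : Ideal (P2 ℂ)) : Prop :=
  ∃ c : RatCurve n, c.IsClosedEmbedding ∧ (∃ p, c.point p = I) ∧ (∃ q, c.point q = J)

/-- monomial ideals of `C[x,y]` -/
def IsMonomialIdeal (I : Ideal (P2 ℂ)) : Prop :=
  ∃ s : Set (Fin 2 →₀ ℕ), I = Ideal.span ((fun m => MvPolynomial.monomial m (1 : ℂ)) '' s)

/-! ### limits of arcs at `t = 0` -/

/-- `f` lies in the limit at `t = 0` of the family of the arc `a` -/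
def Lim (n : ℕ) (a : LP[X]) (f : P2 ℂ) : Prop :=
  ∃ F ∈ fam n a, ∃ H : P2 ℂ[X], F = emb f + MvPolynomial.C X * H

/-- first order version of `Lim` -/
def LimTan (n : ℕ) (a : LP[X]) (f g : P2 ℂ) : Prop :=
  ∃ F ∈ fam n a, ∃ H : P2 ℂ[X], F = emb f + MvPolynomial.C X * emb g
    + MvPolynomial.C (X ^ 2) * H

/-- the arc `a` tends to the monomial ideal of `S` with nonzero tangent vector -/
def GoodEnd (n : ℕ) (S : Finset (ℕ × ℕ)) (a : LP[X]) : Prop :=
  (∀ p : ℕ × ℕ, p ∉ S → Lim n a (mon ℂ p)) ∧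
  ∃ f g : P2 ℂ, LimTan n a f g ∧ g ∉ mIdeal S

/-- evaluation of Laurent polynomials at `t ≠ 0` -/
noncomputable def lev (t : ℂˣ) : LP →+* ℂ := LaurentPolynomial.eval₂ (RingHom.id ℂ) t

/-- derivative of Laurent polynomials -/
noncomputable def lD (p : LP) : LP :=
  p.coeff.sum fun e c => LaurentPolynomial.C (c * (e : ℂ)) * LaurentPolynomial.T (e - 1)

/-- the unit `T^e` -/
noncomputable def Tu (e : ℤ) : LPˣ :=
  ⟨LaurentPolynomial.T e, LaurentPolynomial.T (-e),
    by rw [← LaurentPolynomial.T_add]; simp,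
    by rw [← LaurentPolynomial.T_add]; simp⟩

/-- substitution `t ↦ t^N` -/
noncomputable def pw (N : ℕ) : LP →+* LP :=
  LaurentPolynomial.eval₂ (LaurentPolynomial.C : ℂ →+* LP) (Tu (N : ℤ))

/-- twisted arc `b(t) = Σ_k t^(β - kα) c_k(t^N) x^k` -/
noncomputable def tw (α β N : ℕ) (c : LP[X]) : LP[X] :=
  ∑ k ∈ Finset.range (c.natDegree + 1),
    Polynomial.monomial k (LaurentPolynomial.T ((β : ℤ) - k * α) * pw N (c.coeff k))

/-- `trdeg ≥ d` -/
def TDge (A : Type*) [CommRing A] [Algebra ℂ A] (d : ℕ) : Prop :=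
  ∃ x : Fin d → A, AlgebraicIndependent ℂ x

/-- `f(X,Y)` for matrices (meaningful when `X`, `Y` commute) -/
noncomputable def mev {A : Type*} [CommRing A] {n : ℕ} (X Y : Matrix (Fin n) (Fin n) A)
    (f : P2 A) : Matrix (Fin n) (Fin n) A :=
  (AddMonoidAlgebra.coeff f).sum fun m c => c • (X ^ (m 0) * Y ^ (m 1))

/-- the `n × n` matrix with columns `X^p Y^q v`, `(p,q) = pq b` -/
noncomputable def Wmat {A : Type*} [CommRing A] {n : ℕ} (X Y : Matrix (Fin n) (Fin n) A)
    (v : Fin n → A) (pq : Fin n → ℕ × ℕ) : Matrix (Fin n) (Fin n) A :=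
  Matrix.of fun a b => ((X ^ (pq b).1 * Y ^ (pq b).2).mulVec v) a

/-- the `n × n` matrix with columns `v, Xv, ..., X^(n-1) v` -/
noncomputable def Kmat {A : Type*} [CommRing A] {n : ℕ} (X : Matrix (Fin n) (Fin n) A)
    (v : Fin n → A) : Matrix (Fin n) (Fin n) A :=
  Matrix.of fun a b => ((X ^ (b : ℕ)).mulVec v) a

/-! ### basic lemmas -/

theorem mon_eq (A : Type*) [CommRing A] (p : ℕ × ℕ) :
    mon A p = MvPolynomial.monomial (ex p) 1 := by
  rw [mon, MvPolynomial.X_pow_eq_monomial, MvPolynomial.X_pow_eq_monomial,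
    MvPolynomial.monomial_mul, mul_one]
  rfl

@[simp] theorem ex_zero (p : ℕ × ℕ) : ex p 0 = p.1 := by simp [ex]
@[simp] theorem ex_one (p : ℕ × ℕ) : ex p 1 = p.2 := by simp [ex]

theorem ex_eq (m : Fin 2 →₀ ℕ) : ex (m 0, m 1) = m := by
  ext i; fin_cases i <;> simp

theorem ex_inj {p q : ℕ × ℕ} (h : ex p = ex q) : p = q := by
  have h0 := DFunLike.congr_fun h 0
  have h1 := DFunLike.congr_fun h 1
  simp at h0 h1
  exact Prod.ext h0 h1

theorem mon_mul (A : Type*) [CommRing A] (p q : ℕ × ℕ) :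
    mon A p * mon A q = mon A (p + q) := by
  simp only [mon, Prod.fst_add, Prod.snd_add, pow_add]; ring

theorem emb_mon (p : ℕ × ℕ) : emb (mon ℂ p) = mon ℂ[X] p := by
  simp [emb, mon]

theorem ev_X0 {A : Type*} [CommRing A] (a : A[X]) : ev a (MvPolynomial.X 0) = Polynomial.X := by
  simp [ev]
theorem ev_X1 {A : Type*} [CommRing A] (a : A[X]) : ev a (MvPolynomial.X 1) = a := by
  simp [ev]
theorem ev_C {A : Type*} [CommRing A] (a : A[X]) (c : A) :
    ev a (MvPolynomial.C c) = Polynomial.C c := by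
  simp [ev, MvPolynomial.aeval_C]
theorem ev_mon {A : Type*} [CommRing A] (a : A[X]) (p : ℕ × ℕ) :
    ev a (mon A p) = Polynomial.X ^ p.1 * a ^ p.2 := by
  simp [mon, ev_X0, ev_X1]

theorem mem_curv {A : Type*} [CommRing A] {n : ℕ} {a : A[X]} {F : P2 A} :
    F ∈ curv n a ↔ (Polynomial.X : A[X]) ^ n ∣ ev a F := by
  rw [curv, Ideal.mem_comap, Ideal.mem_span_singleton]

theorem mem_fam {n : ℕ} {a : LP[X]} {F : P2 ℂ[X]} :
    F ∈ fam n a ↔ (Polynomial.X : LP[X]) ^ n ∣
      ev a (MvPolynomial.map (Polynomial.toLaurent : ℂ[X] →+* LP) F) := by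
  rw [fam, Ideal.mem_comap, mem_curv]

/-- naturality of `ev` -/
theorem ev_map {A B : Type*} [CommRing A] [CommRing B] (φ : A →+* B) (a : A[X]) (F : P2 A) :
    ev (a.map φ) (MvPolynomial.map φ F) = (ev a F).map φ := by
  induction F using MvPolynomial.induction_on with
  | C c => simp [ev_C, MvPolynomial.map_C]
  | add p q hp hq => rw [map_add, map_add, hp, hq, map_add, Polynomial.map_add]
  | mul_X p i hp =>
    rw [map_mul, map_mul, hp, map_mul, Polynomial.map_mul, MvPolynomial.map_X]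
    congr 1
    fin_cases i
    · simp [ev_X0]
    · simp [ev_X1]

theorem lD_add (p q : LP) : lD (p + q) = lD p + lD q := by
  unfold lD
  rw [show (p + q).coeff = p.coeff + q.coeff from rfl]
  rw [Finsupp.sum_add_index']
  · intro e; simp
  · intro e a b; rw [add_mul, map_add, add_mul]

theorem lD_C_mul_T (c : ℂ) (e : ℤ) :
    lD (LaurentPolynomial.C c * LaurentPolynomial.T e)
      = LaurentPolynomial.C (c * e) * LaurentPolynomial.T (e - 1) := by
  rw [← LaurentPolynomial.single_eq_C_mul_T]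
  unfold lD
  rw [show (AddMonoidAlgebra.single e c : LP).coeff = Finsupp.single e c from rfl]
  rw [Finsupp.sum_single_index]
  simp

theorem lev_C_mul_T (t : ℂˣ) (c : ℂ) (e : ℤ) :
    lev t (LaurentPolynomial.C c * LaurentPolynomial.T e) = c * ((t ^ e : ℂˣ) : ℂ) := by
  simp [lev]

theorem tw_coeff (α β N : ℕ) (c : LP[X]) (k : ℕ) :
    (tw α β N c).coeff k = LaurentPolynomial.T ((β : ℤ) - k * α) * pw N (c.coeff k) := by
  unfold tw
  rw [Polynomial.finset_sum_coeff]
  simp only [Polynomial.coeff_monomial]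
  rw [Finset.sum_ite_eq' (Finset.range (c.natDegree + 1)) k]
  split_ifs with h
  · rfl
  · rw [Polynomial.coeff_eq_zero_of_natDegree_lt (by simpa using h), map_zero, mul_zero]

theorem mev_add {A : Type*} [CommRing A] {n : ℕ} (X Y : Matrix (Fin n) (Fin n) A)
    (f g : P2 A) : mev X Y (f + g) = mev X Y f + mev X Y g := by
  unfold mev
  rw [show AddMonoidAlgebra.coeff (f + g)
    = AddMonoidAlgebra.coeff f + AddMonoidAlgebra.coeff g from rfl]
  rw [Finsupp.sum_add_index']
  · intro e; simp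
  · intro e a b; rw [add_smul]

theorem mev_monomial {A : Type*} [CommRing A] {n : ℕ} (X Y : Matrix (Fin n) (Fin n) A)
    (m : Fin 2 →₀ ℕ) (c : A) :
    mev X Y (MvPolynomial.monomial m c) = c • (X ^ (m 0) * Y ^ (m 1)) := by
  unfold mev
  rw [show AddMonoidAlgebra.coeff (MvPolynomial.monomial m c : P2 A) = Finsupp.single m c from rfl]
  rw [Finsupp.sum_single_index]
  simp

theorem mev_zero {A : Type*} [CommRing A] {n : ℕ} (X Y : Matrix (Fin n) (Fin n) A) :
    mev X Y (0 : P2 A) = 0 := by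
  have h := mev_add X Y (0 : P2 A) 0
  rw [add_zero] at h
  simpa using h

/-- `f ↦ f(X,Y)` as an additive map -/
noncomputable def mevAdd {A : Type*} [CommRing A] {n : ℕ} (X Y : Matrix (Fin n) (Fin n) A) :
    P2 A →+ Matrix (Fin n) (Fin n) A where
  toFun := mev X Y
  map_zero' := mev_zero X Y
  map_add' := mev_add X Y

theorem mev_mon {A : Type*} [CommRing A] {n : ℕ} (X Y : Matrix (Fin n) (Fin n) A)
    (p : ℕ × ℕ) : mev X Y (mon A p) = X ^ p.1 * Y ^ p.2 := by
  rw [mon_eq, mev_monomial]; simp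

theorem mev_C {A : Type*} [CommRing A] {n : ℕ} (X Y : Matrix (Fin n) (Fin n) A)
    (c : A) : mev X Y (MvPolynomial.C c) = c • (1 : Matrix (Fin n) (Fin n) A) := by
  rw [MvPolynomial.C_apply, mev_monomial]; simp

theorem mev_mul {A : Type*} [CommRing A] {n : ℕ} (X Y : Matrix (Fin n) (Fin n) A)
    (h : X * Y = Y * X) (f g : P2 A) : mev X Y (f * g) = mev X Y f * mev X Y g := by
  have hc : Commute X Y := h
  induction f using MvPolynomial.induction_on' with
  | monomial u a =>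
    induction g using MvPolynomial.induction_on' with
    | monomial v b =>
      rw [MvPolynomial.monomial_mul, mev_monomial, mev_monomial, mev_monomial]
      simp only [Finsupp.add_apply, pow_add, smul_mul_assoc, mul_smul_comm, smul_smul]
      refine congrArg₂ _ (mul_comm _ _) ?_
      have h1 : X ^ (v 0) * Y ^ (u 1) = Y ^ (u 1) * X ^ (v 0) := (hc.pow_pow _ _).eq
      calc X ^ (u 0) * X ^ (v 0) * (Y ^ (u 1) * Y ^ (v 1))
          = X ^ (u 0) * (X ^ (v 0) * Y ^ (u 1)) * Y ^ (v 1) := by simp only [mul_assoc]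
        _ = _ := by rw [h1]; simp only [mul_assoc]
    | add p q hp hq => rw [mul_add, mev_add, mev_add, hp, hq, mul_add]
  | add p q hp hq => rw [add_mul, mev_add, mev_add, hp, hq, add_mul]

end HR
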