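import Pool.Agent.H59.HR.Stm

set_option linter.all false

open Polynomial

namespace HR

namespace EX_aux

/-- normal form of nonzero Laurent polynomials -/
theorem nf (N : LP) (hN : N ≠ 0) : ∃ (m : ℤ) (q : ℂ[X]), q.coeff 0 ≠ 0 ∧
    N = LaurentPolynomial.T m * Polynomial.toLaurent q := by
  obtain ⟨n, f', hf'⟩ := LaurentPolynomial.exists_T_pow N
  have hf0 : f' ≠ 0 := by
    rintro rfl
    rw [map_zero] at hf'
    have h1 : N * LaurentPolynomial.T n * LaurentPolynomial.T (-(n : ℤ)) = 0 := by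
      rw [← hf', zero_mul]
    rw [LaurentPolynomial.mul_T_assoc] at h1
    simp at h1
    exact hN h1
  obtain ⟨q, hq, hq'⟩ := Polynomial.exists_eq_pow_rootMultiplicity_mul_and_not_dvd f' hf0 0
  rw [map_zero, sub_zero] at hq hq'
  set k := Polynomial.rootMultiplicity 0 f'
  refine ⟨(k : ℤ) - n, q, ?_, ?_⟩
  · rwa [Polynomial.X_dvd_iff] at hq'
  · have h1 : N = Polynomial.toLaurent f' * LaurentPolynomial.T (-(n : ℤ)) := by
      rw [hf', LaurentPolynomial.mul_T_assoc]; simp
    rw [h1, hq, map_mul, Polynomial.toLaurent_X_pow, LaurentPolynomial.T_sub]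
    ring

section val

variable {V : Type} [CommRing V] [IsDomain V] [IsDiscreteValuationRing V] [Algebra ℂ V] {ϖ : V}
variable {K : Type} [Field K] [Algebra V K] [IsFractionRing V K] {τ : LP →+* K}

theorem tau_toLaurent
    (hC : ∀ z : ℂ, τ (LaurentPolynomial.C z) = algebraMap V K (algebraMap ℂ V z))
    (hT : τ (LaurentPolynomial.T 1) = algebraMap V K ϖ) (q : ℂ[X]) :
    τ (Polynomial.toLaurent q) = algebraMap V K (Polynomial.eval₂ (algebraMap ℂ V) ϖ q) := by
  have h : τ.comp (Polynomial.toLaurent : ℂ[X] →+* LP) =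
      (algebraMap V K).comp (Polynomial.eval₂RingHom (algebraMap ℂ V) ϖ) := by
    refine Polynomial.ringHom_ext ?_ ?_
    · intro z
      simp only [RingHom.comp_apply, Polynomial.coe_eval₂RingHom, Polynomial.eval₂_C]
      rw [← hC z, Polynomial.toLaurent_C]
    · simp only [RingHom.comp_apply, Polynomial.coe_eval₂RingHom, Polynomial.eval₂_X]
      rw [← hT, Polynomial.toLaurent_X]
  exact congrArg (fun f : ℂ[X] →+* K => f q) h

theorem unit_eval (hϖ : Irreducible ϖ) (q : ℂ[X]) (hq : q.coeff 0 ≠ 0) :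
    IsUnit (Polynomial.eval₂ (algebraMap ℂ V) ϖ q) := by
  have h1 : Polynomial.eval₂ (algebraMap ℂ V) ϖ q
      = algebraMap ℂ V (q.coeff 0) + ϖ * Polynomial.eval₂ (algebraMap ℂ V) ϖ q.divX := by
    conv_lhs => rw [← Polynomial.X_mul_divX_add q]
    rw [Polynomial.eval₂_add, Polynomial.eval₂_mul, Polynomial.eval₂_X, Polynomial.eval₂_C,
      add_comm]
  by_contra hnu
  have h2 : Polynomial.eval₂ (algebraMap ℂ V) ϖ q ∈ IsLocalRing.maximalIdeal V := hnu
  have h3 : ϖ * Polynomial.eval₂ (algebraMap ℂ V) ϖ q.divX ∈ IsLocalRing.maximalIdeal V := by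
    rw [hϖ.maximalIdeal_eq]; exact Ideal.mul_mem_right _ _ (Ideal.mem_span_singleton_self ϖ)
  have h4 : algebraMap ℂ V (q.coeff 0) ∈ IsLocalRing.maximalIdeal V := by
    have := Ideal.sub_mem _ h2 h3
    rwa [h1, add_sub_cancel_right] at this
  have h5 : IsUnit (algebraMap ℂ V (q.coeff 0)) := (isUnit_iff_ne_zero.2 hq).map _
  exact h4 h5

/-- order comparison -/
theorem order_cmp (hϖ : Irreducible ϖ)
    (hC : ∀ z : ℂ, τ (LaurentPolynomial.C z) = algebraMap V K (algebraMap ℂ V z))
    (hT : τ (LaurentPolynomial.T 1) = algebraMap V K ϖ) (N : LP) (e : ℤ) (D' : ℂ[X])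
    (hD' : D'.coeff 0 ≠ 0) (w : V) (hw : w ∈ IsLocalRing.maximalIdeal V)
    (h : τ (LaurentPolynomial.T e * Polynomial.toLaurent D') * algebraMap V K w = τ N) :
    ∃ N' : ℂ[X], N = LaurentPolynomial.T e * Polynomial.toLaurent (Polynomial.X * N') := by
  by_cases hN : N = 0
  · exact ⟨0, by simp [hN]⟩
  obtain ⟨m, q, hq, rfl⟩ := nf N hN
  have hme : e + 1 ≤ m := by
    by_contra hlt
    push Not at hlt
    obtain ⟨j, hj⟩ : ∃ j : ℕ, e = m + j := ⟨(e - m).toNat, by omega⟩
    have h1 : τ (LaurentPolynomial.T m) ≠ 0 := by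
      intro h0
      have : τ (LaurentPolynomial.T m * LaurentPolynomial.T (-m)) = 0 := by
        rw [map_mul, h0, zero_mul]
      rw [← LaurentPolynomial.T_add] at this
      simp at this
    have hTj : τ (LaurentPolynomial.T (j : ℤ)) = algebraMap V K (ϖ ^ j) := by
      have : (LaurentPolynomial.T (j : ℤ) : LP) = (LaurentPolynomial.T 1) ^ j := by
        rw [LaurentPolynomial.T_pow]; simp
      rw [this, map_pow, hT, map_pow]
    rw [hj, LaurentPolynomial.T_add, mul_assoc, map_mul, map_mul, map_mul, mul_assoc] at h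
    have h2 := mul_left_cancel₀ h1 h
    rw [hTj, tau_toLaurent hC hT, tau_toLaurent hC hT, ← map_mul, ← map_mul] at h2
    have h3 := IsFractionRing.injective V K h2
    have hu := unit_eval (V := V) hϖ q hq
    rw [← h3] at hu
    exact (Ideal.mul_mem_left _ _ hw) hu
  obtain ⟨j, hj⟩ : ∃ j : ℕ, m = e + (j + 1 : ℕ) := ⟨(m - e - 1).toNat, by omega⟩
  refine ⟨X ^ j * q, ?_⟩
  rw [hj, LaurentPolynomial.T_add, ← mul_assoc, ← pow_succ', map_mul, Polynomial.toLaurent_X_pow,
    mul_assoc]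

end val

section mat

theorem pow_card {K : Type} [Field K] {n : ℕ} (X : Matrix (Fin n) (Fin n) K)
    (hX : IsNilpotent X) : X ^ n = 0 := by
  have h1 := Matrix.isNilpotent_charpoly_sub_pow_of_isNilpotent hX
  have h2 : X.charpoly = Polynomial.X ^ Fintype.card (Fin n) := sub_eq_zero.1 h1.eq_zero
  have h3 := Matrix.aeval_self_charpoly X
  rw [h2] at h3
  simpa using h3

variable {K : Type} [Field K] {n : ℕ}

/-- `g ↦ g(X_K)` -/
noncomputable def Phi (τ : LP →+* K) (X : Matrix (Fin n) (Fin n) K) (g : LP[X]) :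
    Matrix (Fin n) (Fin n) K := Polynomial.aeval X (g.map τ)

theorem Phi_add (τ : LP →+* K) (X : Matrix (Fin n) (Fin n) K) (g h : LP[X]) :
    Phi τ X (g + h) = Phi τ X g + Phi τ X h := by
  simp [Phi]

theorem Phi_mul (τ : LP →+* K) (X : Matrix (Fin n) (Fin n) K) (g h : LP[X]) :
    Phi τ X (g * h) = Phi τ X g * Phi τ X h := by
  simp [Phi]

theorem Phi_pow (τ : LP →+* K) (X : Matrix (Fin n) (Fin n) K) (g : LP[X]) (k : ℕ) :
    Phi τ X (g ^ k) = Phi τ X g ^ k := by
  simp [Phi]

theorem Phi_X (τ : LP →+* K) (X : Matrix (Fin n) (Fin n) K) :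
    Phi τ X (Polynomial.X : LP[X]) = X := by
  simp [Phi]

theorem Phi_C (τ : LP →+* K) (X : Matrix (Fin n) (Fin n) K) (z : LP) :
    Phi τ X (Polynomial.C z) = τ z • (1 : Matrix (Fin n) (Fin n) K) := by
  simp [Phi, Algebra.algebraMap_eq_smul_one]

theorem Phi_eq_sum (τ : LP →+* K) (X : Matrix (Fin n) (Fin n) K) (g : LP[X]) (hX : X ^ n = 0) :
    Phi τ X g = ∑ k ∈ Finset.range n, τ (g.coeff k) • X ^ k := by
  have h1 : Phi τ X g = ∑ k ∈ Finset.range (n + (g.map τ).natDegree + 1),
      τ (g.coeff k) • X ^ k := by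
    rw [Phi, Polynomial.aeval_eq_sum_range' (n := n + (g.map τ).natDegree + 1) (by omega)]
    refine Finset.sum_congr rfl fun k _ => ?_
    rw [Polynomial.coeff_map]
  rw [h1]
  symm
  refine Finset.sum_subset (fun k hk => ?_) fun k _ hk => ?_
  · simp only [Finset.mem_range] at hk ⊢; omega
  · rw [Finset.mem_range, not_lt] at hk
    rw [pow_eq_zero_of_le hk hX, smul_zero]

theorem Phi_mulVec (τ : LP →+* K) (X : Matrix (Fin n) (Fin n) K) (g : LP[X]) (hX : X ^ n = 0)
    (v : Fin n → K) :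
    (Phi τ X g).mulVec v = (Kmat X v).mulVec (fun k => τ (g.coeff (k : ℕ))) := by
  rw [Phi_eq_sum τ X g hX, Finset.sum_range]
  ext i
  simp only [Matrix.mulVec, dotProduct, Matrix.sum_apply, Matrix.smul_apply, smul_eq_mul,
    Kmat, Matrix.of_apply]
  rw [Finset.sum_congr rfl fun x _ => Finset.sum_mul _ _ _, Finset.sum_comm]
  refine Finset.sum_congr rfl fun k _ => ?_
  rw [Finset.sum_mul]
  refine Finset.sum_congr rfl fun x _ => ?_
  ring

theorem mev_map {A B : Type} [CommRing A] [CommRing B] (g : A →+* B)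
    (X Y : Matrix (Fin n) (Fin n) A) (f : P2 A) :
    (mev X Y f).map g = mev (X.map g) (Y.map g) (MvPolynomial.map g f) := by
  have hmp : ∀ (Z : Matrix (Fin n) (Fin n) A) (k : ℕ), (Z ^ k).map g = (Z.map g) ^ k := by
    intro Z k
    have := map_pow (g.mapMatrix (m := Fin n)) Z k
    simpa using this
  induction f using MvPolynomial.induction_on' with
  | monomial u a =>
    rw [mev_monomial, MvPolynomial.map_monomial, mev_monomial, ← hmp, ← hmp, ← Matrix.map_mul]
    ext i j
    simp only [Matrix.map_apply, Matrix.smul_apply, smul_eq_mul, map_mul]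
  | add p q hp hq =>
    rw [mev_add, map_add, mev_add, ← hp, ← hq]
    ext i j
    simp

theorem Phi_ev (τ : LP →+* K) (X Y : Matrix (Fin n) (Fin n) K) (c : LP[X])
    (hc : Phi τ X c = Y) (f : P2 ℂ) :
    Phi τ X (ev c (MvPolynomial.map LaurentPolynomial.C f)) =
      mev X Y (MvPolynomial.map (τ.comp LaurentPolynomial.C) f) := by
  induction f using MvPolynomial.induction_on' with
  | monomial u a =>
    have h1 : (MvPolynomial.monomial u a : P2 ℂ) = MvPolynomial.C a * mon ℂ (u 0, u 1) := by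
      rw [mon_eq, ex_eq, MvPolynomial.C_mul_monomial, mul_one]
    have h2 : MvPolynomial.map LaurentPolynomial.C (mon ℂ (u 0, u 1)) = mon LP (u 0, u 1) := by
      simp [mon]
    rw [MvPolynomial.map_monomial (τ.comp LaurentPolynomial.C), mev_monomial, h1, map_mul, map_mul,
      MvPolynomial.map_C, ev_C, h2, ev_mon, Phi_mul, Phi_mul, Phi_pow, Phi_pow, Phi_C, Phi_X, hc]
    simp
  | add p q hp hq =>
    rw [map_add, map_add, Phi_add, hp, hq, map_add, mev_add]

end mat

end EX_aux

open EX_aux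

theorem EX : S_EX := by
  classical
  intro V _ _ _ _ ϖ K _ _ _ τ hϖ hC hT n hn X Y v X₀ Y₀ v₀ pq c hXY hX hdet hX0 hY0 hv0 hW0
    hcdeg hYc f hf
  have hinj : Function.Injective (algebraMap V K) := IsFractionRing.injective V K
  let φ := algebraMap V K
  let ι : ℂ →+* V := algebraMap ℂ V
  let 𝔪 := IsLocalRing.maximalIdeal V
  let π : V →+* V ⧸ 𝔪 := Ideal.Quotient.mk 𝔪
  have hπ : ∀ a b : V, a - b ∈ 𝔪 → π a = π b := fun a b h => Ideal.Quotient.eq.2 h
  let XK := X.map φ
  let YK := Y.map φ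
  let vK : Fin n → K := fun i => φ (v i)
  -- functoriality of matrix constructions
  have hmp : ∀ {A B : Type} [CommRing A] [CommRing B] (g : A →+* B)
      (Z : Matrix (Fin n) (Fin n) A) (k : ℕ), (Z ^ k).map g = (Z.map g) ^ k := by
    intro A B _ _ g Z k
    have := map_pow (g.mapMatrix (m := Fin n)) Z k
    simpa using this
  have hmm : ∀ {A B : Type} [CommRing A] [CommRing B] (g : A →+* B)
      (Z : Matrix (Fin n) (Fin n) A) (u : Fin n → A) (a : Fin n),
      g (Z.mulVec u a) = (Z.map g).mulVec (fun i => g (u i)) a := by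
    intro A B _ _ g Z u a
    simp [Matrix.mulVec, dotProduct, map_sum]
  have hWm : ∀ {A B : Type} [CommRing A] [CommRing B] (g : A →+* B)
      (Z Z' : Matrix (Fin n) (Fin n) A) (u : Fin n → A),
      (Wmat Z Z' u pq).map g = Wmat (Z.map g) (Z'.map g) (fun i => g (u i)) pq := by
    intro A B _ _ g Z Z' u
    ext a b
    simp only [Wmat, Matrix.map_apply, Matrix.of_apply]
    rw [hmm, Matrix.map_mul, hmp, hmp]
  have hdm : ∀ {A B : Type} [CommRing A] [CommRing B] (g : A →+* B)
      (Z : Matrix (Fin n) (Fin n) A), (Z.map g).det = g Z.det := by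
    intro A B _ _ g Z
    have := RingHom.map_det g Z
    simpa using this.symm
  have hnilK : IsNilpotent XK := by
    have := hX.map (φ.mapMatrix (m := Fin n))
    simpa using this
  have hXn : XK ^ n = 0 := pow_card XK hnilK
  have hYcomm : XK * YK = YK * XK := by
    change X.map φ * Y.map φ = Y.map φ * X.map φ
    rw [← Matrix.map_mul, ← Matrix.map_mul, hXY]
  -- determinant of `K`
  have hKdet : (Kmat XK vK).det ≠ 0 := by
    have h1 : Kmat XK vK = (Kmat X v).map φ := by
      ext a b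
      simp only [Kmat, Matrix.of_apply, Matrix.map_apply]
      rw [hmm, hmp]
    rw [h1, hdm]
    exact fun h => hdet (hinj (by rw [map_zero]; exact h))
  have hKunit : IsUnit (Kmat XK vK) :=
    (Matrix.isUnit_iff_isUnit_det _).2 (isUnit_iff_ne_zero.2 hKdet)
  have hKinj : Function.Injective (Kmat XK vK).mulVec := Matrix.mulVec_injective_iff_isUnit.2 hKunit
  -- `det W` is a unit
  have hX1 : X.map π = (X₀.map ι).map π := by
    ext i j; exact hπ _ _ (hX0 i j)
  have hY1 : Y.map π = (Y₀.map ι).map π := by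
    ext i j; exact hπ _ _ (hY0 i j)
  have hv1 : (fun i => π (v i)) = fun i => π (ι (v₀ i)) := by
    ext i; exact hπ _ _ (hv0 i)
  have hWunit : IsUnit (Wmat X Y v pq).det := by
    by_contra hnu
    have h1 : π (Wmat X Y v pq).det = 0 := Ideal.Quotient.eq_zero_iff_mem.2 hnu
    rw [← hdm, hWm, hX1, hY1, hv1, ← hWm, ← hWm, hdm, hdm] at h1
    have h2 : IsUnit (ι (Wmat X₀ Y₀ v₀ pq).det) := (isUnit_iff_ne_zero.2 hW0).map _
    have h3 : ι (Wmat X₀ Y₀ v₀ pq).det ∈ 𝔪 := Ideal.Quotient.eq_zero_iff_mem.1 h1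
    exact h3 h2
  -- the vector `f(X,Y) v`
  let fV : P2 V := MvPolynomial.map ι f
  let fv : Fin n → V := (mev X Y fV).mulVec v
  have hfv : ∀ a, fv a ∈ 𝔪 := by
    intro a
    refine Ideal.Quotient.eq_zero_iff_mem.1 ?_
    change π (fv a) = 0
    have h0 : (mev X₀ Y₀ f).mulVec v₀ a = 0 := by rw [hf]; rfl
    have h1 : π (fv a) = π (ι ((mev X₀ Y₀ f).mulVec v₀ a)) := by
      rw [hmm π, hmm ι, hmm π, mev_map, mev_map, mev_map, hX1, hY1]
      congr 1
    rw [h1, h0, map_zero, map_zero]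
  let W := Wmat X Y v pq
  let w : Fin n → V := (W⁻¹).mulVec fv
  have hWw : W.mulVec w = fv := by
    change W.mulVec ((W⁻¹).mulVec fv) = fv
    rw [Matrix.mulVec_mulVec, Matrix.mul_nonsing_inv _ hWunit, Matrix.one_mulVec]
  have hw : ∀ b, w b ∈ 𝔪 := by
    intro b
    change ∑ j, W⁻¹ b j * fv j ∈ 𝔪
    exact Ideal.sum_mem _ fun j _ => Ideal.mul_mem_left _ _ (hfv j)
  -- the linear system over Laurent polynomials
  let Ef : LP[X] := ev c (MvPolynomial.map LaurentPolynomial.C f)
  let M : Matrix (Fin n) (Fin n) LP :=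
    Matrix.of fun k b => ((Polynomial.X : LP[X]) ^ (pq b).1 * c ^ (pq b).2).coeff (k : ℕ)
  let fc : Fin n → LP := fun k => Ef.coeff (k : ℕ)
  have hPc : Phi τ XK c = YK := by
    rw [Phi_eq_sum τ XK c hXn]
    exact hYc.symm
  have hWK : Wmat XK YK vK pq = Kmat XK vK * M.map τ := by
    ext a b
    have h1 : XK ^ (pq b).1 * YK ^ (pq b).2
        = Phi τ XK ((Polynomial.X : LP[X]) ^ (pq b).1 * c ^ (pq b).2) := by
      rw [Phi_mul, Phi_pow, Phi_pow, Phi_X, hPc]
    simp only [Wmat, Matrix.of_apply]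
    rw [h1, Phi_mulVec τ XK _ hXn]
    simp [Matrix.mulVec, dotProduct, Matrix.mul_apply, M]
  have hWK' : Wmat XK YK vK pq = W.map φ := (hWm φ X Y v).symm
  have hsys : (M.map τ).mulVec (fun b => φ (w b)) = fun k => τ (fc k) := by
    apply hKinj
    rw [Matrix.mulVec_mulVec, ← hWK, hWK']
    have h1 : (W.map φ).mulVec (fun b => φ (w b)) = fun a => φ (fv a) := by
      ext a
      rw [← hmm, hWw]
    have h2 : (fun a => φ (fv a)) = (Phi τ XK Ef).mulVec vK := by
      have h3 : Phi τ XK Ef = (mev X Y fV).map φ := by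
        change Phi τ XK (ev c (MvPolynomial.map LaurentPolynomial.C f)) = _
        rw [Phi_ev τ XK YK c hPc f, mev_map, MvPolynomial.map_map]
        have h4 : τ.comp LaurentPolynomial.C = φ.comp ι := RingHom.ext hC
        rw [h4]
      rw [h3]
      ext a
      rw [← hmm]
    rw [h1, h2, Phi_mulVec τ XK Ef hXn]
  let D : LP := M.det
  let N : Fin n → LP := M.adjugate.mulVec fc
  have hDN : ∀ b, τ D * φ (w b) = τ (N b) := by
    intro b
    have h1 : (M.map τ).adjugate.mulVec ((M.map τ).mulVec (fun b => φ (w b))) b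
        = (M.map τ).adjugate.mulVec (fun k => τ (fc k)) b := by rw [hsys]
    rw [Matrix.mulVec_mulVec, Matrix.adjugate_mul, Matrix.smul_mulVec, Matrix.one_mulVec,
      hdm] at h1
    have h2 : (M.map τ).adjugate = (M.adjugate).map τ := by
      have := RingHom.map_adjugate τ M
      simpa using this.symm
    rw [h2, ← hmm] at h1
    exact h1
  have hD0 : D ≠ 0 := by
    intro hD
    have h1 : (Wmat XK YK vK pq).det = 0 := by
      rw [hWK, Matrix.det_mul, hdm]
      change _ * τ D = 0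
      rw [hD, map_zero, mul_zero]
    rw [hWK', hdm] at h1
    have h2 : W.det = 0 := hinj (by rw [map_zero]; exact h1)
    exact hWunit.ne_zero h2
  obtain ⟨e, D', hD'0, hD'⟩ := nf D hD0
  have hN' : ∀ b, ∃ N' : ℂ[X], N b = LaurentPolynomial.T e * Polynomial.toLaurent (Polynomial.X * N') := by
    intro b
    refine order_cmp (V := V) (τ := τ) hϖ hC hT (N b) e D' hD'0 (w b) (hw b) ?_
    rw [← hD']
    exact hDN b
  choose N' hN'' using hN'
  have hmain : ∀ k : Fin n, ∑ b, M k b * N b = D * fc k := by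
    intro k
    have h1 : M.mulVec (M.adjugate.mulVec fc) k = D * fc k := by
      rw [Matrix.mulVec_mulVec, Matrix.mul_adjugate, Matrix.smul_mulVec, Matrix.one_mulVec]
      rfl
    exact h1
  let d0 := D'.coeff 0
  refine ⟨MvPolynomial.C (Polynomial.C d0⁻¹ * D') * emb f
      - ∑ b, MvPolynomial.C (Polynomial.C d0⁻¹ * (Polynomial.X * N' b)) * mon ℂ[X] (pq b), ?_,
    MvPolynomial.C (Polynomial.C d0⁻¹ * D'.divX) * emb f
      - ∑ b, MvPolynomial.C (Polynomial.C d0⁻¹ * N' b) * mon ℂ[X] (pq b), ?_⟩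
  · rw [mem_fam, Polynomial.X_pow_dvd_iff]
    intro k hk
    have hcoef : (ev c (MvPolynomial.map (Polynomial.toLaurent : ℂ[X] →+* LP)
        (MvPolynomial.C (Polynomial.C d0⁻¹ * D') * emb f
      - ∑ b, MvPolynomial.C (Polynomial.C d0⁻¹ * (Polynomial.X * N' b)) * mon ℂ[X] (pq b)))).coeff k
      = LaurentPolynomial.C d0⁻¹ * (Polynomial.toLaurent D' * fc ⟨k, hk⟩
        - ∑ b, Polynomial.toLaurent (Polynomial.X * N' b) * M ⟨k, hk⟩ b) := by
      have h1 : MvPolynomial.map (Polynomial.toLaurent : ℂ[X] →+* LP) (emb f)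
          = MvPolynomial.map LaurentPolynomial.C f := by
        rw [emb, MvPolynomial.map_map]
        have h5 : (Polynomial.toLaurent : ℂ[X] →+* LP).comp Polynomial.C = LaurentPolynomial.C :=
          RingHom.ext fun z => Polynomial.toLaurent_C z
        rw [h5]
      have h2 : ∀ b, MvPolynomial.map (Polynomial.toLaurent : ℂ[X] →+* LP) (mon ℂ[X] (pq b))
          = mon LP (pq b) := by
        intro b; simp [mon]
      rw [map_sub, map_mul, h1, MvPolynomial.map_C, map_sum, map_sub, map_mul, ev_C, map_sum,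
        Polynomial.coeff_sub, Polynomial.coeff_C_mul, Polynomial.finset_sum_coeff, mul_sub,
        Finset.mul_sum]
      congr 1
      · rw [map_mul, Polynomial.toLaurent_C, mul_assoc]
      · refine Finset.sum_congr rfl fun b _ => ?_
        rw [map_mul, h2, MvPolynomial.map_C, map_mul, ev_C, ev_mon, Polynomial.coeff_C_mul,
          map_mul, Polynomial.toLaurent_C, mul_assoc]
        rfl
    rw [hcoef]
    have h3 : LaurentPolynomial.T e * (Polynomial.toLaurent D' * fc ⟨k, hk⟩
        - ∑ b, Polynomial.toLaurent (Polynomial.X * N' b) * M ⟨k, hk⟩ b) = 0 := by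
      rw [mul_sub, ← mul_assoc, ← hD', ← hmain ⟨k, hk⟩, Finset.mul_sum, sub_eq_zero]
      refine Finset.sum_congr rfl fun b _ => ?_
      rw [hN'' b]; ring
    have h4 : (Polynomial.toLaurent D' * fc ⟨k, hk⟩
        - ∑ b, Polynomial.toLaurent (Polynomial.X * N' b) * M ⟨k, hk⟩ b) = 0 := by
      have h5 := congrArg (fun z => LaurentPolynomial.T (-e) * z) h3
      simp only [← mul_assoc, ← LaurentPolynomial.T_add, mul_zero] at h5
      simpa using h5
    rw [h4, mul_zero]
  · have h1 : Polynomial.C d0⁻¹ * D' = 1 + Polynomial.X * (Polynomial.C d0⁻¹ * D'.divX) := by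
      conv_lhs => rw [← Polynomial.X_mul_divX_add D']
      rw [mul_add, ← Polynomial.C_mul, inv_mul_cancel₀ hD'0, Polynomial.C_1]
      ring
    have h2 : ∑ b, MvPolynomial.C (Polynomial.C d0⁻¹ * (Polynomial.X * N' b)) * mon ℂ[X] (pq b)
        = MvPolynomial.C Polynomial.X * ∑ b, MvPolynomial.C (Polynomial.C d0⁻¹ * N' b) * mon ℂ[X] (pq b) := by
      rw [Finset.mul_sum]
      refine Finset.sum_congr rfl fun b _ => ?_
      rw [show Polynomial.C d0⁻¹ * (Polynomial.X * N' b) = Polynomial.X * (Polynomial.C d0⁻¹ * N' b) by ring,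
        MvPolynomial.C_mul, mul_assoc]
    rw [h1, h2, MvPolynomial.C_add, MvPolynomial.C_mul, MvPolynomial.C_1]
    ring

end HR
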