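import Pool.Agent.H59.HR.Stm

set_option linter.all false

open Polynomial

namespace HR
namespace FI_aux

theorem joined_symm {n : ℕ} {I J : Ideal (P2 ℂ)} (h : Joined n I J) : Joined n J I := by
  obtain ⟨c, hc, hp, hq⟩ := h
  exact ⟨c, hc, hq, hp⟩

theorem swap_lower {S : Finset (ℕ × ℕ)} (h : IsLowerSet (S : Set (ℕ × ℕ))) :
    IsLowerSet ((S.image Prod.swap : Finset (ℕ × ℕ)) : Set (ℕ × ℕ)) := by
  intro a b hab ha
  rw [Finset.mem_coe, Finset.mem_image] at ha ⊢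
  obtain ⟨a', ha', rfl⟩ := ha
  refine ⟨b.swap, ?_, by simp⟩
  refine Finset.mem_coe.1 (h (a := a') ?_ (Finset.mem_coe.2 ha'))
  exact ⟨hab.2, hab.1⟩

theorem swap_card (S : Finset (ℕ × ℕ)) : (S.image Prod.swap).card = S.card :=
  Finset.card_image_of_injective _ Prod.swap_injective

theorem mem_swap (S : Finset (ℕ × ℕ)) (p : ℕ × ℕ) : p ∈ S.image Prod.swap ↔ p.swap ∈ S := by
  rw [Finset.mem_image]
  constructor
  · rintro ⟨q, hq, rfl⟩; simpa using hq
  · intro h; exact ⟨p.swap, h, by simp⟩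

end FI_aux

open FI_aux

theorem FI (hMA : S_MA) (hOB : S_OB) (hRC : S_RC) (hSW : S_SW) (hMO : S_MO) (hCA : S_CA) :
    S_FI := by
  intro n hn I J hI hJ hIn hJn hne
  obtain ⟨S0, hS0, hc0, rfl⟩ := hMO n I hn hI hIn
  obtain ⟨S1, hS1, hc1, rfl⟩ := hMO n J hn hJ hJn
  have hS : S0 ≠ S1 := fun h => hne (by rw [h])
  rcases hCA n S0 S1 hS0 hS1 hc0 hc1 hS with h | ⟨h2, ha, hb⟩ | ⟨h2, ha, hb⟩ |
    ⟨h4, ha, hb, h | h⟩ | ⟨h4, ha, hb, h | h⟩
  · exact hOB n S0 S1 hS0 hS1 hc0 hc1 h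
  · exact hRC n h2 S0 S1 hS0 hS1 hc0 hc1 ha hb
  · exact joined_symm (hRC n h2 S1 S0 hS1 hS0 hc1 hc0 ha hb)
  · exact joined_symm (hMA n h4 S1 S0 hS1 hS0 hc1 hc0 hS.symm hb ha h)
  · exact hMA n h4 S0 S1 hS0 hS1 hc0 hc1 hS ha hb h
  · apply hSW
    apply joined_symm
    refine hMA n h4 _ _ (swap_lower hS1) (swap_lower hS0) (by rw [swap_card, hc1])
      (by rw [swap_card, hc0]) ?_ ?_ ?_ ?_
    · intro h'; exact hS (Finset.image_injective Prod.swap_injective h'.symm)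
    · rw [mem_swap]; exact hb
    · rw [mem_swap]; exact ha
    · rw [mem_swap]; exact h
  · apply hSW
    refine hMA n h4 _ _ (swap_lower hS0) (swap_lower hS1) (by rw [swap_card, hc0])
      (by rw [swap_card, hc1]) ?_ ?_ ?_ ?_
    · intro h'; exact hS (Finset.image_injective Prod.swap_injective h')
    · rw [mem_swap]; exact ha
    · rw [mem_swap]; exact hb
    · rw [mem_swap]; exact h

end HR
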