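import Pool.Agent.H59.HR.Stm

set_option linter.all false

open Polynomial

namespace HR

namespace GEN_aux

/-- exchange: `k` algebraically independent elements algebraic over `m` elements -/
theorem key {F : Type} [Field F] [Algebra F ℂ] {m k : ℕ} (x : Fin k → ℂ)
    (hx : AlgebraicIndependent F x) (y : Fin m → ℂ)
    (h : ∀ i, IsAlgebraic (Algebra.adjoin F (Set.range y)) (x i)) : k ≤ m := by
  classical
  have hinj : Function.Injective x := hx.injective
  have hI : (AlgebraicIndependent.matroid F ℂ).Indep (Set.range x) := by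
    rw [AlgebraicIndependent.matroid_indep_iff]
    exact hx.coe_range
  have hsub : Set.range x ⊆ (AlgebraicIndependent.matroid F ℂ).closure (Set.range y) := by
    rw [AlgebraicIndependent.matroid_closure_eq]
    rintro _ ⟨i, rfl⟩
    exact h i
  have h1 := hI.encard_le_eRk_of_subset hsub
  rw [Matroid.eRk_closure_eq] at h1
  have h2 := (AlgebraicIndependent.matroid F ℂ).eRk_le_encard (Set.range y)
  have h3 := h1.trans h2
  have h4 : (Set.range x).encard = k := by
    rw [← Set.image_univ, hinj.injOn.encard_image]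
    simp
  have h5 : (Set.range y).encard ≤ m := by
    rw [← Set.image_univ]
    refine (Set.encard_image_le _ _).trans ?_
    simp
  rw [h4] at h3
  exact_mod_cast h3.trans h5

theorem alg_mem {F : Type} [Field F] [Algebra F ℂ] {m : ℕ} (y : Fin m → ℂ) (i : Fin m) :
    IsAlgebraic (Algebra.adjoin F (Set.range y)) (y i) :=
  isAlgebraic_algebraMap (⟨y i, Algebra.subset_adjoin ⟨i, rfl⟩⟩ : Algebra.adjoin F (Set.range y))

theorem alg_base {F : Type} [Field F] [Algebra F ℂ] {m : ℕ} (y : Fin m → ℂ) (c : F) :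
    IsAlgebraic (Algebra.adjoin F (Set.range y)) (algebraMap F ℂ c) :=
  isAlgebraic_algebraMap (algebraMap F (Algebra.adjoin F (Set.range y)) c)

theorem lev_eq (t : ℂˣ) (g : LP) :
    lev t g = g.coeff.sum fun e c => c * ((t ^ e : ℂˣ) : ℂ) := by
  conv_lhs => rw [← AddMonoidAlgebra.sum_coeff_single g]
  rw [map_finsuppSum]
  refine Finsupp.sum_congr fun e _ => ?_
  rw [LaurentPolynomial.single_eq_C_mul_T, lev_C_mul_T]

theorem lev_lD_eq (t : ℂˣ) (g : LP) :
    lev t (lD g) = g.coeff.sum fun e c => c * (e : ℂ) * ((t ^ (e - 1) : ℂˣ) : ℂ) := by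
  unfold lD
  rw [map_finsuppSum]
  refine Finsupp.sum_congr fun e _ => ?_
  rw [lev_C_mul_T]

theorem alg_zpow {F : Type} [Field F] [Algebra F ℂ] {m : ℕ} (y : Fin m → ℂ) (t : ℂˣ)
    (ht : IsAlgebraic (Algebra.adjoin F (Set.range y)) (t : ℂ)) (e : ℤ) :
    IsAlgebraic (Algebra.adjoin F (Set.range y)) ((t ^ e : ℂˣ) : ℂ) := by
  rw [Units.val_zpow_eq_zpow_val]
  obtain ⟨n, rfl | rfl⟩ := e.eq_nat_or_neg
  · rw [zpow_natCast]; exact ht.pow n
  · rw [zpow_neg, zpow_natCast]; exact (ht.pow n).inv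

theorem alg_sum {F : Type} [Field F] [Algebra F ℂ] {m : ℕ} (y : Fin m → ℂ) {ι : Type*}
    (s : Finset ι) (f : ι → ℂ)
    (h : ∀ i ∈ s, IsAlgebraic (Algebra.adjoin F (Set.range y)) (f i)) :
    IsAlgebraic (Algebra.adjoin F (Set.range y)) (∑ i ∈ s, f i) := by
  classical
  induction s using Finset.induction_on with
  | empty => simpa using isAlgebraic_zero
  | insert a s ha ih =>
    rw [Finset.sum_insert ha]
    exact (h a (Finset.mem_insert_self a s)).add
      (ih fun i hi => h i (Finset.mem_insert_of_mem hi))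

/-- values of Laurent polynomials with coefficients in `F` -/
theorem alg_lev (F : Subfield ℂ) {m : ℕ} (y : Fin m → ℂ) (t : ℂˣ)
    (ht : IsAlgebraic (Algebra.adjoin F (Set.range y)) (t : ℂ)) (g : LP)
    (hg : ∀ e, g.coeff e ∈ F) :
    IsAlgebraic (Algebra.adjoin F (Set.range y)) (lev t g) := by
  rw [lev_eq]
  refine alg_sum y _ _ fun e _ => ?_
  refine IsAlgebraic.mul ?_ (alg_zpow y t ht e)
  exact alg_base y (⟨_, hg e⟩ : F)

theorem alg_lev_lD (F : Subfield ℂ) {m : ℕ} (y : Fin m → ℂ) (t : ℂˣ)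
    (ht : IsAlgebraic (Algebra.adjoin F (Set.range y)) (t : ℂ)) (g : LP)
    (hg : ∀ e, g.coeff e ∈ F) :
    IsAlgebraic (Algebra.adjoin F (Set.range y)) (lev t (lD g)) := by
  rw [lev_lD_eq]
  refine alg_sum y _ _ fun e _ => ?_
  refine IsAlgebraic.mul (IsAlgebraic.mul ?_ ?_) (alg_zpow y t ht _)
  · exact alg_base y (⟨_, hg e⟩ : F)
  · have := alg_base y (F := F) (e : F)
    simpa using this

/-- a solution of a linear equation -/
theorem solve {F : Type} [Field F] [Algebra F ℂ] {m : ℕ} (y : Fin m → ℂ) {A B G r r' : ℂ}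
    (hA : IsAlgebraic (Algebra.adjoin F (Set.range y)) A)
    (hB : IsAlgebraic (Algebra.adjoin F (Set.range y)) B)
    (hG : IsAlgebraic (Algebra.adjoin F (Set.range y)) G)
    (hr' : IsAlgebraic (Algebra.adjoin F (Set.range y)) r') (h0 : A ≠ 0)
    (h : r * A + r' * B = G) : IsAlgebraic (Algebra.adjoin F (Set.range y)) r := by
  have : r = (G - r' * B) * A⁻¹ := by
    field_simp
    rw [← h]; ring
  rw [this]
  exact ((hG.sub (hr'.mul hB))).mul hA.inv

end GEN_aux

open GEN_aux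

theorem GEN : S_GEN := by
  classical
  intro g
  -- a countable field of coefficients
  let Sc : Set ℂ := ⋃ k, (g k).coeff '' ((g k).coeff.support : Set ℤ)
  have hSc : Sc.Finite := Set.finite_iUnion fun k => (Finset.finite_toSet _).image _
  let F : Subfield ℂ := Subfield.closure Sc
  have hF : ∀ k e, (g k).coeff e ∈ F := by
    intro k e
    by_cases he : (g k).coeff e = 0
    · rw [he]; exact F.zero_mem
    · refine Subfield.subset_closure ?_
      exact Set.mem_iUnion.2 ⟨k, e, by simpa using he, rfl⟩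
  have hcard : Cardinal.mk F ≤ Cardinal.aleph0 := by
    refine (Subfield.cardinalMk_closure_le_max Sc).trans ?_
    refine max_le ?_ le_rfl
    exact (Set.Finite.lt_aleph0 hSc).le
  obtain ⟨s, hs⟩ := exists_isTranscendenceBasis F ℂ
  have hlt : Cardinal.aleph0 < Cardinal.mk ℂ := by
    rw [Cardinal.mk_complex]; exact Cardinal.aleph0_lt_continuum
  have hmk := IsAlgClosed.cardinal_eq_cardinal_transcendence_basis_of_aleph0_lt' (R := F) _ hs
    hcard hlt
  have hinf : Infinite s := by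
    rw [Cardinal.infinite_iff, ← hmk]
    exact hlt.le
  have hemb : Nonempty (Fin 6 ↪ s) := ⟨⟨fun i => Infinite.natEmbedding s i.val,
    fun i j h => Fin.ext ((Infinite.natEmbedding s).injective h)⟩⟩
  obtain ⟨e⟩ := hemb
  let v : Fin 6 → ℂ := fun i => (e i : ℂ)
  have hv : AlgebraicIndependent F v := hs.1.comp e e.injective
  let r : Fin 3 → ℂ := fun k => v (Fin.castAdd 3 k)
  let r' : Fin 3 → ℂ := fun k => v (Fin.natAdd 3 k)
  have hall : ∀ {m : ℕ} (y : Fin m → ℂ),
      (∀ k, IsAlgebraic (Algebra.adjoin F (Set.range y)) (r k)) →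
      (∀ k, IsAlgebraic (Algebra.adjoin F (Set.range y)) (r' k)) → 6 ≤ m := by
    intro m y h1 h2
    refine key v hv y fun i => ?_
    refine Fin.addCases (m := 3) (n := 3) (motive := fun i =>
      IsAlgebraic (Algebra.adjoin F (Set.range y)) (v i)) ?_ ?_ i
    · exact fun k => h1 k
    · exact fun k => h2 k
  refine ⟨r, r', ?_, ?_⟩
  · intro t₁ t₂ h
    by_contra hne
    have hne' : (t₁ : ℂ) ≠ t₂ := fun h => hne (Units.ext h)
    by_cases hA : (t₁ : ℂ) ^ 2 - (t₂ : ℂ) ^ 2 = 0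
    · have hB : (t₁ : ℂ) ^ 3 - (t₂ : ℂ) ^ 3 ≠ 0 := by
        have h1 : ((t₁ : ℂ) - t₂) * (t₁ + t₂) = 0 := by linear_combination hA
        rcases mul_eq_zero.1 h1 with h2 | h2
        · exact absurd (sub_eq_zero.1 h2) hne'
        · have h3 : (t₂ : ℂ) = -t₁ := by linear_combination h2
          rw [h3]
          have h4 : (t₁ : ℂ) ^ 3 - (-(t₁ : ℂ)) ^ 3 = 2 * (t₁ : ℂ) ^ 3 := by ring
          rw [h4]
          exact mul_ne_zero two_ne_zero (pow_ne_zero 3 t₁.ne_zero)
      have := hall (![(t₁ : ℂ), t₂, r 0, r 1, r 2]) ?_ ?_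
      · omega
      · intro k
        fin_cases k
        · exact alg_mem (F := F) (![(t₁ : ℂ), t₂, r 0, r 1, r 2]) 2
        · exact alg_mem (F := F) (![(t₁ : ℂ), t₂, r 0, r 1, r 2]) 3
        · exact alg_mem (F := F) (![(t₁ : ℂ), t₂, r 0, r 1, r 2]) 4
      · intro k
        have ht1 := alg_mem (F := F) (![(t₁ : ℂ), t₂, r 0, r 1, r 2]) 0
        have ht2 := alg_mem (F := F) (![(t₁ : ℂ), t₂, r 0, r 1, r 2]) 1
        have hrk : IsAlgebraic (Algebra.adjoin F (Set.range (![(t₁ : ℂ), t₂, r 0, r 1, r 2])))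
            (r k) := by
          fin_cases k
          · exact alg_mem (F := F) (![(t₁ : ℂ), t₂, r 0, r 1, r 2]) 2
          · exact alg_mem (F := F) (![(t₁ : ℂ), t₂, r 0, r 1, r 2]) 3
          · exact alg_mem (F := F) (![(t₁ : ℂ), t₂, r 0, r 1, r 2]) 4
        refine solve _ (A := (t₁ : ℂ) ^ 3 - (t₂ : ℂ) ^ 3) (B := (t₁ : ℂ) ^ 2 - (t₂ : ℂ) ^ 2)
          (G := lev t₂ (g k) - lev t₁ (g k)) (r' := r k) ?_ ?_ ?_ hrk hB ?_
        · exact (IsAlgebraic.pow ht1 3).sub (IsAlgebraic.pow ht2 3)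
        · exact (IsAlgebraic.pow ht1 2).sub (IsAlgebraic.pow ht2 2)
        · exact (alg_lev F _ t₂ ht2 _ (hF k)).sub (alg_lev F _ t₁ ht1 _ (hF k))
        · linear_combination h k
    · have := hall (![(t₁ : ℂ), t₂, r' 0, r' 1, r' 2]) ?_ ?_
      · omega
      · intro k
        have ht1 := alg_mem (F := F) (![(t₁ : ℂ), t₂, r' 0, r' 1, r' 2]) 0
        have ht2 := alg_mem (F := F) (![(t₁ : ℂ), t₂, r' 0, r' 1, r' 2]) 1
        have hrk : IsAlgebraic (Algebra.adjoin F (Set.range (![(t₁ : ℂ), t₂, r' 0, r' 1, r' 2])))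
            (r' k) := by
          fin_cases k
          · exact alg_mem (F := F) (![(t₁ : ℂ), t₂, r' 0, r' 1, r' 2]) 2
          · exact alg_mem (F := F) (![(t₁ : ℂ), t₂, r' 0, r' 1, r' 2]) 3
          · exact alg_mem (F := F) (![(t₁ : ℂ), t₂, r' 0, r' 1, r' 2]) 4
        refine solve _ (A := (t₁ : ℂ) ^ 2 - (t₂ : ℂ) ^ 2) (B := (t₁ : ℂ) ^ 3 - (t₂ : ℂ) ^ 3)
          (G := lev t₂ (g k) - lev t₁ (g k)) (r' := r' k) ?_ ?_ ?_ hrk hA ?_
        · exact (IsAlgebraic.pow ht1 2).sub (IsAlgebraic.pow ht2 2)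
        · exact (IsAlgebraic.pow ht1 3).sub (IsAlgebraic.pow ht2 3)
        · exact (alg_lev F _ t₂ ht2 _ (hF k)).sub (alg_lev F _ t₁ ht1 _ (hF k))
        · linear_combination h k
      · intro k
        fin_cases k
        · exact alg_mem (F := F) (![(t₁ : ℂ), t₂, r' 0, r' 1, r' 2]) 2
        · exact alg_mem (F := F) (![(t₁ : ℂ), t₂, r' 0, r' 1, r' 2]) 3
        · exact alg_mem (F := F) (![(t₁ : ℂ), t₂, r' 0, r' 1, r' 2]) 4
  · intro t
    by_contra hcon
    push Not at hcon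
    have := hall (![(t : ℂ), r' 0, r' 1, r' 2]) ?_ ?_
    · omega
    · intro k
      have ht := alg_mem (F := F) (![(t : ℂ), r' 0, r' 1, r' 2]) 0
      have hrk : IsAlgebraic (Algebra.adjoin F (Set.range (![(t : ℂ), r' 0, r' 1, r' 2])))
          (r' k) := by
        fin_cases k
        · exact alg_mem (F := F) (![(t : ℂ), r' 0, r' 1, r' 2]) 1
        · exact alg_mem (F := F) (![(t : ℂ), r' 0, r' 1, r' 2]) 2
        · exact alg_mem (F := F) (![(t : ℂ), r' 0, r' 1, r' 2]) 3
      have h2 : ∀ n : ℕ, IsAlgebraic (Algebra.adjoin F (Set.range (![(t : ℂ), r' 0, r' 1, r' 2])))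
          (n : ℂ) := by
        intro n
        have := alg_base (![(t : ℂ), r' 0, r' 1, r' 2]) (F := F) (n : F)
        simpa using this
      refine solve _ (A := 2 * (t : ℂ)) (B := 3 * (t : ℂ) ^ 2)
        (G := - lev t (lD (g k))) (r' := r' k) ?_ ?_ ?_ hrk
        (mul_ne_zero two_ne_zero t.ne_zero) ?_
      · exact (by simpa using h2 2 : IsAlgebraic _ (2 : ℂ)).mul ht
      · exact (by simpa using h2 3 : IsAlgebraic _ (3 : ℂ)).mul (IsAlgebraic.pow ht 2)
      · exact (alg_lev_lD F _ t ht _ (hF k)).neg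
      · linear_combination hcon k
    · intro k
      fin_cases k
      · exact alg_mem (F := F) (![(t : ℂ), r' 0, r' 1, r' 2]) 1
      · exact alg_mem (F := F) (![(t : ℂ), r' 0, r' 1, r' 2]) 2
      · exact alg_mem (F := F) (![(t : ℂ), r' 0, r' 1, r' 2]) 3

end HR
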