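import Pool.Agent.H59.HR.Stm

set_option linter.all false

open Polynomial

namespace HR
namespace TD_aux

theorem kmat_map {A B : Type*} [CommRing A] [CommRing B] (φ : A →+* B) {n : ℕ}
    (X : Matrix (Fin n) (Fin n) A) (v : Fin n → A) :
    Kmat (X.map φ) (fun i => φ (v i)) = (Kmat X v).map φ := by
  ext a b
  simp only [Kmat, Matrix.of_apply, Matrix.map_apply]
  rw [← RingHom.mapMatrix_apply, ← map_pow, RingHom.mapMatrix_apply]
  rw [RingHom.map_mulVec]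
  rfl

theorem kmat_det_map {A B : Type*} [CommRing A] [CommRing B] (φ : A →+* B) {n : ℕ}
    (X : Matrix (Fin n) (Fin n) A) (v : Fin n → A) :
    (Kmat (X.map φ) (fun i => φ (v i))).det = φ (Kmat X v).det := by
  rw [kmat_map, RingHom.map_det, RingHom.mapMatrix_apply]

theorem map_comm {A B : Type*} [CommRing A] [CommRing B] (φ : A →+* B) {n : ℕ}
    {X Y : Matrix (Fin n) (Fin n) A} (h : X * Y = Y * X) :
    X.map φ * Y.map φ = Y.map φ * X.map φ := by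
  rw [← Matrix.map_mul, ← Matrix.map_mul, h]

theorem map_nilp {A B : Type*} [CommRing A] [CommRing B] (φ : A →+* B) {n : ℕ}
    {X : Matrix (Fin n) (Fin n) A} (h : IsNilpotent X) : IsNilpotent (X.map φ) := by
  have := h.map (φ.mapMatrix)
  simpa using this

end TD_aux

open TD_aux

theorem TD (hGF : S_GF) (hCS1 : S_CS1) (hCS2 : S_CS2) (hLT : S_LT) (hEX : S_EX) (hMX : S_MX) :
    S_TD := by
  intro n hn J pq hpq hli hfin hrank hx hy
  obtain ⟨X₀, Y₀, v₀, hXY₀, hX₀, hY₀, hW₀, hJ⟩ := hMX n hn J pq hpq hli hfin hrank hx hy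
  obtain ⟨A, _, _, _, _, ε, X, Y, v, hXY, hX, hY, hεX, hεY, hεv, hδ, htd⟩ :=
    hGF n hn X₀ Y₀ v₀ pq hpq hXY₀ hX₀ hY₀ hW₀
  obtain ⟨Q, hQ, hQε, hδQ, φ, hφ, hφf⟩ := hCS1 A ε (Kmat X v).det hδ htd
  haveI := hQ
  have hQ' : ∀ a ∈ Q, ε a = 0 := fun a ha => hQε ha
  obtain ⟨V, _, _, _, _, ψ, hψ, hres, hred⟩ :=
    hCS2 (A ⧸ Q) (Ideal.Quotient.liftₐ Q ε hQ') φ hφ hφf
  obtain ⟨ϖ, hϖ⟩ := IsDiscreteValuationRing.exists_irreducible V
  let K := FractionRing V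
  have hϖ0 : algebraMap V K ϖ ≠ 0 := by
    intro h
    exact hϖ.ne_zero ((map_eq_zero_iff _ (IsFractionRing.injective V K)).1 h)
  let τ : LP →+* K := LaurentPolynomial.eval₂ ((algebraMap V K).comp (algebraMap ℂ V))
    (Units.mk0 _ hϖ0)
  have hτC : ∀ z : ℂ, τ (LaurentPolynomial.C z) = algebraMap V K (algebraMap ℂ V z) := by
    intro z
    simp [τ]
  have hτT : τ (LaurentPolynomial.T 1) = algebraMap V K ϖ := by
    simp [τ]
  let Φ : A →ₐ[ℂ] V := ψ.comp (Ideal.Quotient.mkₐ ℂ Q)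
  have hΦ : ∀ a, Φ a - algebraMap ℂ V (ε a) ∈ IsLocalRing.maximalIdeal V := by
    intro a
    exact hred (Ideal.Quotient.mk Q a)
  have hδ' : (Kmat (X.map (Φ : A →+* V)) (fun i => Φ (v i))).det ≠ 0 := by
    have h1 := kmat_det_map (Φ : A →+* V) X v
    rw [show (fun i => Φ (v i)) = (fun i => (Φ : A →+* V) (v i)) from rfl, h1]
    intro h
    apply hδQ
    have h2 : ψ (Ideal.Quotient.mk Q (Kmat X v).det) = 0 := h
    rw [map_eq_zero_iff _ hψ] at h2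
    exact Ideal.Quotient.eq_zero_iff_mem.1 h2
  obtain ⟨Y', c, hc0, hcd, hXY', hYY', hYc⟩ := hLT V ϖ K τ hϖ hτC hτT hres n hn
    (X.map (Φ : A →+* V)) (Y.map (Φ : A →+* V)) (fun i => Φ (v i))
    (map_comm _ hXY) (map_nilp _ hX) (map_nilp _ hY) hδ'
  refine ⟨c, hc0, hcd, ?_⟩
  intro f hf
  refine hEX V ϖ K τ hϖ hτC hτT n hn (X.map (Φ : A →+* V)) Y' (fun i => Φ (v i)) X₀ Y₀ v₀ pq c
    hXY' (map_nilp _ hX) hδ' ?_ ?_ ?_ hW₀ hcd hYc f (hJ f hf)
  · intro i j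
    have h1 := hΦ (X i j)
    rw [← hεX]
    exact h1
  · intro i j
    have h1 := hΦ (Y i j)
    have h2 := Ideal.add_mem _ (hYY' i j) h1
    rw [← hεY]
    have h3 : Y' i j - (Y.map (Φ : A →+* V)) i j + (Φ (Y i j) - algebraMap ℂ V (ε (Y i j)))
        = Y' i j - algebraMap ℂ V ((Y.map ε) i j) := by
      simp [Matrix.map_apply]
    rwa [h3] at h2
  · intro i
    rw [← hεv]
    exact hΦ (v i)

end HR
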