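import Pool.Agent.H59.HR.Stm
import Pool.Agent.H59.HR.TD

set_option linter.all false

open Polynomial

namespace HR
namespace GF_aux

theorem tdge_mono {A : Type*} [CommRing A] [Algebra ℂ A] {d e : ℕ} (h : TDge A e) (hd : d ≤ e) :
    TDge A d := by
  obtain ⟨x, hx⟩ := h
  exact ⟨x ∘ Fin.castLE hd, hx.comp _ (Fin.castLE_injective hd)⟩

theorem tdge_map {A B : Type*} [CommRing A] [Algebra ℂ A] [CommRing B] [Algebra ℂ B]
    (φ : A →ₐ[ℂ] B) (hφ : Function.Injective φ) {d : ℕ} (h : TDge A d) : TDge B d := by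
  obtain ⟨x, hx⟩ := h
  exact ⟨fun i => φ (x i), hx.map' hφ⟩

theorem wmat_map {A B : Type*} [CommRing A] [CommRing B] (φ : A →+* B) {n : ℕ}
    (X Y : Matrix (Fin n) (Fin n) A) (v : Fin n → A) (pq : Fin n → ℕ × ℕ) :
    Wmat (X.map φ) (Y.map φ) (fun i => φ (v i)) pq = (Wmat X Y v pq).map φ := by
  ext a b
  simp only [Wmat, Matrix.of_apply, Matrix.map_apply]
  rw [← RingHom.mapMatrix_apply, ← RingHom.mapMatrix_apply, ← map_pow, ← map_pow, ← map_mul,
    RingHom.mapMatrix_apply]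
  rw [RingHom.map_mulVec]
  rfl

theorem wmat_det_map {A B : Type*} [CommRing A] [CommRing B] (φ : A →+* B) {n : ℕ}
    (X Y : Matrix (Fin n) (Fin n) A) (v : Fin n → A) (pq : Fin n → ℕ × ℕ) :
    (Wmat (X.map φ) (Y.map φ) (fun i => φ (v i)) pq).det = φ (Wmat X Y v pq).det := by
  rw [wmat_map, RingHom.map_det, RingHom.mapMatrix_apply]

/-- the columns of an invertible matrix span -/
theorem span_of_wmat {L : Type*} [Field L] {n : ℕ} (X Y : Matrix (Fin n) (Fin n) L)
    (v : Fin n → L) (pq : Fin n → ℕ × ℕ) (h : (Wmat X Y v pq).det ≠ 0) :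
    Submodule.span L {w | ∃ p q : ℕ, w = (X ^ p * Y ^ q).mulVec v} = ⊤ := by
  rw [eq_top_iff]
  intro w _
  have hw : w = (Wmat X Y v pq).mulVec ((Wmat X Y v pq)⁻¹.mulVec w) := by
    rw [Matrix.mulVec_mulVec, Matrix.mul_nonsing_inv _ (isUnit_iff_ne_zero.2 h),
      Matrix.one_mulVec]
  set z := (Wmat X Y v pq)⁻¹.mulVec w with hz
  have h2 : w = ∑ b, z b • ((X ^ (pq b).1 * Y ^ (pq b).2).mulVec v) := by
    conv_lhs => rw [hw]
    ext a
    rw [Finset.sum_apply, Matrix.mulVec, dotProduct]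
    refine Finset.sum_congr rfl fun b _ => ?_
    simp only [Wmat, Matrix.of_apply, Pi.smul_apply, smul_eq_mul]
    ring
  rw [h2]
  refine Submodule.sum_mem _ fun b _ => Submodule.smul_mem _ _ (Submodule.subset_span ⟨_, _, rfl⟩)

theorem trace_zero {n : ℕ} (X Y : Matrix (Fin n) (Fin n) ℂ) (hXY : X * Y = Y * X)
    (hX : IsNilpotent X) (hY : IsNilpotent Y) (p q : ℕ) (hpq : (p, q) ≠ (0, 0)) :
    Matrix.trace (X ^ p * Y ^ q) = 0 := by
  have hc : Commute (X ^ p) (Y ^ q) := (show Commute X Y from hXY).pow_pow p q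
  have hn : IsNilpotent (X ^ p * Y ^ q) := by
    by_cases hp : p = 0
    · have hq : q ≠ 0 := fun h => hpq (by rw [hp, h])
      exact hc.isNilpotent_mul_left (hY.pow_of_pos hq)
    · exact hc.isNilpotent_mul_right (hX.pow_of_pos hp)
  exact (Matrix.isNilpotent_trace_of_isNilpotent hn).eq_zero

theorem pq_ne {n : ℕ} (hn : 0 < n) (X Y : Matrix (Fin n) (Fin n) ℂ) (v : Fin n → ℂ)
    (pq : Fin n → ℕ × ℕ) (h0 : pq ⟨0, hn⟩ = (0, 0)) (h : (Wmat X Y v pq).det ≠ 0)
    (b : Fin n) (hb : b ≠ ⟨0, hn⟩) : pq b ≠ (0, 0) := by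
  intro hb0
  apply h
  refine Matrix.det_zero_of_column_eq hb ?_
  intro a
  simp only [Wmat, Matrix.of_apply, hb0, h0]

end GF_aux

open GF_aux TD_aux

theorem GF (hAD : S_AD) (hUP : S_UP) (hK2 : S_K2) (hNP : S_NP) (hTB : S_TB) (hCY : S_CY) :
    S_GF := by
  intro n hn X₀ Y₀ v₀ pq hpq hXY₀ hX₀ hY₀ hW₀
  obtain ⟨A, _, _, _, ε, X, Y, v, u, hXY, hεX, hεY, hεv, hu, htd, hgen⟩ :=
    hAD n X₀ Y₀ v₀ pq hXY₀ hW₀
  have hfinset : ({z | ∃ a b, z = X a b} ∪ {z | ∃ a b, z = Y a b} ∪ Set.range v ∪ {u}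
      : Set A).Finite := by
    refine Set.Finite.union (Set.Finite.union (Set.Finite.union ?_ ?_) (Set.finite_range v))
      (Set.finite_singleton u)
    · refine (Set.finite_range (fun z : Fin n × Fin n => X z.1 z.2)).subset ?_
      rintro z ⟨a, b, rfl⟩; exact ⟨(a, b), rfl⟩
    · refine (Set.finite_range (fun z : Fin n × Fin n => Y z.1 z.2)).subset ?_
      rintro z ⟨a, b, rfl⟩; exact ⟨(a, b), rfl⟩
  haveI hft : Algebra.FiniteType ℂ A := by
    refine ⟨⟨hfinset.toFinset, ?_⟩⟩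
    rw [Set.Finite.coe_toFinset]; exact hgen
  obtain ⟨E, _, _, _, ι, x, y, ε', hι, hε', hx, hy, hrel, hgenE⟩ :=
    hUP A n ε X Y hn hXY (by
      rw [hεX]; exact hX₀) (by rw [hεY]; exact hY₀)
  haveI hftE : Algebra.FiniteType ℂ E := by
    obtain ⟨s, hs⟩ := hft.out
    classical
    refine ⟨⟨s.image ι ∪ {x, y}, ?_⟩⟩
    rw [eq_top_iff, ← hgenE]
    refine Algebra.adjoin_le ?_
    rintro z (⟨a, rfl⟩ | hz)
    · have h1 : ι a ∈ (⊤ : Subalgebra ℂ A).map ι := ⟨a, trivial, rfl⟩
      rw [← hs, AlgHom.map_adjoin] at h1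
      refine Algebra.adjoin_mono ?_ h1
      rw [Finset.coe_union, Finset.coe_image]
      exact Set.subset_union_left
    · refine Algebra.subset_adjoin ?_
      rw [Finset.coe_union]
      right
      simpa using hz
  -- the n + 1 equations
  set tr : ℕ → E := fun b => if h : b < n then
    ι (Matrix.trace (X ^ (pq ⟨b, h⟩).1 * Y ^ (pq ⟨b, h⟩).2)) else 0 with htr
  set f : Fin (n + 1) → E := fun i => if (i : ℕ) = 0 then x else if (i : ℕ) = 1 then y
    else tr (i - 1) with hf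
  have hεtr : ∀ p q : ℕ, (p, q) ≠ (0, 0) → ε (Matrix.trace (X ^ p * Y ^ q)) = 0 := by
    intro p q h
    have h1 : ε (Matrix.trace (X ^ p * Y ^ q)) = Matrix.trace (X₀ ^ p * Y₀ ^ q) := by
      rw [← hεX, ← hεY]
      have h2 : ∀ (M : Matrix (Fin n) (Fin n) A), M.map ε = (ε : A →+* ℂ).mapMatrix M :=
        fun M => rfl
      rw [h2, h2, ← map_pow, ← map_pow, ← map_mul]
      exact (AddMonoidHom.map_trace (ε : A →+* ℂ).toAddMonoidHom _)
    rw [h1]
    exact trace_zero X₀ Y₀ hXY₀ hX₀ hY₀ p q h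
  have hfP : ∀ i, f i ∈ RingHom.ker (ε' : E →+* ℂ) := by
    intro i
    rw [RingHom.mem_ker]
    simp only [hf]
    split_ifs with h0 h1
    · exact hx
    · exact hy
    · simp only [htr]
      have hi := i.2
      rw [dif_pos (by omega)]
      have h2 : ε' (ι (Matrix.trace (X ^ (pq ⟨i - 1, by omega⟩).1 *
        Y ^ (pq ⟨i - 1, by omega⟩).2))) = 0 := by
        rw [hε']
        exact hεtr _ _ (pq_ne hn X₀ Y₀ v₀ pq hpq hW₀ _ (by
          intro h; rw [Fin.mk.injEq] at h; omega))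
      exact h2
  haveI : (RingHom.ker (ε' : E →+* ℂ)).IsPrime := RingHom.ker_isPrime _
  have hn2 : 1 ≤ n ^ 2 := Nat.one_le_pow _ _ hn
  obtain ⟨Q, hQ, hfQ, hQP, htdQ⟩ := hK2 (n + 1) E (RingHom.ker (ε' : E →+* ℂ)) f hfP
    (n ^ 2 + n - 1) (by
      have := tdge_map ι hι htd
      refine tdge_mono this ?_
      omega)
  haveI := hQ
  have hxQ : x ∈ Q := by
    have := hfQ ⟨0, by omega⟩
    simpa [hf] using this
  have hyQ : y ∈ Q := by
    have := hfQ ⟨1, by omega⟩
    simpa [hf] using this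
  have htrQ : ∀ b : Fin n, b ≠ ⟨0, hn⟩ →
      ι (Matrix.trace (X ^ (pq b).1 * Y ^ (pq b).2)) ∈ Q := by
    intro b hb
    have hb0 : (b : ℕ) ≠ 0 := fun h => hb (Fin.ext h)
    have hb2 := b.2
    have h1 := hfQ ⟨b + 1, by omega⟩
    simp only [hf, htr] at h1
    rw [if_neg (by omega), if_neg (by omega)] at h1
    have h3 : (b : ℕ) + 1 - 1 = b := by omega
    simp only [h3] at h1
    rw [dif_pos hb2] at h1
    exact h1
  let φ : A →ₐ[ℂ] (E ⧸ Q) := (Ideal.Quotient.mkₐ ℂ Q).comp ι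
  have hWu : IsUnit (Wmat X Y v pq).det := IsUnit.of_mul_eq_one_right u hu
  obtain ⟨hXn, hYn⟩ := hNP A (E ⧸ Q) n hn X Y v pq φ hpq hXY hWu (by
      intro g hg
      have h1 := hrel g hg
      have h2 : (Ideal.Quotient.mk Q) (MvPolynomial.eval₂ (ι : A →+* E) ![x, y] g) = 0 := by
        rw [h1, map_zero]
      rw [MvPolynomial.hom_eval₂] at h2
      have h3 : (fun i => (Ideal.Quotient.mk Q) (![x, y] i)) = 0 := by
        ext i
        fin_cases i
        · simpa using Ideal.Quotient.eq_zero_iff_mem.2 hxQ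
        · simpa using Ideal.Quotient.eq_zero_iff_mem.2 hyQ
      rw [h3] at h2
      rw [← h2]
      rw [MvPolynomial.eval₂_zero_apply]
      rfl)
    (by
      intro b hb
      exact Ideal.Quotient.eq_zero_iff_mem.2 (htrQ b hb))
  have hQε : ∀ a ∈ Q, ε' a = 0 := fun a ha => hQP ha
  let ε'' : (E ⧸ Q) →ₐ[ℂ] ℂ := Ideal.Quotient.liftₐ Q ε' hQε
  have hε'' : ∀ a, ε'' (φ a) = ε a := fun a => hε' a
  refine ⟨E ⧸ Q, inferInstance, inferInstance, inferInstance, inferInstance, ε'',
    X.map (φ : A →+* (E ⧸ Q)), Y.map (φ : A →+* (E ⧸ Q)), fun i => φ (v i),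
    map_comm _ hXY, hXn, hYn, ?_, ?_, ?_, ?_, ?_⟩
  · rw [← hεX]; ext i j; exact hε'' _
  · rw [← hεY]; ext i j; exact hε'' _
  · intro a; rw [hε'', hεv]
  · -- determinant
    let L := FractionRing (E ⧸ Q)
    letI : Algebra ℂ L := inferInstance
    let j : (E ⧸ Q) →ₐ[ℂ] L := IsScalarTower.toAlgHom ℂ (E ⧸ Q) L
    have hj : Function.Injective j := IsFractionRing.injective (E ⧸ Q) L
    let Φ : A →ₐ[ℂ] L := j.comp φ
    have hWL : (Wmat (X.map (Φ : A →+* L)) (Y.map (Φ : A →+* L)) (fun i => Φ (v i)) pq).det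
        ≠ 0 := by
      have h1 := wmat_det_map (Φ : A →+* L) X Y v pq
      rw [show (fun i => Φ (v i)) = (fun i => (Φ : A →+* L) (v i)) from rfl, h1]
      exact (hWu.map (Φ : A →+* L)).ne_zero
    have hcyc := span_of_wmat _ _ _ _ hWL
    have hXL : IsNilpotent (X.map (Φ : A →+* L)) := map_nilp (j : (E ⧸ Q) →+* L) hXn
    have hYL : IsNilpotent (Y.map (Φ : A →+* L)) := map_nilp (j : (E ⧸ Q) →+* L) hYn
    have hadj : IntermediateField.adjoin ℂ
      ({z | ∃ a b, z = (X.map (Φ : A →+* L)) a b} ∪ {z | ∃ a b, z = (Y.map (Φ : A →+* L)) a b} ∪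
        Set.range (fun i => Φ (v i))) = ⊤ := by
      set F := IntermediateField.adjoin ℂ
        ({z | ∃ a b, z = (X.map (Φ : A →+* L)) a b} ∪
          {z | ∃ a b, z = (Y.map (Φ : A →+* L)) a b} ∪
          Set.range (fun i => Φ (v i))) with hF
      have hsub := IntermediateField.subset_adjoin ℂ
        ({z | ∃ a b, z = (X.map (Φ : A →+* L)) a b} ∪
          {z | ∃ a b, z = (Y.map (Φ : A →+* L)) a b} ∪
          Set.range (fun i => Φ (v i)))
      have hFX : ∀ a b, Φ (X a b) ∈ F := fun a b => hsub (Or.inl (Or.inl ⟨a, b, rfl⟩))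
      have hFY : ∀ a b, Φ (Y a b) ∈ F := fun a b => hsub (Or.inl (Or.inr ⟨a, b, rfl⟩))
      have hFv : ∀ a, Φ (v a) ∈ F := fun a => hsub (Or.inr ⟨a, rfl⟩)
      -- entries of Wmat
      have hpow : ∀ (M : Matrix (Fin n) (Fin n) A), (∀ a b, Φ (M a b) ∈ F) →
          ∀ k a b, Φ ((M ^ k) a b) ∈ F := by
        intro M hM k
        induction k with
        | zero =>
          intro a b
          rw [pow_zero, Matrix.one_apply]
          split_ifs
          · rw [map_one]; exact F.one_mem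
          · rw [map_zero]; exact F.zero_mem
        | succ k ih =>
          intro a b
          rw [pow_succ, Matrix.mul_apply, map_sum]
          refine F.sum_mem fun c _ => ?_
          rw [map_mul]
          exact F.mul_mem (ih a c) (hM c b)
      have hFW : ∀ a b, Φ ((Wmat X Y v pq) a b) ∈ F := by
        intro a b
        simp only [Wmat, Matrix.of_apply, Matrix.mulVec, dotProduct, map_sum, map_mul]
        refine F.sum_mem fun c _ => F.mul_mem ?_ (hFv c)
        rw [Matrix.mul_apply, map_sum]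
        refine F.sum_mem fun d _ => ?_
        rw [map_mul]
        exact F.mul_mem (hpow X hFX _ a d) (hpow Y hFY _ d c)
      have hFdet : Φ ((Wmat X Y v pq).det) ∈ F := by
        rw [Matrix.det_apply, map_sum]
        refine F.sum_mem fun σ _ => ?_
        rw [Units.smul_def, map_zsmul]
        refine F.zsmul_mem ?_ _
        rw [map_prod]
        exact F.prod_mem fun i _ => hFW _ _
      have hFu : Φ u ∈ F := by
        have h1 : Φ u * Φ ((Wmat X Y v pq).det) = 1 := by rw [← map_mul, hu, map_one]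
        rw [eq_inv_of_mul_eq_one_left h1]
        exact F.inv_mem hFdet
      have hFA : ∀ a, Φ a ∈ F := by
        intro a
        have h1 : a ∈ (⊤ : Subalgebra ℂ A) := trivial
        rw [← hgen] at h1
        induction h1 using Algebra.adjoin_induction with
        | mem z hz =>
          rcases hz with ((⟨a, b, rfl⟩ | ⟨a, b, rfl⟩) | ⟨a, rfl⟩) | hz
          · exact hFX _ _
          · exact hFY _ _
          · exact hFv _
          · rw [Set.mem_singleton_iff.1 hz]; exact hFu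
        | algebraMap r => rw [AlgHom.commutes]; exact F.algebraMap_mem r
        | add a b _ _ ha hb => rw [map_add]; exact F.add_mem ha hb
        | mul a b _ _ ha hb => rw [map_mul]; exact F.mul_mem ha hb
      have hFE : ∀ e : E, j (Ideal.Quotient.mk Q e) ∈ F := by
        intro e
        have h1 : e ∈ (⊤ : Subalgebra ℂ E) := trivial
        rw [← hgenE] at h1
        induction h1 using Algebra.adjoin_induction with
        | mem z hz =>
          rcases hz with ⟨a, rfl⟩ | hz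
          · exact hFA a
          · rcases hz with rfl | hz
            · rw [Ideal.Quotient.eq_zero_iff_mem.2 hxQ, map_zero]; exact F.zero_mem
            · rw [Set.mem_singleton_iff.1 hz, Ideal.Quotient.eq_zero_iff_mem.2 hyQ, map_zero]
              exact F.zero_mem
        | algebraMap r =>
          have : j (Ideal.Quotient.mk Q (algebraMap ℂ E r)) = algebraMap ℂ L r :=
            j.commutes r
          rw [this]; exact F.algebraMap_mem r
        | add a b _ _ ha hb => rw [map_add, map_add]; exact F.add_mem ha hb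
        | mul a b _ _ ha hb => rw [map_mul, map_mul]; exact F.mul_mem ha hb
      rw [eq_top_iff]
      intro z _
      obtain ⟨a, b, hb, rfl⟩ := IsFractionRing.div_surjective (A := E ⧸ Q) z
      obtain ⟨a, rfl⟩ := Ideal.Quotient.mk_surjective a
      obtain ⟨b, rfl⟩ := Ideal.Quotient.mk_surjective b
      exact F.div_mem (hFE a) (hFE b)
    have htdL : TDge L (n ^ 2 + n - 1) := tdge_map j hj htdQ
    have hbound := hTB L n (X.map (Φ : A →+* L)) (Y.map (Φ : A →+* L)) (fun i => Φ (v i))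
      (map_comm _ hXY) hXL hYL hcyc hadj _ htdL
    have hK := hCY L n (X.map (Φ : A →+* L)) (Y.map (Φ : A →+* L)) (fun i => Φ (v i))
      (map_comm _ hXY) hXL hYL hcyc (by omega)
    intro h0
    apply hK
    have h1 := kmat_det_map (j : (E ⧸ Q) →+* L) (X.map (φ : A →+* (E ⧸ Q))) (fun i => φ (v i))
    have h2 : (Kmat (X.map (Φ : A →+* L)) (fun i => Φ (v i))).det =
      (Kmat ((X.map (φ : A →+* (E ⧸ Q))).map (j : (E ⧸ Q) →+* L))
        (fun i => (j : (E ⧸ Q) →+* L) (φ (v i)))).det := rfl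
    rw [h2, h1, h0, map_zero]
  · exact tdge_mono htdQ (by omega)

end HR
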