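import Pool.Agent.H59.HR.OB

/-!
# J1: the ideal obtained from `mIdeal S` by replacing the generator `m₀` by `m₀ + m'`
(uses the pencil ideals `KI` of `OB.lean` with parameter `τ = 1`)
-/

set_option linter.all false

open Polynomial

namespace HR

namespace J1_aux

open OB_aux

theorem hw_of (S : Finset (ℕ × ℕ)) (hl : IsLowerSet (S : Set (ℕ × ℕ)))
    (m₀ m' : ℕ × ℕ) (h0 : m₀ ∉ S) (h1 : m' ∈ S)
    (hmin : ∀ q, q ≤ m₀ → q ≠ m₀ → q ∈ S) (hmax : ∀ q, m' ≤ q → q ≠ m' → q ∉ S)
    (hne1 : m₀ ≠ (m'.1 + 1, m'.2)) (hne2 : m₀ ≠ (m'.1, m'.2 + 1)) :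
    HW (S.erase m') m' m₀ := by
  have hlt : ¬ m' ≤ m₀ := by
    intro hle
    obtain ⟨ha, hb⟩ := hle
    have hcase : m'.1 < m₀.1 ∨ m'.2 < m₀.2 := by
      by_contra hcon
      push Not at hcon
      apply h0
      have : m₀ = m' := Prod.ext (le_antisymm hcon.1 ha) (le_antisymm hcon.2 hb)
      rw [this]; exact h1
    rcases hcase with hc | hc
    · have hq := hmax (m'.1 + 1, m'.2) ⟨Nat.le_succ _, le_rfl⟩ (by
        intro h; have := congrArg Prod.fst h; simp at this)
      exact hq (hmin _ ⟨hc, hb⟩ (Ne.symm hne1))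
    · have hq := hmax (m'.1, m'.2 + 1) ⟨le_rfl, Nat.le_succ _⟩ (by
        intro h; have := congrArg Prod.snd h; simp at this)
      exact hq (hmin _ ⟨ha, hc⟩ (Ne.symm hne2))
  refine ⟨Finset.notMem_erase _ _, fun h => h0 (Finset.mem_of_mem_erase h), ?_, ?_⟩
  · rintro rfl; exact h0 h1
  · intro p hp q hq hqp
    rw [Finset.mem_erase]
    rcases hp with hp | rfl | rfl
    · have hpS := Finset.mem_of_mem_erase hp
      refine ⟨?_, hl hq hpS⟩
      rintro rfl
      exact hmax p hq (Ne.symm hqp) hpS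
    · exact ⟨hqp, hl hq h1⟩
    · refine ⟨?_, hmin q hq hqp⟩
      rintro rfl
      exact hlt hq

end J1_aux

open OB_aux J1_aux in
theorem J1 : S_J1 := by
  classical
  intro n S hl hc h01 m₀ m' h0 h1 hmin hmax hne1 hne2
  have hw := hw_of S hl m₀ m' h0 h1 hmin hmax hne1 hne2
  have h00 : ((0, 0) : ℕ × ℕ) ∈ S := hl (show ((0, 0) : ℕ × ℕ) ≤ (0, 1) from ⟨le_rfl, Nat.zero_le _⟩) h01
  have hn : 0 < n := by rw [← hc]; exact Finset.card_pos.2 ⟨_, h00⟩
  have hcard : (S.erase m').card + 1 = n := by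
    rw [Finset.card_erase_of_mem h1, hc]; omega
  -- enumeration of `S` starting at `(0,0)`
  have e0 : Fin n ≃ S := (Fintype.equivFinOfCardEq (by rw [Fintype.card_coe, hc])).symm
  let e : Fin n ≃ S := (Equiv.swap (⟨0, hn⟩ : Fin n) (e0.symm ⟨(0, 0), h00⟩)).trans e0
  have he : e ⟨0, hn⟩ = ⟨(0, 0), h00⟩ := by
    simp [e]
  let L := quotEquiv hw (1 : ℂ)
  refine ⟨KI hw (1 : ℂ), fun b => (e b : ℕ × ℕ), hn, by show ((e ⟨0, hn⟩ : S) : ℕ × ℕ) = (0, 0); rw [he], ?_, ?_, ?_, ?_, ?_, ?_, ?_⟩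
  · intro p hp hp0
    apply mon_mem
    rintro (h | h | h)
    · exact hp (Finset.mem_of_mem_erase h)
    · exact hp (h ▸ h1)
    · exact hp0 h
  · have := gen_mem hw (1 : ℂ)
    rwa [map_one, one_mul] at this
  · -- linear independence
    rw [Fintype.linearIndependent_iff]
    intro g hg b
    have hmem : (∑ i, MvPolynomial.C (g i) * mon ℂ (e i : ℕ × ℕ)) ∈ KI hw (1 : ℂ) := by
      rw [← Ideal.Quotient.eq_zero_iff_mem, map_sum]
      rw [← hg]
      refine Finset.sum_congr rfl fun i _ => ?_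
      rw [← MvPolynomial.smul_eq_C_mul]
      rfl
    rw [mem_KI] at hmem
    have key : ∀ q : ℕ × ℕ, MvPolynomial.coeff (ex q)
        (∑ i, MvPolynomial.C (g i) * mon ℂ (e i : ℕ × ℕ)) =
        ∑ i, g i * (if q = (e i : ℕ × ℕ) then 1 else 0) := by
      intro q
      rw [MvPolynomial.coeff_sum]
      refine Finset.sum_congr rfl fun i _ => ?_
      rw [MvPolynomial.coeff_C_mul, coeff_mon]
    have key1 : ∀ b, MvPolynomial.coeff (ex (e b : ℕ × ℕ))
        (∑ i, MvPolynomial.C (g i) * mon ℂ (e i : ℕ × ℕ)) = g b := by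
      intro b
      rw [key, Finset.sum_eq_single b]
      · simp
      · intro i _ hi
        rw [if_neg, mul_zero]
        intro h
        exact hi (e.injective (Subtype.ext h)).symm
      · intro h; exact absurd (Finset.mem_univ _) h
    have key0 : MvPolynomial.coeff (ex m₀)
        (∑ i, MvPolynomial.C (g i) * mon ℂ (e i : ℕ × ℕ)) = 0 := by
      rw [key]
      refine Finset.sum_eq_zero fun i _ => ?_
      rw [if_neg, mul_zero]
      intro h
      exact h0 (h ▸ (e i).2)
    by_cases hb : (e b : ℕ × ℕ) = m'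
    · have := hmem.2
      rw [key0, mul_zero, ← hb, key1] at this
      exact this
    · have := hmem.1 _ (Finset.mem_erase.2 ⟨hb, (e b).2⟩)
      rwa [key1] at this
  · exact Module.Finite.equiv L.symm
  · rw [L.finrank_eq, Module.finrank_prod, Module.finrank_fintype_fun_eq_card,
      Module.finrank_self, Fintype.card_coe, hcard]
  · -- powers of `x`
    have hbig : ∀ q : ℕ × ℕ, (q ∈ S.erase m' ∨ q = m' ∨ q = m₀) →
        q.1 + q.2 ≤ ∑ p ∈ insert m₀ S, (p.1 + p.2) := by
      intro q hq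
      refine Finset.single_le_sum (f := fun p : ℕ × ℕ => p.1 + p.2) (fun _ _ => Nat.zero_le _) ?_
      rcases hq with h | rfl | rfl
      · exact Finset.mem_insert_of_mem (Finset.mem_of_mem_erase h)
      · exact Finset.mem_insert_of_mem h1
      · exact Finset.mem_insert_self _ _
    refine ⟨(∑ p ∈ insert m₀ S, (p.1 + p.2)) + 1, ?_⟩
    have h2 : mon ℂ ((∑ p ∈ insert m₀ S, (p.1 + p.2)) + 1, 0) ∈ KI hw (1 : ℂ) := by
      apply mon_mem
      intro hq
      have := hbig _ hq
      simp only at this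
      omega
    simpa [mon] using h2
  · have hbig : ∀ q : ℕ × ℕ, (q ∈ S.erase m' ∨ q = m' ∨ q = m₀) →
        q.1 + q.2 ≤ ∑ p ∈ insert m₀ S, (p.1 + p.2) := by
      intro q hq
      refine Finset.single_le_sum (f := fun p : ℕ × ℕ => p.1 + p.2) (fun _ _ => Nat.zero_le _) ?_
      rcases hq with h | rfl | rfl
      · exact Finset.mem_insert_of_mem (Finset.mem_of_mem_erase h)
      · exact Finset.mem_insert_of_mem h1
      · exact Finset.mem_insert_self _ _
    refine ⟨(∑ p ∈ insert m₀ S, (p.1 + p.2)) + 1, ?_⟩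
    have h2 : mon ℂ (0, (∑ p ∈ insert m₀ S, (p.1 + p.2)) + 1) ∈ KI hw (1 : ℂ) := by
      apply mon_mem
      intro hq
      have := hbig _ hq
      simp only at this
      omega
    simpa [mon] using h2

end HR
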