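import Pool.Agent.H59.HR.Stm

set_option linter.all false

open Polynomial

namespace HR

namespace LT_aux

section approx

variable {V : Type} [CommRing V] [IsDomain V] [IsDiscreteValuationRing V] [Algebra ℂ V] {ϖ : V}

/-- approximation by polynomials in the uniformizer -/
theorem approx_int (hϖ : Irreducible ϖ)
    (hres : ∀ v : V, ∃ z : ℂ, v - algebraMap ℂ V z ∈ IsLocalRing.maximalIdeal V)
    (M : ℕ) (b : V) :
    ∃ (q : ℂ[X]) (b' : V), b = Polynomial.eval₂ (algebraMap ℂ V) ϖ q + ϖ ^ M * b' := by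
  induction M generalizing b with
  | zero => exact ⟨0, b, by simp⟩
  | succ M ih =>
    obtain ⟨z, hz⟩ := hres b
    rw [hϖ.maximalIdeal_eq, Ideal.mem_span_singleton] at hz
    obtain ⟨b1, hb1⟩ := hz
    obtain ⟨q1, b', hb'⟩ := ih b1
    refine ⟨Polynomial.C z + Polynomial.X * q1, b', ?_⟩
    rw [Polynomial.eval₂_add, Polynomial.eval₂_mul, Polynomial.eval₂_C, Polynomial.eval₂_X]
    have : b = algebraMap ℂ V z + ϖ * b1 := by rw [← hb1]; ring
    rw [this]
    conv_lhs => rw [hb']
    ring

variable {K : Type} [Field K] [Algebra V K] [IsFractionRing V K] {τ : LP →+* K}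

theorem tau_toLaurent
    (hC : ∀ z : ℂ, τ (LaurentPolynomial.C z) = algebraMap V K (algebraMap ℂ V z))
    (hT : τ (LaurentPolynomial.T 1) = algebraMap V K ϖ) (q : ℂ[X]) :
    τ (Polynomial.toLaurent q) = algebraMap V K (Polynomial.eval₂ (algebraMap ℂ V) ϖ q) := by
  have h : τ.comp (Polynomial.toLaurent : ℂ[X] →+* LP) =
      (algebraMap V K).comp (Polynomial.eval₂RingHom (algebraMap ℂ V) ϖ) := by
    refine Polynomial.ringHom_ext ?_ ?_
    · intro z
      simp only [RingHom.comp_apply, Polynomial.coe_eval₂RingHom, Polynomial.eval₂_C]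
      rw [← hC z, Polynomial.toLaurent_C]
    · simp only [RingHom.comp_apply, Polynomial.coe_eval₂RingHom, Polynomial.eval₂_X]
      rw [← hT, Polynomial.toLaurent_X]
  exact congrArg (fun f : ℂ[X] →+* K => f q) h

/-- approximation of elements of the fraction field by Laurent polynomials -/
theorem approx_frac (hϖ : Irreducible ϖ)
    (hC : ∀ z : ℂ, τ (LaurentPolynomial.C z) = algebraMap V K (algebraMap ℂ V z))
    (hT : τ (LaurentPolynomial.T 1) = algebraMap V K ϖ)
    (hres : ∀ v : V, ∃ z : ℂ, v - algebraMap ℂ V z ∈ IsLocalRing.maximalIdeal V) (a : K) :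
    ∃ (p : LP) (d : V), d ∈ IsLocalRing.maximalIdeal V ∧ a - τ p = algebraMap V K d := by
  obtain ⟨b, e, he, rfl⟩ := IsFractionRing.div_surjective (A := V) a
  have he0 : e ≠ 0 := nonZeroDivisors.ne_zero he
  obtain ⟨m, hm⟩ := IsDiscreteValuationRing.associated_pow_irreducible he0 hϖ
  obtain ⟨u, hu⟩ := hm
  obtain ⟨q, b', hq⟩ := approx_int hϖ hres (m + 1) (b * (u : V))
  refine ⟨LaurentPolynomial.T (-(m : ℤ)) * Polynomial.toLaurent q, ϖ * b', ?_, ?_⟩
  · rw [hϖ.maximalIdeal_eq]; exact Ideal.mul_mem_right _ _ (Ideal.mem_span_singleton_self ϖ)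
  · have hϖK : algebraMap V K ϖ ≠ 0 := by
      simpa using (IsFractionRing.injective V K).ne hϖ.ne_zero
    have hTm : τ (LaurentPolynomial.T (-(m : ℤ))) = ((algebraMap V K ϖ) ^ m)⁻¹ := by
      have h1 : τ (LaurentPolynomial.T (m : ℤ)) = (algebraMap V K ϖ) ^ m := by
        have : (LaurentPolynomial.T (m : ℤ) : LP) = (LaurentPolynomial.T 1) ^ m := by
          rw [LaurentPolynomial.T_pow]; simp
        rw [this, map_pow, hT]
      refine eq_inv_of_mul_eq_one_left ?_
      rw [← h1, ← map_mul, ← LaurentPolynomial.T_add]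
      simp
    rw [map_mul, hTm, tau_toLaurent hC hT]
    have huK : algebraMap V K (u : V) ≠ 0 := by
      simpa using (IsFractionRing.injective V K).ne u.ne_zero
    have heK : algebraMap V K e ≠ 0 := by
      simpa using (IsFractionRing.injective V K).ne he0
    have h2 : algebraMap V K e * algebraMap V K (u : V) = (algebraMap V K ϖ) ^ m := by
      rw [← map_mul, hu, map_pow]
    have h3 : algebraMap V K b * algebraMap V K (u : V)
        = algebraMap V K (Polynomial.eval₂ (algebraMap ℂ V) ϖ q)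
          + (algebraMap V K ϖ) ^ (m + 1) * algebraMap V K b' := by
      rw [← map_mul, hq, map_add, map_mul, map_pow]
    have h4 : algebraMap V K b / algebraMap V K e
        = (algebraMap V K b * algebraMap V K (u : V)) * ((algebraMap V K ϖ) ^ m)⁻¹ := by
      rw [← h2]; field_simp
    rw [h4, h3, map_mul]
    field_simp
    ring

end approx

section mat

variable {K : Type} [Field K] {n : ℕ}

theorem mul_Kmat (Z X : Matrix (Fin n) (Fin n) K) (v : Fin n → K) (a b : Fin n) :
    (Z * Kmat X v) a b = (Z.mulVec ((X ^ (b : ℕ)).mulVec v)) a := by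
  simp only [Matrix.mul_apply, Kmat, Matrix.of_apply, Matrix.mulVec, dotProduct]

theorem eq_of_comm (Z W X : Matrix (Fin n) (Fin n) K) (v : Fin n → K)
    (hZ : Z * X = X * Z) (hW : W * X = X * W) (hdet : (Kmat X v).det ≠ 0)
    (h : Z.mulVec v = W.mulVec v) : Z = W := by
  have h1 : Z * Kmat X v = W * Kmat X v := by
    ext a b
    rw [mul_Kmat, mul_Kmat, Matrix.mulVec_mulVec, Matrix.mulVec_mulVec]
    have hz : Z * X ^ (b : ℕ) = X ^ (b : ℕ) * Z := (show Commute Z X from hZ).pow_right _
    have hw : W * X ^ (b : ℕ) = X ^ (b : ℕ) * W := (show Commute W X from hW).pow_right _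
    rw [hz, hw, ← Matrix.mulVec_mulVec, ← Matrix.mulVec_mulVec, h]
  have hu : IsUnit (Kmat X v).det := isUnit_iff_ne_zero.2 hdet
  have hu' := (Matrix.isUnit_iff_isUnit_det _).2 hu
  exact hu'.mul_right_cancel h1

theorem exists_poly (X Y : Matrix (Fin n) (Fin n) K) (v : Fin n → K) (hn : 0 < n)
    (hXY : X * Y = Y * X) (hX : IsNilpotent X) (hY : IsNilpotent Y)
    (hdet : (Kmat X v).det ≠ 0) :
    ∃ a : ℕ → K, a 0 = 0 ∧ Y = ∑ k ∈ Finset.range n, a k • X ^ k := by
  classical
  have hu : IsUnit (Kmat X v).det := isUnit_iff_ne_zero.2 hdet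
  let a0 : Fin n → K := ((Kmat X v)⁻¹).mulVec (Y.mulVec v)
  have ha0 : (Kmat X v).mulVec a0 = Y.mulVec v := by
    rw [Matrix.mulVec_mulVec, Matrix.mul_nonsing_inv _ hu, Matrix.one_mulVec]
  let a : ℕ → K := fun k => if h : k < n then a0 ⟨k, h⟩ else 0
  have hsum : ∑ k ∈ Finset.range n, a k • X ^ k = ∑ k : Fin n, a0 k • X ^ (k : ℕ) := by
    rw [Finset.sum_range]
    refine Finset.sum_congr rfl fun k _ => ?_
    simp [a]
  have hcomm : (∑ k ∈ Finset.range n, a k • X ^ k) * X = X * ∑ k ∈ Finset.range n, a k • X ^ k := by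
    rw [Finset.sum_mul, Finset.mul_sum]
    refine Finset.sum_congr rfl fun k _ => ?_
    rw [smul_mul_assoc, mul_smul_comm, ← pow_succ, ← pow_succ']
  have hY' : Y = ∑ k ∈ Finset.range n, a k • X ^ k := by
    refine eq_of_comm _ _ X v hXY.symm hcomm hdet ?_
    rw [hsum, ← ha0]
    ext i
    simp only [Matrix.mulVec, dotProduct, Matrix.sum_apply, Matrix.smul_apply, smul_eq_mul,
      Kmat, Matrix.of_apply]
    rw [Finset.sum_congr rfl fun x _ => Finset.sum_mul _ _ _, Finset.sum_comm]
    refine Finset.sum_congr rfl fun k _ => ?_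
    rw [Finset.sum_mul]
    refine Finset.sum_congr rfl fun x _ => ?_
    ring
  refine ⟨a, ?_, hY'⟩
  obtain ⟨m, rfl⟩ : ∃ m, n = m + 1 := ⟨n - 1, by omega⟩
  rw [Finset.sum_range_succ'] at hY'
  have h1 : a 0 • (1 : Matrix (Fin (m + 1)) (Fin (m + 1)) K)
      = Y - X * ∑ k ∈ Finset.range m, a (k + 1) • X ^ k := by
    rw [eq_sub_iff_add_eq]
    conv_rhs => rw [hY']
    rw [Finset.mul_sum, pow_zero]
    have h2 : ∀ k ∈ Finset.range m, X * (a (k + 1) • X ^ k) = a (k + 1) • X ^ (k + 1) := by
      intro k _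
      rw [mul_smul_comm, ← pow_succ']
    rw [Finset.sum_congr rfl h2]
    exact add_comm _ _
  have hc1 : Commute X (∑ k ∈ Finset.range m, a (k + 1) • X ^ k) :=
    Commute.sum_right _ _ _ fun k _ => ((Commute.refl X).pow_right k).smul_right _
  have hc2 : Commute Y (∑ k ∈ Finset.range m, a (k + 1) • X ^ k) :=
    Commute.sum_right _ _ _ fun k _ => ((show Commute Y X from hXY.symm).pow_right k).smul_right _
  have hc3 : Commute Y (X * ∑ k ∈ Finset.range m, a (k + 1) • X ^ k) :=
    (show Commute Y X from hXY.symm).mul_right hc2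
  have hnil : IsNilpotent (a 0 • (1 : Matrix (Fin (m + 1)) (Fin (m + 1)) K)) := by
    rw [h1]
    exact hc3.isNilpotent_sub hY (hc1.isNilpotent_mul_right hX)
  obtain ⟨N, hN⟩ := hnil
  rw [_root_.smul_pow, one_pow] at hN
  have h2 := congrFun (congrFun hN 0) 0
  simp at h2
  exact h2.1

end mat

end LT_aux

open LT_aux

theorem LT : S_LT := by
  classical
  intro V _ _ _ _ ϖ K _ _ _ τ hϖ hC hT hres n hn X Y v hXY hX hY hdet
  have hinj : Function.Injective (algebraMap V K) := IsFractionRing.injective V K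
  let φ := algebraMap V K
  have hdet' : (Kmat (X.map φ) (fun i => φ (v i))).det ≠ 0 := by
    have h1 : Kmat (X.map φ) (fun i => φ (v i)) = (Kmat X v).map φ := by
      ext a b
      simp only [Kmat, Matrix.of_apply, Matrix.map_apply]
      have h2 : (X.map φ) ^ (b : ℕ) = (X ^ (b : ℕ)).map φ := by
        have := map_pow (φ.mapMatrix (m := Fin n)) X (b : ℕ)
        simpa using this.symm
      rw [h2]
      simp [Matrix.mulVec, dotProduct, map_sum]
    rw [h1]
    have h3 : ((Kmat X v).map φ).det = φ (Kmat X v).det := by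
      have := RingHom.map_det φ (Kmat X v)
      simpa using this.symm
    rw [h3]
    exact fun h => hdet (hinj (by rw [map_zero]; exact h))
  have hXY' : (X.map φ) * (Y.map φ) = (Y.map φ) * (X.map φ) := by
    rw [← Matrix.map_mul, ← Matrix.map_mul, hXY]
  have hnil : ∀ Z : Matrix (Fin n) (Fin n) V, IsNilpotent Z → IsNilpotent (Z.map φ) := by
    intro Z hZ
    have := hZ.map (φ.mapMatrix (m := Fin n))
    simpa using this
  obtain ⟨a, ha0, ha⟩ := exists_poly (X.map φ) (Y.map φ) (fun i => φ (v i)) hn hXY'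
    (hnil X hX) (hnil Y hY) hdet'
  have happ : ∀ k, ∃ (p : LP) (d : V), d ∈ IsLocalRing.maximalIdeal V ∧ a k - τ p = φ d := by
    intro k
    exact approx_frac hϖ hC hT hres (a k)
  choose p d hd hpd using happ
  let c : LP[X] := ∑ k ∈ Finset.range n, Polynomial.monomial k (if k = 0 then 0 else p k)
  have hcc : ∀ k, c.coeff k = if k < n then (if k = 0 then 0 else p k) else 0 := by
    intro k
    simp only [c, Polynomial.finset_sum_coeff, Polynomial.coeff_monomial]
    rw [Finset.sum_ite_eq' (Finset.range n) k]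
    simp only [Finset.mem_range]
  let dd : ℕ → V := fun k => if k = 0 then 0 else d k
  have hdd : ∀ k, dd k ∈ IsLocalRing.maximalIdeal V := by
    intro k
    by_cases hk : k = 0
    · simp [dd, hk]
    · simp only [dd, hk, if_false]; exact hd k
  have hrel : ∀ k < n, a k - τ (c.coeff k) = φ (dd k) := by
    intro k hk
    rw [hcc, if_pos hk]
    by_cases h0 : k = 0
    · simp [h0, dd, ha0]
    · simp only [dd, h0, if_false]; exact hpd k
  refine ⟨Y - ∑ k ∈ Finset.range n, dd k • X ^ k, c, ?_, ?_, ?_, ?_, ?_⟩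
  · rw [hcc]; simp
  · by_cases hc : c = 0
    · rw [hc, Polynomial.natDegree_zero]; exact hn
    · rw [Polynomial.natDegree_lt_iff_degree_lt hc, Polynomial.degree_lt_iff_coeff_zero]
      intro m hm
      rw [hcc, if_neg (by omega)]
  · have h1 : Commute X (∑ k ∈ Finset.range n, dd k • X ^ k) :=
      Commute.sum_right _ _ _ fun k _ => ((Commute.refl X).pow_right k).smul_right _
    exact ((show Commute X Y from hXY).sub_right h1).eq
  · intro i j
    rw [Matrix.sub_apply, sub_sub_cancel_left, Matrix.sum_apply]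
    refine neg_mem (Ideal.sum_mem _ fun k _ => ?_)
    rw [Matrix.smul_apply, smul_eq_mul]
    exact Ideal.mul_mem_right _ _ (hdd k)
  · have hpow : ∀ k, (X ^ k).map φ = (X.map φ) ^ k := by
      intro k
      have := map_pow (φ.mapMatrix (m := Fin n)) X k
      simpa using this
    have h1 : (Y - ∑ k ∈ Finset.range n, dd k • X ^ k).map φ
        = Y.map φ - ∑ k ∈ Finset.range n, φ (dd k) • (X.map φ) ^ k := by
      ext i j
      simp only [Matrix.map_apply, Matrix.sub_apply, Matrix.sum_apply, Matrix.smul_apply,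
        smul_eq_mul, map_sub, map_sum, map_mul, ← hpow]
    change (Y - ∑ k ∈ Finset.range n, dd k • X ^ k).map φ = ∑ k ∈ Finset.range n,
      τ (c.coeff k) • (X.map φ) ^ k
    rw [h1, ha, ← Finset.sum_sub_distrib]
    refine Finset.sum_congr rfl fun k hk => ?_
    rw [← sub_smul, ← hrel k (Finset.mem_range.1 hk), sub_sub_cancel]

end HR
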