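import Pool.Agent.H59.HR.Stm

set_option linter.all false

open Polynomial

namespace HR
namespace MA_aux

noncomputable abbrev inv : LP →+* LP := ((LaurentPolynomial.invert : LP ≃ₐ[ℂ] LP) : LP →+* LP)

theorem inv_apply (p : LP) : inv p = (LaurentPolynomial.invert : LP ≃ₐ[ℂ] LP) p := rfl

theorem inv_inv (p : LP) : inv (inv p) = p := by
  rw [inv_apply, inv_apply]
  exact LaurentPolynomial.involutive_invert p

theorem inv_CT (c : ℂ) (e : ℤ) : inv (LaurentPolynomial.C c * LaurentPolynomial.T e)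
    = LaurentPolynomial.C c * LaurentPolynomial.T (-e) := by
  rw [map_mul, inv_apply, inv_apply]
  simp

theorem limTan_lim {n : ℕ} {a : LP[X]} {f g : P2 ℂ} (h : LimTan n a f g) : Lim n a f := by
  obtain ⟨F, hF, H, hH⟩ := h
  refine ⟨F, hF, emb g + MvPolynomial.C X * H, ?_⟩
  rw [hH, pow_two, map_mul]; ring

theorem lim_mul {n : ℕ} {a : LP[X]} {f : P2 ℂ} (h : Lim n a f) (g : P2 ℂ) :
    Lim n a (g * f) := by
  obtain ⟨F, hF, H, hH⟩ := h
  refine ⟨emb g * F, Ideal.mul_mem_left _ _ hF, emb g * H, ?_⟩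
  rw [hH, map_mul]; ring

theorem coeff_aeval (p : ℂ[X]) :
    MvPolynomial.coeff (ex (0, 1)) (Polynomial.aeval (MvPolynomial.X 0 : P2 ℂ) p) = 0 := by
  induction p using Polynomial.induction_on' with
  | add p q hp hq => rw [map_add, MvPolynomial.coeff_add, hp, hq, add_zero]
  | monomial k c =>
    rw [Polynomial.aeval_monomial, MvPolynomial.X_pow_eq_monomial]
    rw [show algebraMap ℂ (P2 ℂ) c = MvPolynomial.C c from rfl, MvPolynomial.coeff_C_mul,
      MvPolynomial.coeff_monomial, if_neg, mul_zero]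
    intro h
    have h1 := DFunLike.congr_fun h 1
    simp at h1

theorem curv_ne (hMI : S_MI) {n : ℕ} {S : Finset (ℕ × ℕ)} (hS : IsLowerSet (S : Set (ℕ × ℕ)))
    (h01 : (0, 1) ∈ S) (a : ℂ[X]) : curv n a ≠ mIdeal S := by
  intro h
  have h1 : (MvPolynomial.X 1 : P2 ℂ) - Polynomial.aeval (MvPolynomial.X 0 : P2 ℂ) a ∈ curv n a := by
    rw [mem_curv, map_sub, ev_X1]
    have : ev a (Polynomial.aeval (MvPolynomial.X 0 : P2 ℂ) a) = a := by
      rw [← Polynomial.aeval_algHom_apply, ev_X0]; simp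
    rw [this, sub_self]
    exact dvd_zero _
  rw [h] at h1
  have h2 := ((hMI S hS).1 _).1 h1 (0, 1) h01
  rw [MvPolynomial.coeff_sub, coeff_aeval, sub_zero] at h2
  rw [show (MvPolynomial.X 1 : P2 ℂ) = mon ℂ (0, 1) by simp [mon], mon_eq,
    MvPolynomial.coeff_monomial, if_pos rfl] at h2
  exact one_ne_zero h2

theorem good_arc (hTW : S_TW) (hNC : S_NC) (hCB : S_CB) (hST : S_ST) (hJ1 : S_J1) (hTD : S_TD)
    (n : ℕ) (S : Finset (ℕ × ℕ)) (hS : IsLowerSet (S : Set (ℕ × ℕ))) (hc : S.card = n)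
    (h01 : (0, 1) ∈ S) (κ D B : ℕ) (hκ : 1 ≤ κ) (hκS : (κ, 0) ∉ S) (hκn : κ + 3 ≤ n ∨ n ≤ κ) :
    ∃ (b : LP[X]) (m₀ m' : ℕ × ℕ), (∀ k, k = 0 ∨ n ≤ k → b.coeff k = 0) ∧
      (∀ k, (b.coeff k).coeff 0 = 0) ∧ m' ∈ S ∧
      (∀ k, 1 ≤ k → m₀.1 + k = m'.1 → m'.2 + 1 ≠ m₀.2) ∧
      ∀ ρ : LP[X], (∀ k < κ, ρ.coeff k = 0) → ρ.natDegree < n →
      (∀ k, ∃ q : ℂ[X], LaurentPolynomial.T (D : ℤ) * ρ.coeff k = Polynomial.toLaurent q) →
      (∀ p : ℕ × ℕ, p ∉ S → p ≠ m₀ → p.1 ≤ B → p.2 ≤ B →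
        Lim n (b + ρ) (mon ℂ p)) ∧
      LimTan n (b + ρ) (mon ℂ m₀) (mon ℂ m') := by
  obtain ⟨m₀, m', α, β, hm₀, hm', hmin, hmax, hw, hβ, hH, hd1, hd2, hm0n⟩ := hCB n S hS hc h01
  obtain ⟨J, pq, hn, hpq, hJ, hJ0, hli, hfin, hrank, hx, hy⟩ :=
    hJ1 n S hS hc h01 m₀ m' hm₀ hm' hmin hmax hd1 hd2
  obtain ⟨c, hc0, hcd, hlim⟩ := hTD n hn J pq hpq hli hfin hrank hx hy
  have hst := hST n S hS hc h01 m₀ m' hm₀ hm' hmin hmax κ hκ hκS (by
    rcases hκn with h | h
    · exact Or.inl h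
    · exact Or.inr (lt_of_lt_of_le hm0n h))
  obtain ⟨N₀, hN₀⟩ := hTW n c S m₀ m' α β κ D B hc0 hκ (fun p hp hp0 => hlim _ (hJ p hp hp0))
    (hlim _ hJ0) hm₀ hm' hw hst
  obtain ⟨N₁, hN₁⟩ := hNC n c α β hβ
  refine ⟨tw α β (max N₀ N₁) c, m₀, m', ?_, ?_, hm', hH, hN₀ _ (le_max_left _ _)⟩
  · rintro k (rfl | hk)
    · rw [tw_coeff, hc0, map_zero, mul_zero]
    · rw [tw_coeff, Polynomial.coeff_eq_zero_of_natDegree_lt (lt_of_lt_of_le hcd hk), map_zero,
        mul_zero]
  · intro k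
    by_cases hk : 1 ≤ k ∧ k < n
    · exact hN₁ _ (le_max_right _ _) k hk.1 hk.2
    · have : k = 0 ∨ n ≤ k := by omega
      rcases this with rfl | hk
      · rw [tw_coeff, hc0, map_zero (pw _), mul_zero]; rfl
      · rw [tw_coeff, Polynomial.coeff_eq_zero_of_natDegree_lt (lt_of_lt_of_le hcd hk),
          map_zero (pw _), mul_zero]; rfl

theorem good_end (hMI : S_MI) (hB1 : S_B1) (n : ℕ) (S : Finset (ℕ × ℕ))
    (hS : IsLowerSet (S : Set (ℕ × ℕ))) (hc : S.card = n)
    (b r : LP[X]) (m₀ m' : ℕ × ℕ) (hm' : m' ∈ S)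
    (hH : ∀ k, 1 ≤ k → m₀.1 + k = m'.1 → m'.2 + 1 ≠ m₀.2)
    (hlim : ∀ p : ℕ × ℕ, p ∉ S → p ≠ m₀ → p.1 ≤ n → p.2 ≤ n → Lim n b (mon ℂ p))
    (htan : LimTan n b (mon ℂ m₀) (mon ℂ m'))
    (hr0 : r.coeff 0 = 0) (hr : ∀ k, ∃ q : ℂ[X], r.coeff k = Polynomial.toLaurent (X * q)) :
    GoodEnd n S (b + r) := by
  obtain ⟨h1, h2⟩ := hB1 n b r hr0 hr
  have hbox : ∀ p : ℕ × ℕ, p ∉ S → p.1 ≤ n → p.2 ≤ n → Lim n (b + r) (mon ℂ p) := by
    intro p hp hp1 hp2
    apply h1
    by_cases h : p = m₀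
    · rw [h]; exact limTan_lim htan
    · exact hlim p hp h hp1 hp2
  have hn0 : ∀ q : ℕ × ℕ, n ≤ q.1 ∨ n ≤ q.2 → q ∉ S := by
    intro q hq hqS
    rcases hq with hq | hq
    · have hsub : (Finset.range (n + 1)).image (fun i => (i, (0 : ℕ))) ⊆ S := by
        intro z hz
        rw [Finset.mem_image] at hz
        obtain ⟨i, hi, rfl⟩ := hz
        rw [Finset.mem_range] at hi
        exact hS (a := q) (show (i, 0) ≤ q from ⟨by simp; omega, by simp⟩) hqS
      have h3 := Finset.card_le_card hsub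
      rw [Finset.card_image_of_injective _ (fun a b h => by simpa using h), Finset.card_range,
        hc] at h3
      omega
    · have hsub : (Finset.range (n + 1)).image (fun i => ((0 : ℕ), i)) ⊆ S := by
        intro z hz
        rw [Finset.mem_image] at hz
        obtain ⟨i, hi, rfl⟩ := hz
        rw [Finset.mem_range] at hi
        exact hS (a := q) (show (0, i) ≤ q from ⟨by simp, by simp; omega⟩) hqS
      have h3 := Finset.card_le_card hsub
      rw [Finset.card_image_of_injective _ (fun a b h => by simpa using h), Finset.card_range,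
        hc] at h3
      omega
  refine ⟨?_, ?_⟩
  · intro p hp
    have hp' : (min p.1 n, min p.2 n) ∉ S := by
      by_cases h : p.1 ≤ n ∧ p.2 ≤ n
      · rw [min_eq_left h.1, min_eq_left h.2]; exact hp
      · apply hn0
        by_cases h1 : p.1 ≤ n
        · right
          have : ¬ p.2 ≤ n := fun h2 => h ⟨h1, h2⟩
          simp; omega
        · left; simp; omega
    have h3 := lim_mul (hbox _ hp' (min_le_right _ _) (min_le_right _ _))
      (mon ℂ (p.1 - min p.1 n, p.2 - min p.2 n))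
    rw [mon_mul] at h3
    convert h3 using 2
    ext
    · simp
    · simp
  · obtain ⟨g, hg, hg'⟩ := h2 m₀ m' htan hH
    refine ⟨_, g, hg, fun h => hg' (((hMI S hS).1 g).1 h m' hm')⟩

end MA_aux

open MA_aux

theorem MA (hMI : S_MI) (hA6 : S_A6) (hB1 : S_B1) (hTW : S_TW) (hNEG : S_NEG) (hNC : S_NC)
    (hGEN : S_GEN) (hCB : S_CB) (hST : S_ST) (hJ1 : S_J1) (hTD : S_TD) : S_MA := by
  intro n h4 S0 S1 hS0 hS1 hc0 hc1 hne h010 h011 hn3
  have hn0S : (n, 0) ∉ S0 := by
    intro h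
    have hsub : (Finset.range (n + 1)).image (fun i => (i, (0 : ℕ))) ⊆ S0 := by
      intro z hz
      rw [Finset.mem_image] at hz
      obtain ⟨i, hi, rfl⟩ := hz
      rw [Finset.mem_range] at hi
      exact hS0 (a := (n, 0)) (show (i, 0) ≤ (n, 0) from ⟨by simp; omega, by simp⟩) h
    have h3 := Finset.card_le_card hsub
    rw [Finset.card_image_of_injective _ (fun a b h => by simpa using h), Finset.card_range,
      hc0] at h3
    omega
  obtain ⟨b0, m0, m0', hb0z, hb0c, hm0', hH0, hb0⟩ :=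
    good_arc hTW hNC hCB hST hJ1 hTD n S0 hS0 hc0 h010 n 0 n (by omega) hn0S (Or.inr le_rfl)
  obtain ⟨b1, m1, m1', hb1z, hb1c, hm1', hH1, hb1⟩ :=
    good_arc hTW hNC hCB hST hJ1 hTD n S1 hS1 hc1 h011 (n - 3) 3 n (by omega) hn3
      (Or.inl (by omega))
  choose P0 q0 q0' hP0 hP0' using fun k => hNEG (b0.coeff k) (hb0c k)
  choose P1 q1 q1' hP1 hP1' using fun k => hNEG (b1.coeff k) (hb1c k)
  obtain ⟨r, r', hinj, himm⟩ := hGEN (fun j => P0 (n - 3 + j) + inv (P1 (n - 3 + j)))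
  set R : ℕ → ℂ := fun k => if h : k - (n - 3) < 3 then r ⟨k - (n - 3), h⟩ else 0 with hR
  set R' : ℕ → ℂ := fun k => if h : k - (n - 3) < 3 then r' ⟨k - (n - 3), h⟩ else 0 with hR'
  set E : ℕ → LP := fun k => if n - 3 ≤ k then
    LaurentPolynomial.C (R k) * LaurentPolynomial.T 2
      + LaurentPolynomial.C (R' k) * LaurentPolynomial.T 3 else 0 with hE
  set a : LP[X] := ∑ k ∈ Finset.Ico 1 n, Polynomial.monomial k (P0 k + inv (P1 k) + E k) with ha
  set ρ : LP[X] := ∑ k ∈ Finset.Ico 1 n, Polynomial.monomial k (inv (E k)) with hρ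
  have hac : ∀ k, a.coeff k = if 1 ≤ k ∧ k < n then P0 k + inv (P1 k) + E k else 0 := by
    intro k
    rw [ha, Polynomial.finset_sum_coeff]
    simp only [Polynomial.coeff_monomial]
    rw [Finset.sum_ite_eq' (Finset.Ico 1 n) k]
    simp only [Finset.mem_Ico]
  have hρc : ∀ k, ρ.coeff k = if 1 ≤ k ∧ k < n then inv (E k) else 0 := by
    intro k
    rw [hρ, Polynomial.finset_sum_coeff]
    simp only [Polynomial.coeff_monomial]
    rw [Finset.sum_ite_eq' (Finset.Ico 1 n) k]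
    simp only [Finset.mem_Ico]
  have ha0 : a.coeff 0 = 0 := by rw [hac, if_neg (by omega)]
  -- E is regular
  have hEreg : ∀ k, E k = Polynomial.toLaurent (X * (if n - 3 ≤ k then
      Polynomial.C (R k) * X + Polynomial.C (R' k) * X ^ 2 else 0)) := by
    intro k
    simp only [hE]
    split_ifs with h
    · rw [mul_add, map_add]
      rw [show (X : ℂ[X]) * (Polynomial.C (R k) * X) = Polynomial.C (R k) * X ^ 2 by ring,
        show (X : ℂ[X]) * (Polynomial.C (R' k) * X ^ 2) = Polynomial.C (R' k) * X ^ 3 by ring,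
        Polynomial.toLaurent_C_mul_X_pow, Polynomial.toLaurent_C_mul_X_pow]
      norm_num
    · simp
  have hEinv : ∀ k, ∃ q : ℂ[X],
      LaurentPolynomial.T ((3 : ℕ) : ℤ) * inv (E k) = Polynomial.toLaurent q := by
    intro k
    simp only [hE]
    split_ifs with h
    · refine ⟨Polynomial.C (R k) * X ^ 1 + Polynomial.C (R' k) * X ^ 0, ?_⟩
      rw [map_add (inv), inv_CT, inv_CT, map_add, Polynomial.toLaurent_C_mul_X_pow,
        Polynomial.toLaurent_C_mul_X_pow, mul_add]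
      rw [mul_left_comm, ← LaurentPolynomial.T_add, mul_left_comm, ← LaurentPolynomial.T_add]
      norm_num
    · exact ⟨0, by simp⟩
  -- the end at 0
  have hend0 : GoodEnd n S0 a := by
    obtain ⟨hl, ht⟩ := hb0 0 (by simp) (by simp; omega) (fun k => ⟨0, by simp⟩)
    rw [add_zero] at hl ht
    have h := good_end hMI hB1 n S0 hS0 hc0 b0 (a - b0) m0 m0' hm0' hH0 hl ht
      (by rw [Polynomial.coeff_sub, ha0, hb0z 0 (Or.inl rfl), sub_zero]) (by
        intro k
        rw [Polynomial.coeff_sub, hac]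
        by_cases hk : 1 ≤ k ∧ k < n
        · rw [if_pos hk]
          refine ⟨q1' k + (if n - 3 ≤ k then
            Polynomial.C (R k) * X + Polynomial.C (R' k) * X ^ 2 else 0) - q0 k, ?_⟩
          rw [mul_sub, mul_add, map_sub, map_add, ← hEreg, ← hP1' k, ← inv_apply]
          conv_lhs => rw [hP0 k]
          ring
        · rw [if_neg hk, hb0z k (by omega)]
          exact ⟨0, by simp⟩)
    rw [add_sub_cancel] at h
    exact h
  -- the end at infinity
  have hend1 : GoodEnd n S1 (a.map inv) := by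
    obtain ⟨hl, ht⟩ := hb1 ρ (by
        intro k hk
        rw [hρc]
        split_ifs with h
        · simp only [hE]; rw [if_neg (by omega), map_zero]
        · rfl)
      (by
        have hd : ρ.natDegree ≤ n - 1 := by
          rw [Polynomial.natDegree_le_iff_coeff_eq_zero]
          intro k hk
          rw [hρc, if_neg (by omega)]
        omega)
      (by
        intro k
        rw [hρc]
        split_ifs with h
        · exact hEinv k
        · exact ⟨0, by simp⟩)
    have h := good_end hMI hB1 n S1 hS1 hc1 (b1 + ρ) (a.map inv - (b1 + ρ)) m1 m1' hm1' hH1 hl ht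
      (by rw [Polynomial.coeff_sub, Polynomial.coeff_map, ha0, Polynomial.coeff_add,
            hb1z 0 (Or.inl rfl), hρc, if_neg (by omega)]; simp) (by
        intro k
        rw [Polynomial.coeff_sub, Polynomial.coeff_map, hac, Polynomial.coeff_add, hρc]
        by_cases hk : 1 ≤ k ∧ k < n
        · rw [if_pos hk, if_pos hk]
          refine ⟨q0' k - q1 k, ?_⟩
          rw [mul_sub, map_sub, ← hP0' k, ← inv_apply, map_add, map_add, MA_aux.inv_inv]
          conv_lhs => rw [hP1 k]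
          ring
        · rw [if_neg hk, if_neg hk, hb1z k (by omega)]
          exact ⟨0, by simp⟩)
    rw [add_sub_cancel] at h
    exact h
  have hcoef : ∀ j : Fin 3, a.coeff (n - 3 + j) = (P0 (n - 3 + j) + inv (P1 (n - 3 + j)))
      + LaurentPolynomial.C (r j) * LaurentPolynomial.T 2
      + LaurentPolynomial.C (r' j) * LaurentPolynomial.T 3 := by
    intro j
    have hj := j.2
    rw [hac, if_pos (by omega)]
    simp only [hE, hR, hR']
    rw [if_pos (by omega)]
    have h1 : n - 3 + (j : ℕ) - (n - 3) = j := by omega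
    simp only [h1]
    rw [dif_pos hj, dif_pos hj]
    simp only [add_assoc, Fin.eta]
  refine hA6 n (by omega) a ha0 S0 S1 hS0 hS1 hc0 hc1 hne hend0 hend1
    (fun t => curv_ne hMI hS0 h010 _) (fun t => curv_ne hMI hS1 h011 _) ?_ ?_
  · intro t₁ t₂ h
    apply hinj
    intro j
    have h1 := h (n - 3 + j) (by have := j.2; omega)
    have h2 : ∀ t : ℂˣ, lev t (a.coeff (n - 3 + j)) =
        lev t (P0 (n - 3 + j) + inv (P1 (n - 3 + j))) + r j * (t : ℂ) ^ 2 + r' j * (t : ℂ) ^ 3 := by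
      intro t
      rw [hcoef, map_add (lev t), map_add (lev t), lev_C_mul_T, lev_C_mul_T]
      congr 2
    rw [h2, h2] at h1
    exact h1
  · intro t
    obtain ⟨j, hj⟩ := himm t
    refine ⟨n - 3 + j, by have := j.2; omega, ?_⟩
    rw [hcoef, lD_add, lD_add, lD_C_mul_T, lD_C_mul_T, map_add, map_add, lev_C_mul_T, lev_C_mul_T]
    convert hj using 2
    · congr 1
      norm_num
      ring
    · norm_num
      ring

end HR
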