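import Pool.Agent.H59.HR.Stm

set_option linter.all false

open Polynomial

namespace HR

namespace NC_aux

theorem pw_C_mul_T (N : ℕ) (a : ℂ) (m : ℤ) :
    pw N (LaurentPolynomial.C a * LaurentPolynomial.T m)
      = LaurentPolynomial.C a * LaurentPolynomial.T (m * N) := by
  unfold pw
  rw [LaurentPolynomial.eval₂_C_mul_T]
  congr 1
  have key : ∀ k : ℕ, (((Tu (N : ℤ)) ^ k : LPˣ) : LP) = LaurentPolynomial.T ((k : ℤ) * N) := by
    intro k
    rw [Units.val_pow_eq_pow_val]
    show (LaurentPolynomial.T (N : ℤ) : LP) ^ k = _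
    rw [LaurentPolynomial.T_pow]
  have key2 : ∀ k : ℕ, ((((Tu (N : ℤ)) ^ k)⁻¹ : LPˣ) : LP)
      = LaurentPolynomial.T (-((k : ℤ) * N)) := by
    intro k
    rw [← Units.mul_left_inj ((Tu (N : ℤ)) ^ k), ← Units.val_mul, inv_mul_cancel, key,
      ← LaurentPolynomial.T_add]
    simp
  obtain ⟨k, rfl | rfl⟩ := Int.eq_nat_or_neg m
  · rw [zpow_natCast, key]
  · rw [zpow_neg, zpow_natCast, key2]
    congr 1
    ring

theorem coeff_T_mul_pw (N : ℕ) (m : ℤ) (hm : ¬ ((N : ℤ) ∣ m)) (p : LP) :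
    (LaurentPolynomial.T m * pw N p : LP).coeff 0 = 0 := by
  induction p using LaurentPolynomial.induction_on' with
  | add p q hp hq =>
    rw [map_add, mul_add]
    show (LaurentPolynomial.T m * pw N p : LP).coeff 0
      + (LaurentPolynomial.T m * pw N q : LP).coeff 0 = 0
    rw [hp, hq, add_zero]
  | C_mul_T e a =>
    rw [pw_C_mul_T, mul_comm, mul_assoc, ← LaurentPolynomial.T_add,
      ← LaurentPolynomial.single_eq_C_mul_T]
    show (Finsupp.single (e * N + m) a) 0 = 0
    rw [Finsupp.single_apply, if_neg]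
    intro h
    apply hm
    exact ⟨-e, by linarith⟩

end NC_aux

theorem NC : S_NC := by
  intro n c α β h
  refine ⟨n * α + β + 1, fun N hN k hk1 hk2 => ?_⟩
  rw [tw_coeff]
  apply NC_aux.coeff_T_mul_pw
  rintro ⟨d, hd⟩
  have hne : (β : ℤ) - k * α ≠ 0 := by
    intro h0
    apply h k hk1 hk2
    have : (β : ℤ) = k * α := by linarith
    exact_mod_cast this
  have hkα : (k : ℤ) * α ≤ n * α := by
    have : k * α ≤ n * α := Nat.mul_le_mul_right _ hk2.le
    exact_mod_cast this
  have hN' : ((n * α + β + 1 : ℕ) : ℤ) ≤ N := by exact_mod_cast hN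
  push_cast at hN'
  have hkα0 : (0 : ℤ) ≤ k * α := by positivity
  have hnα0 : (0 : ℤ) ≤ n * α := by positivity
  have hβ0 : (0 : ℤ) ≤ β := by positivity
  have hd0 : d ≠ 0 := by
    rintro rfl
    rw [mul_zero] at hd
    exact hne hd
  rcases lt_or_gt_of_ne hd0 with h1 | h1
  · have : (N : ℤ) * d ≤ N * (-1) := by
      apply mul_le_mul_of_nonneg_left (by omega) (by positivity)
    linarith
  · have : (N : ℤ) * 1 ≤ N * d := by
      apply mul_le_mul_of_nonneg_left (by omega) (by positivity)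
    linarith

end HR
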