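import Pool.Agent.H59.HR.Stm

set_option linter.all false

open Polynomial

namespace HR

namespace NEG_aux

theorem coeff_zero_X_mul (q : ℂ[X]) :
    (Polynomial.toLaurent (X * q) : LP).coeff 0 = 0 := by
  induction q using Polynomial.induction_on' with
  | add p q hp hq =>
    rw [mul_add, map_add]
    show (Polynomial.toLaurent (X * p) : LP).coeff 0 + (Polynomial.toLaurent (X * q) : LP).coeff 0
      = 0
    rw [hp, hq, add_zero]
  | monomial n a =>
    rw [Polynomial.X_mul_monomial, Polynomial.toLaurent_C_mul_T,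
      ← LaurentPolynomial.single_eq_C_mul_T]
    show (Finsupp.single ((n + 1 : ℕ) : ℤ) a) 0 = 0
    rw [Finsupp.single_apply, if_neg]
    omega

theorem decomp (p : LP) : ∃ (z : ℂ) (p₁ : LP) (q q' : ℂ[X]),
    p = LaurentPolynomial.C z + (p₁ + Polynomial.toLaurent (X * q)) ∧
    (LaurentPolynomial.invert : LP ≃ₐ[ℂ] LP) p₁ = Polynomial.toLaurent (X * q') := by
  induction p using LaurentPolynomial.induction_on' with
  | add p r hp hr =>
    obtain ⟨z, p₁, q, q', h1, h2⟩ := hp
    obtain ⟨w, r₁, s, s', h3, h4⟩ := hr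
    refine ⟨z + w, p₁ + r₁, q + s, q' + s', ?_, ?_⟩
    · rw [h1, h3, map_add, mul_add, map_add]; ring
    · rw [map_add, h2, h4, mul_add, map_add]
  | C_mul_T n a =>
    rcases lt_trichotomy n 0 with h | h | h
    · obtain ⟨m, hm⟩ : ∃ m : ℕ, n = -((m + 1 : ℕ) : ℤ) := ⟨(-n - 1).toNat, by omega⟩
      refine ⟨0, LaurentPolynomial.C a * LaurentPolynomial.T n, 0, Polynomial.monomial m a,
        by simp, ?_⟩
      rw [Polynomial.X_mul_monomial, Polynomial.toLaurent_C_mul_T, map_mul,
        LaurentPolynomial.invert_C, LaurentPolynomial.invert_T, hm, neg_neg]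
    · refine ⟨a, 0, 0, 0, by simp [h], by simp⟩
    · obtain ⟨m, hm⟩ : ∃ m : ℕ, n = ((m + 1 : ℕ) : ℤ) := ⟨(n - 1).toNat, by omega⟩
      refine ⟨0, 0, Polynomial.monomial m a, 0, ?_, by simp⟩
      rw [Polynomial.X_mul_monomial, Polynomial.toLaurent_C_mul_T, hm]
      simp

end NEG_aux

theorem NEG : S_NEG := by
  intro p hp
  obtain ⟨z, p₁, q, q', h1, h2⟩ := NEG_aux.decomp p
  have hp1 : p₁.coeff 0 = 0 := by
    have h := NEG_aux.coeff_zero_X_mul q'
    rw [← h2, LaurentPolynomial.invert_apply, neg_zero] at h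
    exact h
  have hz : z = 0 := by
    rw [h1] at hp
    have h3 : (LaurentPolynomial.C z : LP).coeff 0 + (p₁.coeff 0
      + (Polynomial.toLaurent (X * q) : LP).coeff 0) = 0 := hp
    rw [hp1, NEG_aux.coeff_zero_X_mul, add_zero, add_zero, LaurentPolynomial.C_apply,
      if_pos rfl] at h3
    exact h3
  refine ⟨p₁, q, q', ?_, h2⟩
  rw [h1, hz, map_zero, zero_add]

end HR
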