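import Pool.Agent.H59.HR.Stm

/-!
# OB: the one-box pencil
-/

set_option linter.all false

open Polynomial

namespace HR

namespace OB_aux

/-- data of a pencil: `a`, `b` are maximal in `W ∪ {a,b}`, everything below is in `W` -/
structure HW (W : Finset (ℕ × ℕ)) (a b : ℕ × ℕ) : Prop where
  ha : a ∉ W
  hb : b ∉ W
  hab : a ≠ b
  low : ∀ p, (p ∈ W ∨ p = a ∨ p = b) → ∀ q, q ≤ p → q ≠ p → q ∈ W

theorem HW.symm {W : Finset (ℕ × ℕ)} {a b : ℕ × ℕ} (h : HW W a b) : HW W b a where
  ha := h.hb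
  hb := h.ha
  hab := h.hab.symm
  low := fun p hp q h1 h2 => h.low p (by tauto) q h1 h2

theorem coeff_mon {A : Type*} [CommRing A] (p q : ℕ × ℕ) [Decidable (p = q)] :
    MvPolynomial.coeff (ex p) (mon A q) = if p = q then 1 else 0 := by
  rw [mon_eq, MvPolynomial.coeff_monomial]
  by_cases h : p = q
  · subst h; simp
  · rw [if_neg h, if_neg]
    intro h'
    exact h (ex_inj h').symm

theorem coeff_mul_U {A : Type*} [CommRing A] {W : Finset (ℕ × ℕ)} {a b : ℕ × ℕ} (h : HW W a b)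
    (g F : P2 A) (hF : ∀ p ∈ W, MvPolynomial.coeff (ex p) F = 0) (p : ℕ × ℕ)
    (hp : p ∈ W ∨ p = a ∨ p = b) :
    MvPolynomial.coeff (ex p) (g * F)
      = MvPolynomial.coeff 0 g * MvPolynomial.coeff (ex p) F := by
  rw [MvPolynomial.coeff_mul]
  rw [Finset.sum_eq_single ((0 : Fin 2 →₀ ℕ), ex p)]
  · rintro ⟨u, v⟩ huv hne
    rw [Finset.HasAntidiagonal.mem_antidiagonal] at huv
    simp only at huv
    have hv : v ≠ ex p := by
      rintro rfl
      apply hne
      have : u = 0 := by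
        have := huv
        simpa using this
      rw [this]
    have hq : ((v 0, v 1) : ℕ × ℕ) ∈ W := by
      refine h.low p hp _ ?_ ?_
      · constructor
        · have := DFunLike.congr_fun huv 0
          simp at this
          show v 0 ≤ p.1
          omega
        · have := DFunLike.congr_fun huv 1
          simp at this
          show v 1 ≤ p.2
          omega
      · intro h'
        apply hv
        rw [← h', ex_eq]
    have := hF _ hq
    rw [ex_eq] at this
    simp [this]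
  · intro h'
    exact absurd (by simp) h'

/-- the ideal of the pencil -/
noncomputable def KI {A : Type*} [CommRing A] {W : Finset (ℕ × ℕ)} {a b : ℕ × ℕ}
    (h : HW W a b) (τ : A) : Ideal (P2 A) where
  carrier := {F | (∀ p ∈ W, MvPolynomial.coeff (ex p) F = 0) ∧
    MvPolynomial.coeff (ex a) F = τ * MvPolynomial.coeff (ex b) F}
  add_mem' := by
    rintro F G ⟨h1, h2⟩ ⟨h3, h4⟩
    refine ⟨fun p hp => ?_, ?_⟩
    · rw [MvPolynomial.coeff_add, h1 p hp, h3 p hp, add_zero]
    · rw [MvPolynomial.coeff_add, MvPolynomial.coeff_add, h2, h4]; ring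
  zero_mem' := by
    refine ⟨fun p hp => ?_, ?_⟩ <;> simp
  smul_mem' := by
    rintro g F ⟨h1, h2⟩
    refine ⟨fun p hp => ?_, ?_⟩
    · rw [smul_eq_mul, coeff_mul_U h g F h1 p (Or.inl hp), h1 p hp, mul_zero]
    · rw [smul_eq_mul, coeff_mul_U h g F h1 a (by tauto), coeff_mul_U h g F h1 b (by tauto), h2]
      ring

theorem mem_KI {A : Type*} [CommRing A] {W : Finset (ℕ × ℕ)} {a b : ℕ × ℕ}
    (h : HW W a b) (τ : A) (F : P2 A) : F ∈ KI h τ ↔
      (∀ p ∈ W, MvPolynomial.coeff (ex p) F = 0) ∧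
      MvPolynomial.coeff (ex a) F = τ * MvPolynomial.coeff (ex b) F := Iff.rfl

theorem mem_span_of {A : Type*} [CommRing A] (P : ℕ × ℕ → Prop) (G : P2 A)
    (hG : ∀ p, P p → MvPolynomial.coeff (ex p) G = 0) :
    G ∈ Ideal.span {m : P2 A | ∃ p, ¬ P p ∧ m = mon A p} := by
  rw [G.as_sum]
  refine Ideal.sum_mem _ fun m hm => ?_
  have h1 : MvPolynomial.monomial m (MvPolynomial.coeff m G)
      = MvPolynomial.C (MvPolynomial.coeff m G) * mon A (m 0, m 1) := by
    rw [mon_eq, ex_eq, MvPolynomial.C_mul_monomial, mul_one]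
  rw [h1]
  refine Ideal.mul_mem_left _ _ (Ideal.subset_span ⟨_, ?_, rfl⟩)
  intro hP
  have := hG _ hP
  rw [ex_eq] at this
  exact (MvPolynomial.mem_support_iff.1 hm) this

theorem mon_mem {A : Type*} [CommRing A] {W : Finset (ℕ × ℕ)} {a b : ℕ × ℕ}
    (h : HW W a b) (τ : A) (p : ℕ × ℕ) (hp : ¬ (p ∈ W ∨ p = a ∨ p = b)) : mon A p ∈ KI h τ := by
  classical
  rw [mem_KI]
  push Not at hp
  obtain ⟨h1, h2, h3⟩ := hp
  refine ⟨fun q hq => ?_, ?_⟩
  · rw [coeff_mon, if_neg]; rintro rfl; exact h1 hq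
  · rw [coeff_mon, coeff_mon, if_neg (Ne.symm h2), if_neg (Ne.symm h3), mul_zero]

theorem gen_mem {A : Type*} [CommRing A] {W : Finset (ℕ × ℕ)} {a b : ℕ × ℕ}
    (h : HW W a b) (τ : A) : mon A b + MvPolynomial.C τ * mon A a ∈ KI h τ := by
  classical
  rw [mem_KI]
  refine ⟨fun q hq => ?_, ?_⟩
  · rw [MvPolynomial.coeff_add, MvPolynomial.coeff_C_mul, coeff_mon, coeff_mon, if_neg, if_neg]
    · simp
    · rintro rfl; exact h.ha hq
    · rintro rfl; exact h.hb hq
  · rw [MvPolynomial.coeff_add, MvPolynomial.coeff_C_mul, coeff_mon, coeff_mon,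
      MvPolynomial.coeff_add, MvPolynomial.coeff_C_mul, coeff_mon, coeff_mon,
      if_neg h.hab, if_neg h.hab.symm]
    simp

theorem map_KI {A B : Type*} [CommRing A] [CommRing B] (φ : A →+* B) {W : Finset (ℕ × ℕ)}
    {a b : ℕ × ℕ} (h : HW W a b) (τ : A) :
    (KI h τ).map (MvPolynomial.map φ) = KI h (φ τ) := by
  classical
  apply le_antisymm
  · rw [Ideal.map_le_iff_le_comap]
    intro F hF
    rw [Ideal.mem_comap, mem_KI]
    rw [mem_KI] at hF
    refine ⟨fun p hp => ?_, ?_⟩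
    · rw [MvPolynomial.coeff_map, hF.1 p hp, map_zero]
    · rw [MvPolynomial.coeff_map, MvPolynomial.coeff_map, hF.2, map_mul]
  · intro G hG
    rw [mem_KI] at hG
    have e : G = (G - MvPolynomial.C (MvPolynomial.coeff (ex b) G) *
        (mon B b + MvPolynomial.C (φ τ) * mon B a)) +
        MvPolynomial.C (MvPolynomial.coeff (ex b) G) *
        (mon B b + MvPolynomial.C (φ τ) * mon B a) := by ring
    rw [e]
    have hm : ∀ p, MvPolynomial.map φ (mon A p) = mon B p := fun p => by simp [mon]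
    refine Ideal.add_mem _ ?_ ?_
    · have h1 := mem_span_of (fun p => p ∈ W ∨ p = a ∨ p = b)
        (G - MvPolynomial.C (MvPolynomial.coeff (ex b) G) *
          (mon B b + MvPolynomial.C (φ τ) * mon B a)) ?_
      · refine (Ideal.span_le.2 ?_) h1
        rintro m ⟨p, hp, rfl⟩
        rw [← hm p]
        exact Ideal.mem_map_of_mem _ (mon_mem h τ p hp)
      · rintro p (hp | rfl | rfl)
        · rw [MvPolynomial.coeff_sub, MvPolynomial.coeff_C_mul, MvPolynomial.coeff_add,
            MvPolynomial.coeff_C_mul, coeff_mon, coeff_mon, hG.1 p hp, if_neg, if_neg]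
          · simp
          · rintro rfl; exact h.ha hp
          · rintro rfl; exact h.hb hp
        · rw [MvPolynomial.coeff_sub, MvPolynomial.coeff_C_mul, MvPolynomial.coeff_add,
            MvPolynomial.coeff_C_mul, coeff_mon, coeff_mon, hG.2, if_neg h.hab, if_pos rfl]
          ring
        · rw [MvPolynomial.coeff_sub, MvPolynomial.coeff_C_mul, MvPolynomial.coeff_add,
            MvPolynomial.coeff_C_mul, coeff_mon, coeff_mon, if_neg h.hab.symm, if_pos rfl]
          ring
    · refine Ideal.mul_mem_left _ _ ?_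
      have : mon B b + MvPolynomial.C (φ τ) * mon B a
          = MvPolynomial.map φ (mon A b + MvPolynomial.C τ * mon A a) := by
        rw [map_add, map_mul, MvPolynomial.map_C, hm, hm]
      rw [this]
      exact Ideal.mem_map_of_mem _ (gen_mem h τ)

/-- coordinates on the quotient -/
noncomputable def Phi (A : Type*) [CommRing A] (W : Finset (ℕ × ℕ)) (a b : ℕ × ℕ) (τ : A) :
    P2 A →ₗ[A] ((W → A) × A) :=
  LinearMap.prod
    (LinearMap.pi fun p : W => MvPolynomial.lcoeff A (ex (p : ℕ × ℕ)))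
    (MvPolynomial.lcoeff A (ex a) - τ • MvPolynomial.lcoeff A (ex b))

theorem Phi_surj {A : Type*} [CommRing A] {W : Finset (ℕ × ℕ)} {a b : ℕ × ℕ}
    (h : HW W a b) (τ : A) : Function.Surjective (Phi A W a b τ) := by
  classical
  rintro ⟨c, d⟩
  refine ⟨∑ p : W, MvPolynomial.C (c p) * mon A (p : ℕ × ℕ) + MvPolynomial.C d * mon A a, ?_⟩
  have key : ∀ q : ℕ × ℕ, MvPolynomial.coeff (ex q)
      (∑ p : W, MvPolynomial.C (c p) * mon A (p : ℕ × ℕ) + MvPolynomial.C d * mon A a)
      = (if hq : q ∈ W then c ⟨q, hq⟩ else 0) + d * (if q = a then 1 else 0) := by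
    intro q
    rw [MvPolynomial.coeff_add, MvPolynomial.coeff_C_mul, coeff_mon, MvPolynomial.coeff_sum]
    congr 1
    simp only [MvPolynomial.coeff_C_mul, coeff_mon]
    split_ifs with hq
    · rw [Finset.sum_eq_single (⟨q, hq⟩ : W)]
      · simp
      · intro p _ hp
        rw [if_neg, mul_zero]
        intro h'; exact hp (Subtype.ext h'.symm)
      · intro h'; exact absurd (Finset.mem_univ _) h'
    · apply Finset.sum_eq_zero
      intro p _
      rw [if_neg, mul_zero]
      rintro rfl; exact hq p.2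
  refine Prod.ext ?_ ?_
  · funext q
    refine (key q).trans ?_
    rw [dif_pos q.2, if_neg]
    · simp
    · intro h'; exact h.ha (h' ▸ q.2)
  · refine (congrArg₂ (fun u v => u - τ * v) (key a) (key b)).trans ?_
    simp only [dif_neg h.ha, dif_neg h.hb, if_neg h.hab.symm, if_true]
    ring

theorem ker_Phi {A : Type*} [CommRing A] {W : Finset (ℕ × ℕ)} {a b : ℕ × ℕ}
    (h : HW W a b) (τ : A) :
    LinearMap.ker (Phi A W a b τ) = (KI h τ).restrictScalars A := by
  ext F
  rw [LinearMap.mem_ker, Submodule.restrictScalars_mem, mem_KI]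
  constructor
  · intro hF
    have h1 := congrArg Prod.fst hF
    have h2 := congrArg Prod.snd hF
    refine ⟨fun p hp => ?_, ?_⟩
    · exact congrFun h1 ⟨p, hp⟩
    · have h3 : MvPolynomial.coeff (ex a) F - τ * MvPolynomial.coeff (ex b) F = 0 := h2
      linear_combination h3
  · rintro ⟨h1, h2⟩
    refine Prod.ext ?_ ?_
    · funext p
      exact h1 p p.2
    · show MvPolynomial.coeff (ex a) F - τ * MvPolynomial.coeff (ex b) F = 0
      rw [h2]; ring

noncomputable def quotEquiv {A : Type*} [CommRing A] {W : Finset (ℕ × ℕ)} {a b : ℕ × ℕ}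
    (h : HW W a b) (τ : A) : (P2 A ⧸ KI h τ) ≃ₗ[A] ((W → A) × A) :=
  (Submodule.Quotient.restrictScalarsEquiv A (KI h τ)).symm ≪≫ₗ
    (Submodule.quotEquivOfEq _ _ (ker_Phi h τ).symm) ≪≫ₗ
    (Phi A W a b τ).quotKerEquivOfSurjective (Phi_surj h τ)

theorem mIdeal_eq {W : Finset (ℕ × ℕ)} {a b : ℕ × ℕ} (h : HW W a b) (S : Finset (ℕ × ℕ))
    (hS : ∀ p, p ∈ S ↔ p ∈ W ∨ p = a) : KI h (0 : ℂ) = mIdeal S := by
  classical
  apply le_antisymm
  · intro G hG
    rw [mem_KI] at hG
    have := mem_span_of (fun p => p ∈ S) G (by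
      intro p hp
      rcases (hS p).1 hp with h1 | rfl
      · exact hG.1 p h1
      · rw [hG.2, zero_mul])
    exact this
  · rw [mIdeal, Ideal.span_le]
    rintro m ⟨p, hp, rfl⟩
    show mon ℂ p ∈ KI h (0 : ℂ)
    rw [mem_KI]
    rw [hS] at hp
    push Not at hp
    refine ⟨fun q hq => ?_, ?_⟩
    · rw [coeff_mon, if_neg]; rintro rfl; exact hp.1 hq
    · rw [coeff_mon, if_neg (Ne.symm hp.2), zero_mul]

theorem glue {W : Finset (ℕ × ℕ)} {a b : ℕ × ℕ} (h : HW W a b) :
    (KI h (X : ℂ[X])).map (MvPolynomial.map (Polynomial.toLaurent : ℂ[X] →+* LP))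
      = (KI h.symm (X : ℂ[X])).map (MvPolynomial.map toLaurentInv) := by
  rw [map_KI, map_KI]
  have e1 : (Polynomial.toLaurent : ℂ[X] →+* LP) X = LaurentPolynomial.T 1 := by
    simp
  have e2 : toLaurentInv (X : ℂ[X]) = LaurentPolynomial.T (-1) := by
    simp [toLaurentInv]
  have e3 : (LaurentPolynomial.T 1 : LP) * LaurentPolynomial.T (-1) = 1 := by
    rw [← LaurentPolynomial.T_add]; simp
  rw [e1, e2]
  ext F
  rw [mem_KI, mem_KI]
  constructor
  · rintro ⟨h1, h2⟩
    refine ⟨h1, ?_⟩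
    rw [h2, ← mul_assoc, mul_comm (LaurentPolynomial.T (-1)), e3, one_mul]
  · rintro ⟨h1, h2⟩
    refine ⟨h1, ?_⟩
    rw [h2, ← mul_assoc, e3, one_mul]

/-- the pencil as a morphism `P^1 → Hilb` -/
noncomputable def curve {W : Finset (ℕ × ℕ)} {a b : ℕ × ℕ} (h : HW W a b) (n : ℕ)
    (hn : W.card + 1 = n) : RatCurve n where
  I0 := KI h (X : ℂ[X])
  I1 := KI h.symm (X : ℂ[X])
  free0 := Module.Free.of_equiv (quotEquiv h (X : ℂ[X])).symm
  finite0 := Module.Finite.equiv (quotEquiv h (X : ℂ[X])).symm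
  rank0 := by
    rw [(quotEquiv h (X : ℂ[X])).finrank_eq, Module.finrank_prod, Module.finrank_fintype_fun_eq_card,
      Module.finrank_self, Fintype.card_coe, hn]
  free1 := Module.Free.of_equiv (quotEquiv h.symm (X : ℂ[X])).symm
  finite1 := Module.Finite.equiv (quotEquiv h.symm (X : ℂ[X])).symm
  rank1 := by
    rw [(quotEquiv h.symm (X : ℂ[X])).finrank_eq, Module.finrank_prod,
      Module.finrank_fintype_fun_eq_card, Module.finrank_self, Fintype.card_coe, hn]
  glue := glue h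

theorem fibre_KI {W : Finset (ℕ × ℕ)} {a b : ℕ × ℕ} (h : HW W a b) (t : ℂ) :
    fibre (KI h (X : ℂ[X])) t = KI h t := by
  rw [fibre, map_KI]; simp

theorem first_KI {W : Finset (ℕ × ℕ)} {a b : ℕ × ℕ} (h : HW W a b) (t : ℂ) :
    ∃ f g : P2 ℂ, FirstOrder (KI h (X : ℂ[X])) t f g ∧ g ∉ fibre (KI h (X : ℂ[X])) t := by
  classical
  refine ⟨mon ℂ b + MvPolynomial.C t * mon ℂ a, mon ℂ a, ⟨_, gen_mem h (X : ℂ[X]), 0, ?_⟩, ?_⟩
  · have e1 : emb (mon ℂ b + MvPolynomial.C t * mon ℂ a)
        = mon ℂ[X] b + MvPolynomial.C (C t) * mon ℂ[X] a := by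
      rw [map_add, map_mul, emb_mon, emb_mon]
      congr 2
      simp [emb]
    rw [e1, emb_mon, mul_zero, add_zero, MvPolynomial.C_sub]
    ring
  · rw [fibre_KI, mem_KI]
    rintro ⟨-, h2⟩
    rw [coeff_mon, coeff_mon, if_pos rfl, if_neg h.hab.symm] at h2
    simp at h2

theorem closed {W : Finset (ℕ × ℕ)} {a b : ℕ × ℕ} (h : HW W a b) (n : ℕ)
    (hn : W.card + 1 = n) : (curve h n hn).IsClosedEmbedding := by
  classical
  have hs : ∀ t, (curve h n hn).point (some t) = KI h t := fun t => fibre_KI h t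
  have hi : (curve h n hn).point none = KI h.symm 0 := fibre_KI h.symm 0
  have hne : ∀ t : ℂ, KI h t ≠ KI h.symm (0 : ℂ) := by
    intro t ht
    have h1 := gen_mem h t
    rw [ht, mem_KI] at h1
    have h2 := h1.2
    rw [zero_mul, MvPolynomial.coeff_add, MvPolynomial.coeff_C_mul, coeff_mon, coeff_mon,
      if_pos rfl, if_neg h.hab.symm] at h2
    simp at h2
  refine ⟨?_, fun t => first_KI h t, first_KI h.symm 0⟩
  intro s t hst
  rcases s with _ | s <;> rcases t with _ | t
  · rfl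
  · rw [hs, hi] at hst
    exact absurd hst.symm (hne t)
  · rw [hs, hi] at hst
    exact absurd hst (hne s)
  · rw [hs, hs] at hst
    have h1 := gen_mem h s
    rw [hst, mem_KI] at h1
    have h2 := h1.2
    rw [MvPolynomial.coeff_add, MvPolynomial.coeff_C_mul, coeff_mon, coeff_mon,
      MvPolynomial.coeff_add, MvPolynomial.coeff_C_mul, coeff_mon, coeff_mon,
      if_neg h.hab, if_neg h.hab.symm, if_pos rfl, if_pos rfl] at h2
    simp at h2
    rw [h2]

end OB_aux

open OB_aux in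
theorem OB : S_OB := by
  classical
  intro n S0 S1 hl0 hl1 hc0 hc1 hU
  have hcap : (S0 ∩ S1).card + 1 = n := by
    have := Finset.card_union_add_card_inter S0 S1
    omega
  have h0 : (S0 \ S1).card = 1 := by
    have := Finset.card_sdiff_add_card_inter S0 S1
    omega
  have h1 : (S1 \ S0).card = 1 := by
    have := Finset.card_sdiff_add_card_inter S1 S0
    rw [Finset.inter_comm] at this
    omega
  obtain ⟨a, ha⟩ := Finset.card_eq_one.1 h0
  obtain ⟨b, hb⟩ := Finset.card_eq_one.1 h1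
  have ha' : ∀ p, (p ∈ S0 ∧ p ∉ S1) ↔ p = a := by
    intro p
    rw [← Finset.mem_sdiff, ha, Finset.mem_singleton]
  have hb' : ∀ p, (p ∈ S1 ∧ p ∉ S0) ↔ p = b := by
    intro p
    rw [← Finset.mem_sdiff, hb, Finset.mem_singleton]
  have haS := (ha' a).2 rfl
  have hbS := (hb' b).2 rfl
  have hw : HW (S0 ∩ S1) a b := by
    refine ⟨?_, ?_, ?_, ?_⟩
    · intro h; exact haS.2 (Finset.mem_inter.1 h).2
    · intro h; exact hbS.2 (Finset.mem_inter.1 h).1
    · rintro rfl; exact haS.2 hbS.1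
    · intro p hp q hq hne
      rcases hp with hp | rfl | rfl
      · rw [Finset.mem_inter] at hp ⊢
        exact ⟨hl0 hq hp.1, hl1 hq hp.2⟩
      · have hq0 : q ∈ S0 := hl0 hq haS.1
        rw [Finset.mem_inter]
        refine ⟨hq0, ?_⟩
        by_contra hq1
        exact hne ((ha' q).1 ⟨hq0, hq1⟩)
      · have hq1 : q ∈ S1 := hl1 hq hbS.1
        rw [Finset.mem_inter]
        refine ⟨?_, hq1⟩
        by_contra hq0
        exact hne ((hb' q).1 ⟨hq1, hq0⟩)
  refine ⟨curve hw n hcap, closed hw n hcap, ⟨some 0, ?_⟩, ⟨none, ?_⟩⟩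
  · show fibre (KI hw (X : ℂ[X])) 0 = _
    rw [fibre_KI]
    apply mIdeal_eq
    intro p
    rw [Finset.mem_inter, ← ha' p]
    tauto
  · show fibre (KI hw.symm (X : ℂ[X])) 0 = _
    rw [fibre_KI]
    apply mIdeal_eq
    intro p
    rw [Finset.mem_inter, ← hb' p]
    tauto

end HR
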