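import Pool.Agent.H59.HR.Stm

set_option linter.all false

open Polynomial

namespace HR

namespace RC_aux

/-- the arc `T^e X` -/
noncomputable def arc (e : ℤ) : LP[X] := Polynomial.monomial 1 (LaurentPolynomial.T e)

theorem arc_eq (e : ℤ) : arc e = Polynomial.C (LaurentPolynomial.T e) * Polynomial.X := by
  rw [arc, Polynomial.C_mul_X_eq_monomial]

theorem coeff_of_mem (S : Finset (ℕ × ℕ)) (hS : IsLowerSet (S : Set (ℕ × ℕ))) (f : P2 ℂ)
    (hf : f ∈ mIdeal S) : ∀ p ∈ S, MvPolynomial.coeff (ex p) f = 0 := by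
  unfold mIdeal at hf
  induction hf using Submodule.span_induction with
  | mem x hx =>
    intro p hp
    obtain ⟨q, hq, rfl⟩ := hx
    rw [mon_eq, MvPolynomial.coeff_monomial, if_neg]
    intro h
    exact hq (ex_inj h ▸ hp)
  | zero => intro p hp; simp
  | add x y _ _ hx hy => intro p hp; rw [MvPolynomial.coeff_add, hx p hp, hy p hp, add_zero]
  | smul a x hx' hx =>
    intro p hp
    rw [smul_eq_mul, MvPolynomial.coeff_mul]
    apply Finset.sum_eq_zero
    intro uv huv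
    rw [Finset.HasAntidiagonal.mem_antidiagonal] at huv
    have h0 : uv.1 0 + uv.2 0 = p.1 := by
      have := DFunLike.congr_fun huv 0
      simpa using this
    have h1 : uv.1 1 + uv.2 1 = p.2 := by
      have := DFunLike.congr_fun huv 1
      simpa using this
    have hmem : (uv.2 0, uv.2 1) ∈ S := by
      have hle : ((uv.2 0, uv.2 1) : ℕ × ℕ) ≤ p := by
        obtain ⟨p1, p2⟩ := p
        exact Prod.mk_le_mk.mpr ⟨by simp at h0; omega, by simp at h1; omega⟩
      exact hS hle hp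
    have := hx _ hmem
    rw [ex_eq] at this
    rw [this, mul_zero]

theorem map_mon {A B : Type*} [CommRing A] [CommRing B] (φ : A →+* B) (p : ℕ × ℕ) :
    MvPolynomial.map φ (mon A p) = mon B p := by
  simp [mon]

theorem mem_big (n : ℕ) (e : ℤ) (p : ℕ × ℕ) (h : n ≤ p.1 + p.2) :
    mon ℂ[X] p ∈ fam n (arc e) := by
  rw [mem_fam, map_mon, ev_mon, arc_eq, mul_pow, ← Polynomial.C_pow]
  have : (Polynomial.X : LP[X]) ^ p.1 * (Polynomial.C (LaurentPolynomial.T e ^ p.2)
      * Polynomial.X ^ p.2) = Polynomial.X ^ (p.1 + p.2)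
        * Polynomial.C (LaurentPolynomial.T e ^ p.2) := by
    rw [pow_add]; ring
  rw [this]
  exact Dvd.dvd.mul_right (pow_dvd_pow _ h) _

theorem lim_big (n : ℕ) (e : ℤ) (p : ℕ × ℕ) (h : n ≤ p.1 + p.2) :
    Lim n (arc e) (mon ℂ p) :=
  ⟨mon ℂ[X] p, mem_big n e p h, 0, by rw [emb_mon, mul_zero, add_zero]⟩

theorem mem1 (n : ℕ) (i j : ℕ) :
    mon ℂ[X] (i, j + 1) - MvPolynomial.C X * mon ℂ[X] (i + 1, j) ∈ fam n (arc 1) := by
  rw [mem_fam, map_sub, map_mul, map_mon, map_mon, MvPolynomial.map_C, map_sub, map_mul,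
    ev_mon, ev_mon, ev_C, Polynomial.toLaurent_X, arc_eq]
  have : (Polynomial.X : LP[X]) ^ ((i, j + 1) : ℕ × ℕ).1
      * (Polynomial.C (LaurentPolynomial.T 1) * Polynomial.X) ^ ((i, j + 1) : ℕ × ℕ).2
      - Polynomial.C (LaurentPolynomial.T 1) * (Polynomial.X ^ ((i + 1, j) : ℕ × ℕ).1
      * (Polynomial.C (LaurentPolynomial.T 1) * Polynomial.X) ^ ((i + 1, j) : ℕ × ℕ).2) = 0 := by
    simp only
    ring
  rw [this]
  exact dvd_zero _

theorem mem2 (n : ℕ) (i j : ℕ) :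
    mon ℂ[X] (i + 1, j) - MvPolynomial.C X * mon ℂ[X] (i, j + 1) ∈ fam n (arc (-1)) := by
  rw [mem_fam, map_sub, map_mul, map_mon, map_mon, MvPolynomial.map_C, map_sub, map_mul,
    ev_mon, ev_mon, ev_C, Polynomial.toLaurent_X, arc_eq]
  have hT : (Polynomial.C (LaurentPolynomial.T 1) : LP[X]) * Polynomial.C (LaurentPolynomial.T (-1))
      = 1 := by
    rw [← Polynomial.C_mul, ← LaurentPolynomial.T_add]
    simp
  have : (Polynomial.X : LP[X]) ^ ((i + 1, j) : ℕ × ℕ).1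
      * (Polynomial.C (LaurentPolynomial.T (-1)) * Polynomial.X) ^ ((i + 1, j) : ℕ × ℕ).2
      - Polynomial.C (LaurentPolynomial.T 1) * (Polynomial.X ^ ((i, j + 1) : ℕ × ℕ).1
      * (Polynomial.C (LaurentPolynomial.T (-1)) * Polynomial.X) ^ ((i, j + 1) : ℕ × ℕ).2) = 0 := by
    simp only
    have h1 : (Polynomial.X : LP[X]) ^ (i + 1)
        * (Polynomial.C (LaurentPolynomial.T (-1)) * Polynomial.X) ^ j
      - Polynomial.C (LaurentPolynomial.T 1) * (Polynomial.X ^ i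
      * (Polynomial.C (LaurentPolynomial.T (-1)) * Polynomial.X) ^ (j + 1))
      = Polynomial.X ^ (i + 1) * (Polynomial.C (LaurentPolynomial.T (-1)) * Polynomial.X) ^ j
        * (1 - Polynomial.C (LaurentPolynomial.T 1) * Polynomial.C (LaurentPolynomial.T (-1))) := by
      ring
    rw [h1, hT, sub_self, mul_zero]
  rw [this]
  exact dvd_zero _

theorem lim1 (n : ℕ) (i j : ℕ) : Lim n (arc 1) (mon ℂ (i, j + 1)) :=
  ⟨_, mem1 n i j, - mon ℂ[X] (i + 1, j), by rw [emb_mon]; ring⟩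

theorem lim2 (n : ℕ) (i j : ℕ) : Lim n (arc (-1)) (mon ℂ (i + 1, j)) :=
  ⟨_, mem2 n i j, - mon ℂ[X] (i, j + 1), by rw [emb_mon]; ring⟩

theorem emb_neg_mon (p : ℕ × ℕ) : emb (- mon ℂ p) = - mon ℂ[X] p := by
  rw [map_neg, emb_mon]

theorem arc_map_invert : (arc 1).map ((LaurentPolynomial.invert : LP ≃ₐ[ℂ] LP) : LP →+* LP)
    = arc (-1) := by
  rw [arc, arc, Polynomial.map_monomial]
  congr 1
  show LaurentPolynomial.invert (LaurentPolynomial.T 1 : LP) = _
  rw [LaurentPolynomial.invert_T]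

theorem lev_T (t : ℂˣ) : lev t (LaurentPolynomial.T 1) = (t : ℂ) := by
  have := lev_C_mul_T t 1 1
  rw [map_one, one_mul, one_mul, zpow_one] at this
  exact this

theorem row (n : ℕ) (S : Finset (ℕ × ℕ)) (hS : IsLowerSet (S : Set (ℕ × ℕ))) (hc : S.card = n)
    (h : (0, 1) ∉ S) (p : ℕ × ℕ) (hp : p ∉ S) : n ≤ p.1 ∨ 1 ≤ p.2 := by
  by_contra hcon
  push Not at hcon
  obtain ⟨h1, h2⟩ := hcon
  have hp2 : p.2 = 0 := by omega
  have hsub : S ⊆ (Finset.range p.1).image (fun x => (x, 0)) := by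
    intro s hs
    rw [Finset.mem_image]
    have hs2 : s.2 = 0 := by
      by_contra hne
      apply h
      have : ((0, 1) : ℕ × ℕ) ≤ (s.1, s.2) :=
        Prod.mk_le_mk.mpr ⟨Nat.zero_le _, by omega⟩
      exact hS this hs
    refine ⟨s.1, ?_, Prod.ext rfl hs2.symm⟩
    rw [Finset.mem_range]
    by_contra hge
    apply hp
    have : ((p.1, p.2) : ℕ × ℕ) ≤ (s.1, s.2) := Prod.mk_le_mk.mpr ⟨by omega, by omega⟩
    exact hS this hs
  have hcc := Finset.card_le_card hsub
  have h3 := Finset.card_image_le (s := Finset.range p.1) (f := fun x : ℕ => ((x, 0) : ℕ × ℕ))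
  rw [Finset.card_range] at h3
  omega

theorem col (n : ℕ) (S : Finset (ℕ × ℕ)) (hS : IsLowerSet (S : Set (ℕ × ℕ))) (hc : S.card = n)
    (h : (1, 0) ∉ S) (p : ℕ × ℕ) (hp : p ∉ S) : n ≤ p.2 ∨ 1 ≤ p.1 := by
  by_contra hcon
  push Not at hcon
  obtain ⟨h1, h2⟩ := hcon
  have hp2 : p.1 = 0 := by omega
  have hsub : S ⊆ (Finset.range p.2).image (fun x => (0, x)) := by
    intro s hs
    rw [Finset.mem_image]
    have hs2 : s.1 = 0 := by
      by_contra hne
      apply h
      have : ((1, 0) : ℕ × ℕ) ≤ (s.1, s.2) :=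
        Prod.mk_le_mk.mpr ⟨by omega, Nat.zero_le _⟩
      exact hS this hs
    refine ⟨s.2, ?_, Prod.ext hs2.symm rfl⟩
    rw [Finset.mem_range]
    by_contra hge
    apply hp
    have : ((p.1, p.2) : ℕ × ℕ) ≤ (s.1, s.2) := Prod.mk_le_mk.mpr ⟨by omega, by omega⟩
    exact hS this hs
  have hcc := Finset.card_le_card hsub
  have h3 := Finset.card_image_le (s := Finset.range p.2) (f := fun x : ℕ => ((0, x) : ℕ × ℕ))
  rw [Finset.card_range] at h3
  omega

end RC_aux

open RC_aux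

theorem RC (hA6 : S_A6) : S_RC := by
  intro n hn S0 S1 hS0 hS1 hc0 hc1 h0 h1
  have hn1 : 1 ≤ n := by omega
  have h10 : (1, 0) ∈ S0 := by
    by_contra h
    rcases row n S0 hS0 hc0 h0 _ h with h' | h' <;> simp at h'
    omega
  have h01 : (0, 1) ∈ S1 := by
    by_contra h
    rcases col n S1 hS1 hc1 h1 _ h with h' | h' <;> simp at h'
    omega
  have hcoeff : (arc 1).coeff 1 = LaurentPolynomial.T 1 := by
    rw [arc, Polynomial.coeff_monomial, if_pos rfl]
  have hex : ex (1, 0) ≠ ex (0, 1) := by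
    intro h
    have := ex_inj h
    simp at this
  have hcurv : ∀ t : ℂˣ, mon ℂ (0, 1) - MvPolynomial.C (t : ℂ) * mon ℂ (1, 0)
      ∈ curv n ((arc 1).map (lev t)) := by
    intro t
    rw [mem_curv, map_sub, map_mul, ev_mon, ev_mon, ev_C, arc, Polynomial.map_monomial, lev_T,
      ← Polynomial.C_mul_X_eq_monomial]
    have : (Polynomial.X : ℂ[X]) ^ ((0, 1) : ℕ × ℕ).1
      * (Polynomial.C (t : ℂ) * Polynomial.X) ^ ((0, 1) : ℕ × ℕ).2
      - Polynomial.C (t : ℂ) * (Polynomial.X ^ ((1, 0) : ℕ × ℕ).1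
      * (Polynomial.C (t : ℂ) * Polynomial.X) ^ ((1, 0) : ℕ × ℕ).2) = 0 := by
      simp only
      ring
    rw [this]
    exact dvd_zero _
  apply hA6 n hn1 (arc 1) ?_ S0 S1 hS0 hS1 hc0 hc1 ?_ ?_ ?_ ?_ ?_ ?_ ?_
  · rw [arc, Polynomial.coeff_monomial, if_neg (by norm_num)]
  · rintro rfl
    exact h0 h01
  · refine ⟨?_, mon ℂ (0, 1), - mon ℂ (1, 0), ?_, ?_⟩
    · rintro ⟨p1, p2⟩ hp
      rcases row n S0 hS0 hc0 h0 _ hp with h | h
      · exact lim_big n 1 _ (by simp at h ⊢; omega)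
      · obtain ⟨j, rfl⟩ : ∃ j, p2 = j + 1 := ⟨p2 - 1, by simp at h; omega⟩
        exact lim1 n p1 j
    · refine ⟨_, mem1 n 0 0, 0, ?_⟩
      rw [emb_mon, emb_neg_mon]
      simp only [zero_add]
      ring
    · intro h
      have := coeff_of_mem S0 hS0 _ h (1, 0) h10
      rw [MvPolynomial.coeff_neg, mon_eq, MvPolynomial.coeff_monomial, if_pos rfl] at this
      norm_num at this
  · rw [arc_map_invert]
    refine ⟨?_, mon ℂ (1, 0), - mon ℂ (0, 1), ?_, ?_⟩
    · rintro ⟨p1, p2⟩ hp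
      rcases col n S1 hS1 hc1 h1 _ hp with h | h
      · exact lim_big n (-1) _ (by simp at h ⊢; omega)
      · obtain ⟨j, rfl⟩ : ∃ j, p1 = j + 1 := ⟨p1 - 1, by simp at h; omega⟩
        exact lim2 n j p2
    · refine ⟨_, mem2 n 0 0, 0, ?_⟩
      rw [emb_mon, emb_neg_mon]
      simp only [zero_add]
      ring
    · intro h
      have := coeff_of_mem S1 hS1 _ h (0, 1) h01
      rw [MvPolynomial.coeff_neg, mon_eq, MvPolynomial.coeff_monomial, if_pos rfl] at this
      norm_num at this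
  · intro t heq
    have h := hcurv t
    rw [heq] at h
    have := coeff_of_mem S0 hS0 _ h (1, 0) h10
    rw [MvPolynomial.coeff_sub, MvPolynomial.coeff_C_mul, mon_eq, mon_eq,
      MvPolynomial.coeff_monomial, MvPolynomial.coeff_monomial, if_pos rfl,
      if_neg hex.symm] at this
    simp at this
  · intro t heq
    have h := hcurv t
    rw [heq] at h
    have := coeff_of_mem S1 hS1 _ h (0, 1) h01
    rw [MvPolynomial.coeff_sub, MvPolynomial.coeff_C_mul, mon_eq, mon_eq,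
      MvPolynomial.coeff_monomial, MvPolynomial.coeff_monomial, if_pos rfl,
      if_neg hex] at this
    simp at this
  · intro t₁ t₂ h
    have := h 1 (by omega)
    rw [hcoeff, lev_T, lev_T] at this
    exact Units.ext this
  · intro t
    refine ⟨1, by omega, ?_⟩
    rw [hcoeff]
    have h := lD_C_mul_T 1 1
    rw [map_one, one_mul] at h
    rw [h]
    simp

end HR
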