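import Pool.Agent.H59.HR.Stm

set_option linter.all false

namespace HR

theorem ST : S_ST := by
  intro n S hS hcard h01 m₀ m' hm0 hm' hmin hmax κ hκ hκS hκn p hp i hi1 hi2 e he
  have hdown : ∀ {a b : ℕ × ℕ}, a ≤ b → b ∈ S → a ∈ S := by
    intro a b hab hb
    exact hS hab hb
  have hκe : κ ≤ e := by
    calc κ = κ * 1 := by ring
      _ ≤ κ * i := Nat.mul_le_mul_left _ hi1
      _ ≤ e := he
  refine ⟨?_, ?_⟩
  · intro hmem
    apply hκS
    exact hdown (Prod.mk_le_mk.mpr ⟨by omega, Nat.zero_le _⟩) hmem
  · intro heq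
    have h1 : κ ≤ m₀.1 := by rw [← heq]; simp; omega
    have hκn' : κ + 3 ≤ n := by
      rcases hκn with h | h
      · exact h
      · omega
    have hm0eq : m₀ = (κ, 0) := by
      by_contra hne
      apply hκS
      apply hmin (κ, 0) (Prod.mk_le_mk.mpr ⟨h1, Nat.zero_le _⟩)
      intro h
      exact hne h.symm
    rw [hm0eq] at heq
    have e1 : p.1 + e = κ := congrArg Prod.fst heq
    have e2 : p.2 - i = 0 := congrArg Prod.snd heq
    have hp1 : p.1 = 0 := by omega
    have hee : e = κ := by omega
    have hi : i = 1 := by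
      rcases Nat.lt_or_ge 1 i with h | h
      · exfalso
        have : κ * 2 ≤ κ * i := Nat.mul_le_mul_left _ h
        omega
      · omega
    have hp2 : p.2 = 1 := by omega
    have hpe : p = (0, 1) := Prod.ext hp1 hp2
    have hpm : p = m' := by
      rcases hp with h | h
      · exact absurd (hpe ▸ h01) h
      · exact h
    have hm'e : m' = (0, 1) := hpm ▸ hpe
    have hsub : S ⊆ insert ((0, 1) : ℕ × ℕ) ((Finset.range κ).image (fun x => (x, 0))) := by
      intro s hs
      rw [Finset.mem_insert, Finset.mem_image]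
      rcases Nat.eq_zero_or_pos s.2 with h | h
      · right
        refine ⟨s.1, ?_, Prod.ext rfl h.symm⟩
        rw [Finset.mem_range]
        by_contra hge
        apply hκS
        exact hdown (Prod.mk_le_mk.mpr ⟨by omega, Nat.zero_le _⟩ : (κ, 0) ≤ (s.1, s.2)) hs
      · left
        by_contra hne
        have hle : m' ≤ s := by
          rw [hm'e]
          exact Prod.mk_le_mk.mpr ⟨Nat.zero_le _, h⟩
        exact hmax s hle (by rw [hm'e]; exact hne) hs
    have hc := Finset.card_le_card hsub
    have hc2 : (insert ((0, 1) : ℕ × ℕ) ((Finset.range κ).image (fun x => (x, 0)))).card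
        ≤ κ + 1 := by
      refine le_trans (Finset.card_insert_le _ _) ?_
      have := Finset.card_image_le (s := Finset.range κ) (f := fun x : ℕ => ((x, 0) : ℕ × ℕ))
      rw [Finset.card_range] at this
      omega
    omega

end HR
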