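import Pool.Agent.H59.HR.Stm

/-! Part SW: the symmetry `x ↔ y` of `Joined`. -/

set_option linter.all false

open Polynomial

namespace HR

namespace SW_aux

/-- the swap of the variables -/
noncomputable def sw (A : Type*) [CommRing A] : P2 A ≃ₐ[A] P2 A :=
  MvPolynomial.renameEquiv A (Equiv.swap (0 : Fin 2) 1)

theorem sw_sw {A : Type*} [CommRing A] (f : P2 A) : sw A (sw A f) = f := by
  simp only [sw, MvPolynomial.renameEquiv_apply]
  rw [MvPolynomial.rename_rename]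
  have : (Equiv.swap (0 : Fin 2) 1 : Fin 2 → Fin 2) ∘ (Equiv.swap (0 : Fin 2) 1) = id := by
    funext i; simp
  rw [this, MvPolynomial.rename_id_apply]

theorem sw_C {A : Type*} [CommRing A] (c : A) : sw A (MvPolynomial.C c) = MvPolynomial.C c := by
  simp [sw]

theorem sw_map {A B : Type*} [CommRing A] [CommRing B] (φ : A →+* B) (f : P2 A) :
    sw B (MvPolynomial.map φ f) = MvPolynomial.map φ (sw A f) := by
  simp only [sw, MvPolynomial.renameEquiv_apply]
  rw [MvPolynomial.map_rename]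

theorem sw_mon {A : Type*} [CommRing A] (p : ℕ × ℕ) : sw A (mon A p) = mon A p.swap := by
  simp [sw, mon, MvPolynomial.rename_X, mul_comm]

theorem sw_emb (f : P2 ℂ) : sw ℂ[X] (emb f) = emb (sw ℂ f) := sw_map _ f

/-- the swapped ideal -/
noncomputable def sI {A : Type*} [CommRing A] (I : Ideal (P2 A)) : Ideal (P2 A) :=
  I.map ((sw A : P2 A ≃ₐ[A] P2 A) : P2 A →+* P2 A)

theorem mem_sI {A : Type*} [CommRing A] {I : Ideal (P2 A)} {f : P2 A} :
    f ∈ sI I ↔ sw A f ∈ I := by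
  constructor
  · intro h
    have h1 : sI I ≤ I.comap ((sw A : P2 A ≃ₐ[A] P2 A) : P2 A →+* P2 A) := by
      rw [sI, Ideal.map_le_iff_le_comap]
      intro x hx
      rw [Ideal.mem_comap, Ideal.mem_comap]
      show sw A (sw A x) ∈ I
      rw [sw_sw]
      exact hx
    exact h1 h
  · intro h
    have := Ideal.mem_map_of_mem ((sw A : P2 A ≃ₐ[A] P2 A) : P2 A →+* P2 A) h
    have e : ((sw A : P2 A ≃ₐ[A] P2 A) : P2 A →+* P2 A) (sw A f) = f := sw_sw f
    rw [e] at this
    exact this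

theorem sI_map {A B : Type*} [CommRing A] [CommRing B] (φ : A →+* B) (I : Ideal (P2 A)) :
    (sI I).map (MvPolynomial.map φ) = sI (I.map (MvPolynomial.map φ)) := by
  unfold sI
  rw [Ideal.map_map, Ideal.map_map]
  congr 1
  apply RingHom.ext
  intro f
  exact (sw_map φ f).symm

theorem sI_inj {A : Type*} [CommRing A] {I J : Ideal (P2 A)} (h : sI I = sI J) : I = J := by
  ext f
  have := congrArg (fun K : Ideal (P2 A) => sw A f ∈ K) h
  simp only [mem_sI, sw_sw] at this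
  exact iff_of_eq this

theorem sI_fibre (I : Ideal (P2 ℂ[X])) (t : ℂ) : fibre (sI I) t = sI (fibre I t) := sI_map _ I

theorem sI_first {I : Ideal (P2 ℂ[X])} {t : ℂ} {f g : P2 ℂ} (h : FirstOrder I t f g) :
    FirstOrder (sI I) t (sw ℂ f) (sw ℂ g) := by
  obtain ⟨F, hF, H, e⟩ := h
  refine ⟨sw ℂ[X] F, ?_, sw ℂ[X] H, ?_⟩
  · rw [mem_sI, sw_sw]; exact hF
  · rw [e, map_add, map_add, map_mul, map_mul, sw_C, sw_C, sw_emb, sw_emb]

theorem sI_equiv {A : Type*} [CommRing A] (I : Ideal (P2 A)) :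
    Nonempty ((P2 A ⧸ I) ≃ₗ[A] (P2 A ⧸ sI I)) :=
  ⟨(Ideal.quotientEquivAlg I (sI I) (sw A) rfl).toLinearEquiv⟩

/-- the swapped curve -/
noncomputable def sC {n : ℕ} (c : RatCurve n) : RatCurve n where
  I0 := sI c.I0
  I1 := sI c.I1
  free0 := by
    have := c.free0
    exact Module.Free.of_equiv (sI_equiv c.I0).some
  finite0 := by
    have := c.finite0
    exact Module.Finite.equiv (sI_equiv c.I0).some
  rank0 := by rw [← (sI_equiv c.I0).some.finrank_eq]; exact c.rank0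
  free1 := by
    have := c.free1
    exact Module.Free.of_equiv (sI_equiv c.I1).some
  finite1 := by
    have := c.finite1
    exact Module.Finite.equiv (sI_equiv c.I1).some
  rank1 := by rw [← (sI_equiv c.I1).some.finrank_eq]; exact c.rank1
  glue := by rw [sI_map, sI_map, c.glue]

theorem sC_point {n : ℕ} (c : RatCurve n) (p : Option ℂ) : (sC c).point p = sI (c.point p) := by
  cases p with
  | none => exact sI_fibre _ _
  | some t => exact sI_fibre _ _

theorem sI_mIdeal (S : Finset (ℕ × ℕ)) : sI (mIdeal (S.image Prod.swap)) = mIdeal S := by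
  unfold sI mIdeal
  rw [Ideal.map_span]
  congr 1
  ext m
  constructor
  · rintro ⟨_, ⟨p, hp, rfl⟩, rfl⟩
    refine ⟨p.swap, fun h => hp ?_, sw_mon p⟩
    rw [Finset.mem_image]
    exact ⟨p.swap, h, Prod.swap_swap p⟩
  · rintro ⟨p, hp, rfl⟩
    refine ⟨mon ℂ p.swap, ⟨p.swap, fun h => hp ?_, rfl⟩, ?_⟩
    · rw [Finset.mem_image] at h
      obtain ⟨q, hq, e⟩ := h
      have := Prod.swap_injective e
      rwa [← this]
    · show sw ℂ (mon ℂ p.swap) = mon ℂ p
      rw [sw_mon, Prod.swap_swap]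

end SW_aux

open SW_aux in
theorem SW : S_SW := by
  intro n S0 S1 h
  obtain ⟨c, ⟨hinj, ht, ht'⟩, ⟨p, hp⟩, ⟨q, hq⟩⟩ := h
  refine ⟨sC c, ⟨?_, ?_, ?_⟩, ⟨p, ?_⟩, ⟨q, ?_⟩⟩
  · intro a b hab
    rw [sC_point, sC_point] at hab
    exact hinj (sI_inj hab)
  · intro t
    obtain ⟨f, g, h1, h2⟩ := ht t
    refine ⟨sw ℂ f, sw ℂ g, sI_first h1, fun h3 => h2 ?_⟩
    have h4 : sw ℂ g ∈ sI (fibre c.I0 t) := by
      rw [← sI_fibre]; exact h3
    rw [mem_sI, sw_sw] at h4
    exact h4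
  · obtain ⟨f, g, h1, h2⟩ := ht'
    refine ⟨sw ℂ f, sw ℂ g, sI_first h1, fun h3 => h2 ?_⟩
    have h4 : sw ℂ g ∈ sI (fibre c.I1 0) := by
      rw [← sI_fibre]; exact h3
    rw [mem_sI, sw_sw] at h4
    exact h4
  · rw [sC_point, hp, sI_mIdeal]
  · rw [sC_point, hq, sI_mIdeal]

end HR
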