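import Pool.Agent.H59.HR.Defs

/-!
# Interface: statements of the parts.  Each part proves `theorem XY : HR.S_XY`.
-/

set_option linter.all false

open Polynomial

namespace HR

/-! ## FAMILY THEORY -/

/-- MI: the monomial ideal `mIdeal S`. -/
def S_MI : Prop :=
  ∀ S : Finset (ℕ × ℕ), IsLowerSet (S : Set (ℕ × ℕ)) →
    (∀ f : P2 ℂ, f ∈ mIdeal S ↔ ∀ p ∈ S, MvPolynomial.coeff (ex p) f = 0) ∧
    Module.Finite ℂ (P2 ℂ ⧸ mIdeal S) ∧ Module.finrank ℂ (P2 ℂ ⧸ mIdeal S) = S.card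

/-- A1: the quotient of `C[t][x,y]` by the family ideal embeds in `C[t,1/t][x]/x^n`, is spanned by
`x^i y^j`, `i,j < n` (`a` has no constant term, so `a^n` is divisible by `x^n`), hence free; the
rank is `n`. -/
def S_A1 : Prop :=
  ∀ (n : ℕ), 1 ≤ n → ∀ a : LP[X], a.coeff 0 = 0 →
    Module.Free ℂ[X] (P2 ℂ[X] ⧸ fam n a) ∧ Module.Finite ℂ[X] (P2 ℂ[X] ⧸ fam n a) ∧
    Module.finrank ℂ[X] (P2 ℂ[X] ⧸ fam n a) = n

/-- A2: glueing; both sides are `curv n a`. -/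
def S_A2 : Prop :=
  ∀ (n : ℕ) (a : LP[X]),
    (fam n a).map (MvPolynomial.map (Polynomial.toLaurent : ℂ[X] →+* LP))
      = (fam n (a.map ((LaurentPolynomial.invert : LP ≃ₐ[ℂ] LP) : LP →+* LP))).map
        (MvPolynomial.map toLaurentInv)

/-- A3: the fibre at `t ≠ 0` is `(y - a(t)(x), x^n)`. -/
def S_A3 : Prop :=
  ∀ (n : ℕ) (a : LP[X]) (t : ℂˣ), fibre (fam n a) (t : ℂ) = curv n (a.map (lev t))

/-- A4: fibres of free families of rank `n` have colength `n`. -/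
def S_A4 : Prop :=
  ∀ (n : ℕ) (I : Ideal (P2 ℂ[X])), Module.Free ℂ[X] (P2 ℂ[X] ⧸ I) →
    Module.Finite ℂ[X] (P2 ℂ[X] ⧸ I) → Module.finrank ℂ[X] (P2 ℂ[X] ⧸ I) = n →
    ∀ t : ℂ, Module.Finite ℂ (P2 ℂ ⧸ fibre I t) ∧ Module.finrank ℂ (P2 ℂ ⧸ fibre I t) = n

/-- A5: nonzero tangent vector at `t ≠ 0`: take `F = t^N (y - a(t)(x))`; its derivative is
`-t^N a'(t)(x)` modulo the fibre. -/
def S_A5 : Prop :=
  ∀ (n : ℕ) (a : LP[X]) (t : ℂˣ), (∃ k < n, lev t (lD (a.coeff k)) ≠ 0) →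
    ∃ f g : P2 ℂ, FirstOrder (fam n a) (t : ℂ) f g ∧ g ∉ fibre (fam n a) (t : ℂ)

/-- A6: assembly of the family theory (hypotheses `S_MI S_A1 ... S_A5`). -/
def S_A6 : Prop :=
  ∀ (n : ℕ), 1 ≤ n → ∀ a : LP[X], a.coeff 0 = 0 →
    ∀ S0 S1 : Finset (ℕ × ℕ), IsLowerSet (S0 : Set (ℕ × ℕ)) → IsLowerSet (S1 : Set (ℕ × ℕ)) →
    S0.card = n → S1.card = n → S0 ≠ S1 →
    GoodEnd n S0 a → GoodEnd n S1 (a.map ((LaurentPolynomial.invert : LP ≃ₐ[ℂ] LP) : LP →+* LP)) →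
    (∀ t : ℂˣ, curv n (a.map (lev t)) ≠ mIdeal S0) →
    (∀ t : ℂˣ, curv n (a.map (lev t)) ≠ mIdeal S1) →
    (∀ t₁ t₂ : ℂˣ, (∀ k < n, lev t₁ (a.coeff k) = lev t₂ (a.coeff k)) → t₁ = t₂) →
    (∀ t : ℂˣ, ∃ k < n, lev t (lD (a.coeff k)) ≠ 0) →
    Joined n (mIdeal S0) (mIdeal S1)

/-! ## ARCS -/

/-- B1: adding a regular arc `r ∈ t C[t][x]` without constant term: substitute `y ↦ y - r(t)(x)`;
`F(x, y - r) = F - t r_1(x) ∂_y F + O(t^2)`. -/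
def S_B1 : Prop :=
  ∀ (n : ℕ) (a r : LP[X]), r.coeff 0 = 0 →
    (∀ k, ∃ q : ℂ[X], r.coeff k = Polynomial.toLaurent (X * q)) →
    (∀ p : ℕ × ℕ, Lim n a (mon ℂ p) → Lim n (a + r) (mon ℂ p)) ∧
    (∀ m₀ m' : ℕ × ℕ, LimTan n a (mon ℂ m₀) (mon ℂ m') →
      (∀ k, 1 ≤ k → m₀.1 + k = m'.1 → m'.2 + 1 ≠ m₀.2) →
      ∃ g : P2 ℂ, LimTan n (a + r) (mon ℂ m₀) g ∧ MvPolynomial.coeff (ex m') g ≠ 0)

/-- the substitution `u ↦ t^N, x ↦ t^(-α) x, y ↦ t^(-β) (y - ρ(t)(x))` -/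
noncomputable def theta (α β N : ℕ) (ρ : LP[X]) : P2 ℂ[X] →+* P2 LP :=
  MvPolynomial.eval₂Hom
    ((MvPolynomial.C : LP →+* P2 LP).comp ((pw N).comp (Polynomial.toLaurent : ℂ[X] →+* LP)))
    ![MvPolynomial.C (LaurentPolynomial.T (-(α : ℤ))) * MvPolynomial.X 0,
      MvPolynomial.C (LaurentPolynomial.T (-(β : ℤ))) *
        (MvPolynomial.X 1 - Polynomial.aeval (MvPolynomial.X 0 : P2 LP) ρ)]

/-- TH: `theta` maps `fam n c` into the vanishing ideal of the twisted arc plus `ρ`. -/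
def S_TH : Prop :=
  ∀ (n α β N : ℕ) (c ρ : LP[X]) (F : P2 ℂ[X]), F ∈ fam n c →
    theta α β N ρ F ∈ curv n (tw α β N c + ρ)

/-- TW: twist lemma (`theorem TW (h : S_TH) : S_TW`).  `c` an arc whose limit contains the `mon p` (`p ∉ S`, `p ≠ m₀`) and
`mon m₀ + mon m'`; the weight of `m₀` exceeds the weight of `m'` by one.  For `N` large the twisted
arc `tw α β N c`, even after adding any `ρ` with poles of order `≤ D` in directions `x^k`, `k ≥ κ`,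
has limit `mIdeal S` and first order term `m₀ + t m'`.  Proof: `θ_N : C[u][x,y] → C[t,1/t][x,y]`,
`u ↦ t^N, x ↦ t^(-α) x, y ↦ t^(-β)(y - ρ)` maps `fam n c` into `curv n (tw α β N c + ρ)`; expand
`f(x, y + t^(-β) ρ(t)(t^α x))` for `f = mon p` resp. `mon m₀ + mon m'`, lift every term to
`fam n c`; the error is divisible by `t^(N - const)`. -/
def S_TW : Prop :=
  ∀ (n : ℕ) (c : LP[X]) (S : Finset (ℕ × ℕ)) (m₀ m' : ℕ × ℕ) (α β κ D B : ℕ),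
    c.coeff 0 = 0 → 1 ≤ κ →
    (∀ p : ℕ × ℕ, p ∉ S → p ≠ m₀ → Lim n c (mon ℂ p)) →
    Lim n c (mon ℂ m₀ + mon ℂ m') → m₀ ∉ S → m' ∈ S →
    α * m₀.1 + β * m₀.2 = α * m'.1 + β * m'.2 + 1 →
    (∀ p : ℕ × ℕ, (p ∉ S ∨ p = m') → ∀ i, 1 ≤ i → i ≤ p.2 → ∀ e, κ * i ≤ e →
      (p.1 + e, p.2 - i) ∉ S ∧ (p.1 + e, p.2 - i) ≠ m₀) →
    ∃ N₀ : ℕ, ∀ N ≥ N₀, ∀ ρ : LP[X], (∀ k < κ, ρ.coeff k = 0) → ρ.natDegree < n →
      (∀ k, ∃ q : ℂ[X], LaurentPolynomial.T (D : ℤ) * ρ.coeff k = Polynomial.toLaurent q) →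
      (∀ p : ℕ × ℕ, p ∉ S → p ≠ m₀ → p.1 ≤ B → p.2 ≤ B →
        Lim n (tw α β N c + ρ) (mon ℂ p)) ∧
      LimTan n (tw α β N c + ρ) (mon ℂ m₀) (mon ℂ m')

/-- NEG: a Laurent polynomial without constant coefficient is a polar part plus an element of
`t C[t]`, and the polar part becomes an element of `t C[t]` after `t ↦ 1/t`. -/
def S_NEG : Prop :=
  ∀ p : LP, p.coeff 0 = 0 → ∃ (p₁ : LP) (q q' : ℂ[X]),
    p = p₁ + Polynomial.toLaurent (X * q) ∧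
    (LaurentPolynomial.invert : LP ≃ₐ[ℂ] LP) p₁ = Polynomial.toLaurent (X * q')

/-- NC: no constant coefficients in the twisted arc for `N` large. -/
def S_NC : Prop :=
  ∀ (n : ℕ) (c : LP[X]) (α β : ℕ), (∀ k, 1 ≤ k → k < n → β ≠ k * α) →
    ∃ N₀ : ℕ, ∀ N ≥ N₀, ∀ k, 1 ≤ k → k < n → ((tw α β N c).coeff k).coeff 0 = 0

/-- GEN: generic perturbation in 3 coordinates is injective and immersed on `C^*`.
(Bad parameters `(r, r') ∈ C^6`: for `t₁ ≠ t₂` one has `(t₁²-t₂², t₁³-t₂³) ≠ (0,0)`, so each coordinate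
gives a line in `C^2`; the bad set is the image of a smooth map from complex dimension `2 + 3 < 6`; or
choose `r, r'` algebraically independent over the countable field generated by the coefficients.) -/
def S_GEN : Prop :=
  ∀ g : Fin 3 → LP, ∃ r r' : Fin 3 → ℂ,
    (∀ t₁ t₂ : ℂˣ, (∀ k, lev t₁ (g k) + r k * (t₁ : ℂ) ^ 2 + r' k * (t₁ : ℂ) ^ 3
        = lev t₂ (g k) + r k * (t₂ : ℂ) ^ 2 + r' k * (t₂ : ℂ) ^ 3) → t₁ = t₂) ∧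
    (∀ t : ℂˣ, ∃ k, lev t (lD (g k)) + 2 * r k * (t : ℂ) + 3 * r' k * (t : ℂ) ^ 2 ≠ 0)

/-! ## COMBINATORICS OF LOWER SETS -/

/-- CB: box move and weights.  If two rows have equal length: `m₀ = x^a y^i` (`i` first row of the
block of rows of length `a`), `m' = x^(a-1) y^j` (`j` last row of the block), difference
`(1, -(j-i))`, `β = n`, `α = 1 + (j-i) n`.  Otherwise `m₀ = x^(λ₀)`, `m' = x^(λ₁-1) y`,
difference `(c,-1)`, `c = λ₀ - λ₁ + 1 ≥ 2`, `α = 2`, `β = 2c-1`. -/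
def S_CB : Prop :=
  ∀ (n : ℕ) (S : Finset (ℕ × ℕ)), IsLowerSet (S : Set (ℕ × ℕ)) → S.card = n → (0, 1) ∈ S →
    ∃ (m₀ m' : ℕ × ℕ) (α β : ℕ), m₀ ∉ S ∧ m' ∈ S ∧
      (∀ q, q ≤ m₀ → q ≠ m₀ → q ∈ S) ∧ (∀ q, m' ≤ q → q ≠ m' → q ∉ S) ∧
      α * m₀.1 + β * m₀.2 = α * m'.1 + β * m'.2 + 1 ∧
      (∀ k, 1 ≤ k → k < n → β ≠ k * α) ∧
      (∀ k, 1 ≤ k → m₀.1 + k = m'.1 → m'.2 + 1 ≠ m₀.2) ∧
      m₀ ≠ (m'.1 + 1, m'.2) ∧ m₀ ≠ (m'.1, m'.2 + 1) ∧ m₀.1 < n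

/-- ST: the stability hypothesis of TW. -/
def S_ST : Prop :=
  ∀ (n : ℕ) (S : Finset (ℕ × ℕ)), IsLowerSet (S : Set (ℕ × ℕ)) → S.card = n → (0, 1) ∈ S →
    ∀ (m₀ m' : ℕ × ℕ), m₀ ∉ S → m' ∈ S →
    (∀ q, q ≤ m₀ → q ≠ m₀ → q ∈ S) → (∀ q, m' ≤ q → q ≠ m' → q ∉ S) →
    ∀ κ : ℕ, 1 ≤ κ → (κ, 0) ∉ S → (κ + 3 ≤ n ∨ m₀.1 < κ) →
    (∀ p : ℕ × ℕ, (p ∉ S ∨ p = m') → ∀ i, 1 ≤ i → i ≤ p.2 → ∀ e, κ * i ≤ e →
      (p.1 + e, p.2 - i) ∉ S ∧ (p.1 + e, p.2 - i) ≠ m₀)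

/-- J1: the ideal `J₁` obtained from `mIdeal S` by replacing the generator `m₀` by `m₀ + m'`. -/
def S_J1 : Prop :=
  ∀ (n : ℕ) (S : Finset (ℕ × ℕ)), IsLowerSet (S : Set (ℕ × ℕ)) → S.card = n → (0, 1) ∈ S →
    ∀ (m₀ m' : ℕ × ℕ), m₀ ∉ S → m' ∈ S →
    (∀ q, q ≤ m₀ → q ≠ m₀ → q ∈ S) → (∀ q, m' ≤ q → q ≠ m' → q ∉ S) →
    m₀ ≠ (m'.1 + 1, m'.2) → m₀ ≠ (m'.1, m'.2 + 1) →
    ∃ (J : Ideal (P2 ℂ)) (pq : Fin n → ℕ × ℕ) (hn : 0 < n), pq ⟨0, hn⟩ = (0, 0) ∧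
      (∀ p : ℕ × ℕ, p ∉ S → p ≠ m₀ → mon ℂ p ∈ J) ∧ mon ℂ m₀ + mon ℂ m' ∈ J ∧
      LinearIndependent ℂ (fun b => Ideal.Quotient.mk J (mon ℂ (pq b))) ∧
      Module.Finite ℂ (P2 ℂ ⧸ J) ∧ Module.finrank ℂ (P2 ℂ ⧸ J) = n ∧
      (∃ N, (MvPolynomial.X 0 : P2 ℂ) ^ N ∈ J) ∧ (∃ N, (MvPolynomial.X 1 : P2 ℂ) ^ N ∈ J)

/-! ## THEOREM D (Briançon with arcs) -/

/-- TD: every punctual ideal of colength `n` is the limit of an arc. -/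
def S_TD : Prop :=
  ∀ (n : ℕ) (hn : 0 < n) (J : Ideal (P2 ℂ)) (pq : Fin n → ℕ × ℕ), pq ⟨0, hn⟩ = (0, 0) →
    LinearIndependent ℂ (fun b => Ideal.Quotient.mk J (mon ℂ (pq b))) →
    Module.Finite ℂ (P2 ℂ ⧸ J) → Module.finrank ℂ (P2 ℂ ⧸ J) = n →
    (∃ N, (MvPolynomial.X 0 : P2 ℂ) ^ N ∈ J) → (∃ N, (MvPolynomial.X 1 : P2 ℂ) ^ N ∈ J) →
    ∃ c : LP[X], c.coeff 0 = 0 ∧ c.natDegree < n ∧ ∀ f ∈ J, Lim n c f

/-- KA: minimal nonzero primes of a polynomial ring are principal (UFD) and drop the transcendence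
degree by one only: if `Q = (g)` and `g` involves `z_i` then the other variables are independent. -/
def S_KA : Prop :=
  ∀ (s : ℕ) (Q : Ideal (MvPolynomial (Fin (s + 1)) ℂ)), Q.IsPrime →
    (∀ Q' : Ideal (MvPolynomial (Fin (s + 1)) ℂ), Q'.IsPrime → Q' ≤ Q → Q' = ⊥ ∨ Q' = Q) →
    TDge (MvPolynomial (Fin (s + 1)) ℂ ⧸ Q) s

/-- K1: one step of the dimension count (`theorem K1 (h : S_KA) : S_K1`). Noether normalisation `C[z] ⊂ A` finite, Krull's principal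
ideal theorem: a minimal prime `Q` over `f` inside `P` has height one, by going-down so has
`Q ∩ C[z]`, which is principal (UFD), hence `trdeg A/Q = trdeg A - 1`. -/
def S_K1 : Prop :=
  ∀ (A : Type) [CommRing A] [IsDomain A] [Algebra ℂ A] [Algebra.FiniteType ℂ A]
    (P : Ideal A) [P.IsPrime] (f : A), f ∈ P → ∀ d : ℕ, TDge A (d + 1) →
    ∃ Q : Ideal A, Q.IsPrime ∧ f ∈ Q ∧ Q ≤ P ∧ TDge (A ⧸ Q) d

/-- K2: `m` equations (`theorem K2 (h : S_K1) : S_K2`, induction on `m`). -/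
def S_K2 : Prop :=
  ∀ (m : ℕ) (A : Type) [CommRing A] [IsDomain A] [Algebra ℂ A] [Algebra.FiniteType ℂ A]
    (P : Ideal A) [P.IsPrime] (f : Fin m → A), (∀ i, f i ∈ P) → ∀ d : ℕ, TDge A (d + m) →
    ∃ Q : Ideal A, Q.IsPrime ∧ (∀ i, f i ∈ Q) ∧ Q ≤ P ∧ TDge (A ⧸ Q) d

/-- CS1: a curve through the point avoiding `δ = 0`: Noether normalisation, `N ∈ C[z] ∩ δA` nonzero,
line through the image point on which `N` is not identically zero, going-down. -/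
def S_CS1 : Prop :=
  ∀ (A : Type) [CommRing A] [IsDomain A] [Algebra ℂ A] [Algebra.FiniteType ℂ A]
    (ε : A →ₐ[ℂ] ℂ) (δ : A), δ ≠ 0 → TDge A 1 →
    ∃ Q : Ideal A, Q.IsPrime ∧ Q ≤ RingHom.ker ε ∧ δ ∉ Q ∧
      ∃ φ : ℂ[X] →ₐ[ℂ] (A ⧸ Q), Function.Injective φ ∧ (φ : ℂ[X] →+* (A ⧸ Q)).Finite

/-- CS2: normalisation of an affine curve at a point gives a DVR with residue field `C`. -/
def S_CS2 : Prop :=
  ∀ (A : Type) [CommRing A] [IsDomain A] [Algebra ℂ A] (ε : A →ₐ[ℂ] ℂ)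
    (φ : ℂ[X] →ₐ[ℂ] A), Function.Injective φ → (φ : ℂ[X] →+* A).Finite →
    ∃ (V : Type) (_ : CommRing V) (_ : IsDomain V) (_ : IsDiscreteValuationRing V)
      (_ : Algebra ℂ V) (ψ : A →ₐ[ℂ] V), Function.Injective ψ ∧
      (∀ v : V, ∃ z : ℂ, v - algebraMap ℂ V z ∈ IsLocalRing.maximalIdeal V) ∧
      (∀ a : A, ψ a - algebraMap ℂ V (ε a) ∈ IsLocalRing.maximalIdeal V)

/-- JZ: the ADHM trace argument: `j = 0` at cyclic points.  `j w i = 0` for all words `w` in `X,Y` by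
induction on the length: commutators `[X,Y] = -i jᵀ` produce products of shorter ones, and
`0 = tr [X^(p+1), Y^(q+1)]` gives `(p+1)(q+1) j X^p Y^q i = 0`. -/
def S_JZ : Prop :=
  ∀ (K : Type) [Field K] [CharZero K] (n : ℕ) (X Y : Matrix (Fin n) (Fin n) K)
    (i j : Fin n → K), X * Y - Y * X + Matrix.vecMulVec i j = 0 →
    Submodule.span K {v | ∃ p q : ℕ, v = (X ^ p * Y ^ q).mulVec i} = ⊤ → j = 0

/-- AD: ADHM chart: a domain of transcendence degree `≥ n^2 + 2n` through the given point (K2 in the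
polynomial ring with `2n^2+2n+1` variables, `n^2+1` equations, then JZ over the fraction field). -/
def S_AD : Prop :=
  ∀ (n : ℕ) (X₀ Y₀ : Matrix (Fin n) (Fin n) ℂ) (v₀ : Fin n → ℂ) (pq : Fin n → ℕ × ℕ),
    X₀ * Y₀ = Y₀ * X₀ → (Wmat X₀ Y₀ v₀ pq).det ≠ 0 →
    ∃ (A : Type) (_ : CommRing A) (_ : IsDomain A) (_ : Algebra ℂ A) (ε : A →ₐ[ℂ] ℂ)
      (X Y : Matrix (Fin n) (Fin n) A) (v : Fin n → A) (u : A),
      X * Y = Y * X ∧ X.map ε = X₀ ∧ Y.map ε = Y₀ ∧ (∀ a, ε (v a) = v₀ a) ∧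
      u * (Wmat X Y v pq).det = 1 ∧ TDge A (n ^ 2 + 2 * n) ∧
      Algebra.adjoin ℂ ({z | ∃ a b, z = X a b} ∪ {z | ∃ a b, z = Y a b} ∪ Set.range v ∪ {u}) = ⊤

/-- UP: universal point: `E = A[x,y]/𝔓`, `𝔓` a minimal prime of `B = A[x,y]/{f : f(X,Y) = 0}` inside
the kernel of `B → C`, `x,y ↦ 0`; minimal primes consist of zero divisors and `B` is torsion
free over `A`, so `A → E` is injective. -/
def S_UP : Prop :=
  ∀ (A : Type) [CommRing A] [IsDomain A] [Algebra ℂ A] [Algebra.FiniteType ℂ A] (n : ℕ)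
    (ε : A →ₐ[ℂ] ℂ) (X Y : Matrix (Fin n) (Fin n) A), 0 < n → X * Y = Y * X →
    IsNilpotent (X.map ε) → IsNilpotent (Y.map ε) →
    ∃ (E : Type) (_ : CommRing E) (_ : IsDomain E) (_ : Algebra ℂ E)
      (ι : A →ₐ[ℂ] E) (x y : E) (ε' : E →ₐ[ℂ] ℂ),
      Function.Injective ι ∧ (∀ a, ε' (ι a) = ε a) ∧ ε' x = 0 ∧ ε' y = 0 ∧
      (∀ f : P2 A, mev X Y f = 0 → MvPolynomial.eval₂ (ι : A →+* E) ![x, y] f = 0) ∧
      Algebra.adjoin ℂ (Set.range ι ∪ {x, y}) = ⊤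

/-- TR: traces of all positive powers vanish ⇒ nilpotent (characteristic zero). -/
def S_TR : Prop :=
  ∀ (K : Type) [Field K] [CharZero K] (n : ℕ) (M : Matrix (Fin n) (Fin n) K),
    (∀ k, 1 ≤ k → Matrix.trace (M ^ k) = 0) → IsNilpotent M

/-- NP: in the universal family, imposing `x = y = 0` and `tr (X^p Y^q) = 0` for `(p,q) = pq b`,
`b ≠ 0`, makes `X`, `Y` nilpotent.  (For every monomial `m ≠ 1`: `X^m = Σ c_b X^(pq b)` in the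
original ring `A`; evaluating at the point `(x,y) = (0,0)` gives `c_0 = 0`, so `tr X^m = 0`; then
TR in the fraction field.)  `φ : A → E'` is the composite `A → E → E' = E/Q`. -/
def S_NP : Prop :=
  ∀ (A E : Type) [CommRing A] [CommRing E] [IsDomain E] [Algebra ℂ A] [Algebra ℂ E]
    (n : ℕ) (hn : 0 < n) (X Y : Matrix (Fin n) (Fin n) A) (v : Fin n → A)
    (pq : Fin n → ℕ × ℕ) (φ : A →ₐ[ℂ] E), pq ⟨0, hn⟩ = (0, 0) → X * Y = Y * X →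
    IsUnit (Wmat X Y v pq).det →
    (∀ f : P2 A, mev X Y f = 0 → φ (MvPolynomial.constantCoeff f) = 0) →
    (∀ b, b ≠ ⟨0, hn⟩ → φ (Matrix.trace (X ^ (pq b).1 * Y ^ (pq b).2)) = 0) →
    IsNilpotent (X.map φ) ∧ IsNilpotent (Y.map φ)

/-- LA: linear algebra over a subfield `k = C(T)`: if `M` has entries in `k` and `M w ∈ k^m`, then `w`
has entries in `k(c)` with at most `dim ker M` new elements `c`. -/
def S_LA : Prop :=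
  ∀ (L : Type) [Field L] [Algebra ℂ L] (T : Finset L) (m : ℕ) (M : Matrix (Fin m) (Fin m) L)
    (w : Fin m → L), (∀ i j, M i j ∈ IntermediateField.adjoin ℂ (T : Set L)) →
    (∀ i, (M.mulVec w) i ∈ IntermediateField.adjoin ℂ (T : Set L)) →
    ∃ c : Finset L, c.card ≤ Module.finrank L (LinearMap.ker M.mulVecLin) ∧
      ∀ i, w i ∈ IntermediateField.adjoin ℂ ((T : Set L) ∪ (c : Set L))

/-- FD: field of definition of a pair of commuting nilpotents with a cyclic vector. Induction on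
`dim V`, passing to `V' = X V` with cyclic vector `X v`: `Y^h v ∈ V'`, `h = dim V/XV`, and
`X (Y^h v) = Y^h (X v)` is rational over the field of `V'`; use LA. -/
def S_FD : Prop :=
  ∀ (L : Type) [Field L] [Algebra ℂ L] (V : Type) [AddCommGroup V] [Module L V]
    [FiniteDimensional L V] (X Y : V →ₗ[L] V) (v : V), X * Y = Y * X →
    IsNilpotent X → IsNilpotent Y →
    Submodule.span L {w | ∃ p q : ℕ, w = (X ^ p) ((Y ^ q) v)} = ⊤ →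
    ∃ (T : Finset L) (b : Module.Basis (Fin (Module.finrank L V)) L V),
      T.card + Module.finrank L (V ⧸ LinearMap.range X) ≤ Module.finrank L V ∧
      ∀ i j, b.repr (X (b i)) j ∈ IntermediateField.adjoin ℂ (T : Set L) ∧
        b.repr (Y (b i)) j ∈ IntermediateField.adjoin ℂ (T : Set L) ∧
        b.repr v j ∈ IntermediateField.adjoin ℂ (T : Set L)

/-- TB: the transcendence degree bound (FD with the change of basis matrix: `n^2` more elements). -/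
def S_TB : Prop :=
  ∀ (L : Type) [Field L] [Algebra ℂ L] (n : ℕ) (X Y : Matrix (Fin n) (Fin n) L) (v : Fin n → L),
    X * Y = Y * X → IsNilpotent X → IsNilpotent Y →
    Submodule.span L {w | ∃ p q : ℕ, w = (X ^ p * Y ^ q).mulVec v} = ⊤ →
    IntermediateField.adjoin ℂ
      ({z | ∃ a b, z = X a b} ∪ {z | ∃ a b, z = Y a b} ∪ Set.range v) = ⊤ →
    ∀ d, TDge L d →
    d + Module.finrank L ((Fin n → L) ⧸ LinearMap.range X.mulVecLin) ≤ n ^ 2 + n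

/-- CY: if `dim V/XV ≤ 1`, `X,Y` commuting nilpotent and `v` cyclic for `(X,Y)`, then `v` is cyclic for
`X`. -/
def S_CY : Prop :=
  ∀ (L : Type) [Field L] (n : ℕ) (X Y : Matrix (Fin n) (Fin n) L) (v : Fin n → L),
    X * Y = Y * X → IsNilpotent X → IsNilpotent Y →
    Submodule.span L {w | ∃ p q : ℕ, w = (X ^ p * Y ^ q).mulVec v} = ⊤ →
    Module.finrank L ((Fin n → L) ⧸ LinearMap.range X.mulVecLin) ≤ 1 →
    (Kmat X v).det ≠ 0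

/-- GF: generic family (assembly of AD, UP, K2, NP, TB, CY). -/
def S_GF : Prop :=
  ∀ (n : ℕ) (hn : 0 < n) (X₀ Y₀ : Matrix (Fin n) (Fin n) ℂ) (v₀ : Fin n → ℂ)
    (pq : Fin n → ℕ × ℕ), pq ⟨0, hn⟩ = (0, 0) → X₀ * Y₀ = Y₀ * X₀ →
    IsNilpotent X₀ → IsNilpotent Y₀ → (Wmat X₀ Y₀ v₀ pq).det ≠ 0 →
    ∃ (A : Type) (_ : CommRing A) (_ : IsDomain A) (_ : Algebra ℂ A)
      (_ : Algebra.FiniteType ℂ A) (ε : A →ₐ[ℂ] ℂ)
      (X Y : Matrix (Fin n) (Fin n) A) (v : Fin n → A),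
      X * Y = Y * X ∧ IsNilpotent X ∧ IsNilpotent Y ∧
      X.map ε = X₀ ∧ Y.map ε = Y₀ ∧ (∀ a, ε (v a) = v₀ a) ∧
      (Kmat X v).det ≠ 0 ∧ TDge A 1

/-- LT: over a DVR `V` with residue field `C`: approximate `Y = a(X)` (`a_k ∈ K = Frac V`, `a_0 = 0`) by
`Y' = c(X)`, `c` with coefficients Laurent polynomials in the uniformizer, `τ(c_k) - a_k ∈ 𝔪`. -/
def S_LT : Prop :=
  ∀ (V : Type) [CommRing V] [IsDomain V] [IsDiscreteValuationRing V] [Algebra ℂ V] (ϖ : V)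
    (K : Type) [Field K] [Algebra V K] [IsFractionRing V K] (τ : LP →+* K),
    Irreducible ϖ →
    (∀ z : ℂ, τ (LaurentPolynomial.C z) = algebraMap V K (algebraMap ℂ V z)) →
    τ (LaurentPolynomial.T 1) = algebraMap V K ϖ →
    (∀ v : V, ∃ z : ℂ, v - algebraMap ℂ V z ∈ IsLocalRing.maximalIdeal V) →
    ∀ (n : ℕ), 0 < n → ∀ (X Y : Matrix (Fin n) (Fin n) V) (v : Fin n → V), X * Y = Y * X →
    IsNilpotent X → IsNilpotent Y → (Kmat X v).det ≠ 0 →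
    ∃ (Y' : Matrix (Fin n) (Fin n) V) (c : LP[X]), c.coeff 0 = 0 ∧ c.natDegree < n ∧
      X * Y' = Y' * X ∧ (∀ i j, Y' i j - Y i j ∈ IsLocalRing.maximalIdeal V) ∧
      Y'.map (algebraMap V K) =
        ∑ k ∈ Finset.range n, τ (c.coeff k) • (X.map (algebraMap V K)) ^ k

/-- EX: extraction of the family `F ∈ C[u][x,y]` (Cramer's rule). With `Y' = c(X)` over `K = Frac V`, all
of `f(x,c) = Σ v_b x^p c^q mod x^n`, `v_b ∈ 𝔪`; `v_b` times a Laurent polynomial determinant is a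
Laurent polynomial. -/
def S_EX : Prop :=
  ∀ (V : Type) [CommRing V] [IsDomain V] [IsDiscreteValuationRing V] [Algebra ℂ V] (ϖ : V)
    (K : Type) [Field K] [Algebra V K] [IsFractionRing V K] (τ : LP →+* K),
    Irreducible ϖ →
    (∀ z : ℂ, τ (LaurentPolynomial.C z) = algebraMap V K (algebraMap ℂ V z)) →
    τ (LaurentPolynomial.T 1) = algebraMap V K ϖ →
    ∀ (n : ℕ), 0 < n → ∀ (X Y : Matrix (Fin n) (Fin n) V) (v : Fin n → V)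
      (X₀ Y₀ : Matrix (Fin n) (Fin n) ℂ) (v₀ : Fin n → ℂ) (pq : Fin n → ℕ × ℕ) (c : LP[X]),
    X * Y = Y * X → IsNilpotent X → (Kmat X v).det ≠ 0 →
    (∀ i j, X i j - algebraMap ℂ V (X₀ i j) ∈ IsLocalRing.maximalIdeal V) →
    (∀ i j, Y i j - algebraMap ℂ V (Y₀ i j) ∈ IsLocalRing.maximalIdeal V) →
    (∀ i, v i - algebraMap ℂ V (v₀ i) ∈ IsLocalRing.maximalIdeal V) →
    (Wmat X₀ Y₀ v₀ pq).det ≠ 0 → c.natDegree < n →
    Y.map (algebraMap V K) =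
      ∑ k ∈ Finset.range n, τ (c.coeff k) • (X.map (algebraMap V K)) ^ k →
    ∀ f : P2 ℂ, (mev X₀ Y₀ f).mulVec v₀ = 0 → Lim n c f

/-- MX: multiplication matrices of an ideal `J` with monomial basis. -/
def S_MX : Prop :=
  ∀ (n : ℕ) (hn : 0 < n) (J : Ideal (P2 ℂ)) (pq : Fin n → ℕ × ℕ), pq ⟨0, hn⟩ = (0, 0) →
    LinearIndependent ℂ (fun b => Ideal.Quotient.mk J (mon ℂ (pq b))) →
    Module.Finite ℂ (P2 ℂ ⧸ J) → Module.finrank ℂ (P2 ℂ ⧸ J) = n →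
    (∃ N, (MvPolynomial.X 0 : P2 ℂ) ^ N ∈ J) → (∃ N, (MvPolynomial.X 1 : P2 ℂ) ^ N ∈ J) →
    ∃ (X₀ Y₀ : Matrix (Fin n) (Fin n) ℂ) (v₀ : Fin n → ℂ), X₀ * Y₀ = Y₀ * X₀ ∧
      IsNilpotent X₀ ∧ IsNilpotent Y₀ ∧ (Wmat X₀ Y₀ v₀ pq).det ≠ 0 ∧
      ∀ f ∈ J, (mev X₀ Y₀ f).mulVec v₀ = 0

/-! ## FINAL ASSEMBLY -/

/-- MA: the main case (uses A6, B1, TW, NEG, NC, GEN, CB, ST, J1, TD). -/
def S_MA : Prop :=
  ∀ (n : ℕ), 4 ≤ n → ∀ S0 S1 : Finset (ℕ × ℕ), IsLowerSet (S0 : Set (ℕ × ℕ)) →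
    IsLowerSet (S1 : Set (ℕ × ℕ)) → S0.card = n → S1.card = n → S0 ≠ S1 →
    (0, 1) ∈ S0 → (0, 1) ∈ S1 → (n - 3, 0) ∉ S1 → Joined n (mIdeal S0) (mIdeal S1)

/-- OB: partitions which differ by one box: pencil `span(mon p, p ∉ S0 ∪ S1) + (m₁ + t m₂)`. -/
def S_OB : Prop :=
  ∀ (n : ℕ) (S0 S1 : Finset (ℕ × ℕ)), IsLowerSet (S0 : Set (ℕ × ℕ)) →
    IsLowerSet (S1 : Set (ℕ × ℕ)) → S0.card = n → S1.card = n → (S0 ∪ S1).card = n + 1 →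
    Joined n (mIdeal S0) (mIdeal S1)

/-- RC: row and column, `n ≥ 2`: `(y - t x, x^n)`, by A6 with `a = t x`. -/
def S_RC : Prop :=
  ∀ (n : ℕ), 2 ≤ n → ∀ S0 S1 : Finset (ℕ × ℕ), IsLowerSet (S0 : Set (ℕ × ℕ)) →
    IsLowerSet (S1 : Set (ℕ × ℕ)) → S0.card = n → S1.card = n →
    (0, 1) ∉ S0 → (1, 0) ∉ S1 → Joined n (mIdeal S0) (mIdeal S1)

/-- SW: symmetry `x ↔ y` of `Joined`. -/
def S_SW : Prop :=
  ∀ (n : ℕ) (S0 S1 : Finset (ℕ × ℕ)),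
    Joined n (mIdeal (S0.image Prod.swap)) (mIdeal (S1.image Prod.swap)) →
    Joined n (mIdeal S0) (mIdeal S1)

/-- MO: monomial ideals of finite colength are the `mIdeal S`. -/
def S_MO : Prop :=
  ∀ (n : ℕ) (I : Ideal (P2 ℂ)), 1 ≤ n → IsMonomialIdeal I → Module.finrank ℂ (P2 ℂ ⧸ I) = n →
    ∃ S : Finset (ℕ × ℕ), IsLowerSet (S : Set (ℕ × ℕ)) ∧ S.card = n ∧ I = mIdeal S

/-- CA: case distinction. -/
def S_CA : Prop :=
  ∀ (n : ℕ) (S0 S1 : Finset (ℕ × ℕ)), IsLowerSet (S0 : Set (ℕ × ℕ)) →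
    IsLowerSet (S1 : Set (ℕ × ℕ)) → S0.card = n → S1.card = n → S0 ≠ S1 →
    (S0 ∪ S1).card = n + 1 ∨
    (2 ≤ n ∧ (0, 1) ∉ S0 ∧ (1, 0) ∉ S1) ∨ (2 ≤ n ∧ (0, 1) ∉ S1 ∧ (1, 0) ∉ S0) ∨
    (4 ≤ n ∧ (0, 1) ∈ S0 ∧ (0, 1) ∈ S1 ∧ ((n - 3, 0) ∉ S0 ∨ (n - 3, 0) ∉ S1)) ∨
    (4 ≤ n ∧ (1, 0) ∈ S0 ∧ (1, 0) ∈ S1 ∧ ((0, n - 3) ∉ S0 ∨ (0, n - 3) ∉ S1))

/-- FI: the final theorem. -/
def S_FI : Prop :=
  ∀ (n : ℕ), 1 ≤ n → ∀ I J : Ideal (P2 ℂ), IsMonomialIdeal I → IsMonomialIdeal J →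
    Module.finrank ℂ (P2 ℂ ⧸ I) = n → Module.finrank ℂ (P2 ℂ ⧸ J) = n → I ≠ J →
    Joined n I J

end HR
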